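import Pool.Agent.Lib_MP_d1a796.Defs

/-!
# The polygon of a graph and the solution maps
-/

set_option autoImplicit false

namespace VisDom

open Classical in
/-- The adjacency function of a graph with vertex set `{0, …, m-1}`. -/
noncomputable def adjFn {m : ℕ} (H : SimpleGraph (Fin m)) : ℕ → ℕ → Bool :=
  fun i j => decide (∃ (hi : i < m) (hj : j < m), H.Adj ⟨i, hi⟩ ⟨j, hj⟩)

/-- The polygon of a graph. -/
noncomputable def polygon {m : ℕ} (H : SimpleGraph (Fin m)) : Fin (NN m) → ℝ × ℝ := poly m (adjFn H)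

/-- The vertex `zz`. -/
def zv (m : ℕ) : Fin (NN m) := ⟨m * (3 * m + 2) + 1, by unfold NN; omega⟩

/-- The vertex `uu (i + 1)`. -/
def uv (m : ℕ) (i : Fin m) : Fin (NN m) := ⟨i * (3 * m + 2) + 3 * m + 1, by
  have h : (i.val + 1) * (3 * m + 2) ≤ m * (3 * m + 2) := Nat.mul_le_mul_right _ i.isLt
  unfold NN
  nlinarith⟩

/-- The room of a vertex, `none` for the vertices `BB i` and for the last five vertices. -/
def room (m : ℕ) (l : Fin (NN m)) : Option (Fin m) :=
  if h : l.val < m * (3 * m + 2) ∧ l.val % (3 * m + 2) ≠ 3 * m then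
    some ⟨l.val / (3 * m + 2), Nat.div_lt_of_lt_mul (by rw [mul_comm]; exact h.1)⟩
  else none

/-- From vertex covers to dominating sets. -/
def forth (m : ℕ) (C : Finset (Fin m)) : Finset (Fin (NN m)) := insert (zv m) (C.image (uv m))

/-- From dominating sets to vertex covers. -/
def back (m : ℕ) (D : Finset (Fin (NN m))) : Finset (Fin m) :=
  Finset.univ.filter (fun i => ∃ l ∈ D, room m l = some i)

end VisDom
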