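import Pool.Agent.Lib_MP_d1a796.Num
import Pool.Agent.Lib_MP_d1a796.Maps

/-!
# Rooms
-/

set_option autoImplicit false

namespace VisDom

private theorem room_of {m : ℕ} (i : Fin m) (r : ℕ) (hr : r < 3 * m + 2) (hr' : r ≠ 3 * m)
    (l : Fin (NN m)) (h : l.val = i * (3 * m + 2) + r) : room m l = some i := by
  have hi : (i.val + 1) * (3 * m + 2) ≤ m * (3 * m + 2) := Nat.mul_le_mul_right _ i.isLt
  have h1 : l.val < m * (3 * m + 2) := by
    rw [h]
    nlinarith
  have h2 : l.val % (3 * m + 2) = r := by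
    rw [h, Nat.mul_comm, Nat.mul_add_mod, Nat.mod_eq_of_lt hr]
  have h3 : l.val / (3 * m + 2) = i := by
    rw [h, Nat.mul_comm, Nat.mul_add_div (by omega), Nat.div_eq_of_lt hr, add_zero]
  unfold room
  rw [dif_pos ⟨h1, by rw [h2]; exact hr'⟩]
  congr 1
  exact Fin.ext h3

/-- PIECE [VD-M1] (120 lines): the three lemmas on `room` and `back`. -/
theorem room_kuu (m : ℕ) (i : Fin m) (l : Fin (NN m)) (h : l.val = kuu m i) : room m l = some i :=
  room_of i (3 * m + 1) (by omega) (by omega) l (by rw [h]; unfold kuu; omega)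

/-- The three vertices of a slot have room `i`. -/
theorem room_slot (m : ℕ) (i : Fin m) (e s : ℕ) (he : e < m) (hs : s < 3) (l : Fin (NN m))
    (h : l.val = kcl m i e + s) : room m l = some i :=
  room_of i (3 * e + s) (by omega) (by omega) l (by rw [h]; unfold kcl; omega)

/-- The last five vertices have no room. -/
theorem room_last (m : ℕ) (l : Fin (NN m)) (h : m * (3 * m + 2) ≤ l.val) : room m l = none := by
  unfold room
  rw [dif_neg]
  intro h'
  omega

theorem back_card (m : ℕ) (D : Finset (Fin (NN m))) (h : ∃ l ∈ D, room m l = none) :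
    (back m D).card + 1 ≤ D.card := by
  classical
  obtain ⟨l0, hl0, hn⟩ := h
  have h1 : ((back m D).image (some : Fin m → Option (Fin m))) ⊆ (D.erase l0).image (room m) := by
    intro x hx
    obtain ⟨i, hi, rfl⟩ := Finset.mem_image.1 hx
    obtain ⟨-, l, hl, hr⟩ := Finset.mem_filter.1 hi
    refine Finset.mem_image.2 ⟨l, Finset.mem_erase.2 ⟨?_, hl⟩, hr⟩
    rintro rfl
    rw [hn] at hr
    exact absurd hr (by simp)
  have h2 := Finset.card_le_card h1
  rw [Finset.card_image_of_injective _ (Option.some_injective _)] at h2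
  have h3 := Finset.card_image_le (s := D.erase l0) (f := room m)
  have h4 := Finset.card_erase_add_one hl0
  omega

theorem adjFn_true {m : ℕ} (H : SimpleGraph (Fin m)) {i j : Fin m} (hij : i < j) (h : H.Adj i j) :
    sl m (adjFn H) i (j - i - 1) = true := by
  have hij' : i.val < j.val := hij
  have e1 : i.val + (j.val - i.val - 1) + 1 = j.val := by omega
  unfold sl adjFn
  rw [e1]
  simp only [Bool.and_eq_true, decide_eq_true_eq]
  exact ⟨j.isLt, i.isLt, j.isLt, h⟩

theorem sl_adjFn {m : ℕ} (H : SimpleGraph (Fin m)) {i e : ℕ} (h : sl m (adjFn H) i e = true) :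
    ∃ (hi : i < m) (hj : i + e + 1 < m), H.Adj ⟨i, hi⟩ ⟨i + e + 1, hj⟩ := by
  unfold sl adjFn at h
  simp only [Bool.and_eq_true, decide_eq_true_eq] at h
  exact h.2

end VisDom
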