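import Pool.Agent.Lib_MP_d1a796.Hide
import Pool.Agent.Lib_MP_d1a796.Room

/-!
# Dominating sets and vertex covers
-/

set_option autoImplicit false

namespace VisDom

/-- PIECE [VD-M2] (120 lines), the rest of the file. PROOF. `zz` dominates all but the tips of spikes (`adj_zz`), and the tip of the spike `(i, e)` is adjacent to `uu (i+1)` and
`uu (j+1)` (`adj_tip`), one of which is in the set. -/
theorem forth_dom {m : ℕ} (hm : 1 ≤ m) (H : SimpleGraph (Fin m)) (C : Finset (Fin m)) (hC : IsCov H C) :
    IsDom (visGraph (polygon H)) (forth m C) := by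
  intro x
  by_cases hx : x ∈ forth m C
  · exact Or.inl hx
  right
  by_cases ht : ∀ i e, i < m → e < m → sl m (adjFn H) i e = true → x.val ≠ kcl m i e + 1
  · refine ⟨zv m, Finset.mem_insert_self _ _, ?_⟩
    have hxz : x.val ≠ m * (3 * m + 2) + 1 := by
      intro h
      apply hx
      have : x = zv m := Fin.ext h
      rw [this]
      exact Finset.mem_insert_self _ _
    exact (adj_zz m hm (adjFn H) x.val x.isLt hxz ht).symm
  · push Not at ht
    obtain ⟨i, e, hi, he, hb, hx'⟩ := ht
    obtain ⟨h1, h2⟩ := adj_tip m hm (adjFn H) hi he hb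
    obtain ⟨hi', hj, hadj⟩ := sl_adjFn H hb
    have hxe : x = ⟨kcl m i e + 1, by have := kcl_lt hi he; omega⟩ := Fin.ext hx'
    rcases hC _ _ hadj with hc | hc
    · refine ⟨uv m ⟨i, hi⟩, Finset.mem_insert_of_mem (Finset.mem_image_of_mem _ hc), ?_⟩
      rw [hxe]
      exact h1
    · refine ⟨uv m ⟨i + e + 1, hj⟩, Finset.mem_insert_of_mem (Finset.mem_image_of_mem _ hc), ?_⟩
      rw [hxe]
      exact h2 hj

/-- The tip of an edge `i < j`. -/
private theorem back_cov_aux {m : ℕ} (hm : 1 ≤ m) (H : SimpleGraph (Fin m)) (D : Finset (Fin (NN m)))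
    (hD : IsDom (visGraph (polygon H)) D) {i j : Fin m} (hij : i < j) (h : H.Adj i j) :
    i ∈ back m D ∨ j ∈ back m D := by
  have hb := adjFn_true H hij h
  have hij' : i.val < j.val := hij
  have he : j.val - i.val - 1 < m := by omega
  set e := j.val - i.val - 1 with hedef
  have hk := kcl_lt (m := m) (i := i.val) (e := e) i.isLt he
  have key : ∀ l ∈ D, (room m l = some i ∨ room m l = some j) → i ∈ back m D ∨ j ∈ back m D := by
    intro l hl hr
    rcases hr with hr | hr
    · left
      exact Finset.mem_filter.2 ⟨Finset.mem_univ _, l, hl, hr⟩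
    · right
      exact Finset.mem_filter.2 ⟨Finset.mem_univ _, l, hl, hr⟩
  rcases hD ⟨kcl m i e + 1, by omega⟩ with hd | ⟨l, hl, hadj⟩
  · exact key _ hd (Or.inl (room_slot m i e 1 he (by norm_num) _ rfl))
  · rcases tip_nbr m hm (adjFn H) i.isLt he hb l hadj with h1 | h1 | h1 | h1
    · exact key l hl (Or.inl (room_slot m i e 0 he (by norm_num) _ h1))
    · exact key l hl (Or.inl (room_slot m i e 2 he (by norm_num) _ h1))
    · exact key l hl (Or.inl (room_kuu m i l h1))
    · refine key l hl (Or.inr (room_kuu m j l ?_))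
      rw [h1]
      congr 1
      omega

/-- For an edge `i < j` the tip of the slot `(i, j - i - 1)` is dominated: `tip_nbr`, `room_slot`, `room_kuu`. -/
theorem back_cov {m : ℕ} (hm : 1 ≤ m) (H : SimpleGraph (Fin m)) (D : Finset (Fin (NN m)))
    (hD : IsDom (visGraph (polygon H)) D) : IsCov H (back m D) := by
  intro i j h
  rcases lt_trichotomy i j with hij | hij | hij
  · exact back_cov_aux hm H D hD hij h
  · subst hij
    exact absurd h (H.loopless.irrefl i)
  · exact (back_cov_aux hm H D hD hij h.symm).symm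

/-- `qq` is dominated: `qq_nbr`, `room_last`, `back_card`. -/
theorem back_small {m : ℕ} (hm : 1 ≤ m) (H : SimpleGraph (Fin m)) (D : Finset (Fin (NN m)))
    (hD : IsDom (visGraph (polygon H)) D) : (back m D).card + 1 ≤ D.card := by
  apply back_card
  rcases hD ⟨m * (3 * m + 2) + 2, kq_lt m⟩ with hd | ⟨l, hl, hadj⟩
  · exact ⟨_, hd, room_last m _ (by simp only; omega)⟩
  · refine ⟨l, hl, room_last m _ ?_⟩
    rcases qq_nbr m hm (adjFn H) l hadj with h1 | h1 <;> omega

theorem gam_eq {m : ℕ} (hm : 1 ≤ m) (H : SimpleGraph (Fin m)) :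
    gam (visGraph (polygon H)) = tau H + 1 := by
  classical
  have hcov : {k | ∃ C : Finset (Fin m), IsCov H C ∧ C.card = k}.Nonempty :=
    ⟨_, Finset.univ, fun i _ _ => Or.inl (Finset.mem_univ i), rfl⟩
  have hdom : {k | ∃ D : Finset (Fin (NN m)), IsDom (visGraph (polygon H)) D ∧ D.card = k}.Nonempty :=
    ⟨_, Finset.univ, fun i => Or.inl (Finset.mem_univ i), rfl⟩
  apply le_antisymm
  · obtain ⟨C, hC, hCc⟩ := Nat.sInf_mem hcov
    have h1 := forth_dom hm H C hC
    have h2 : gam (visGraph (polygon H)) ≤ (forth m C).card := Nat.sInf_le ⟨_, h1, rfl⟩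
    have h3 : (forth m C).card ≤ C.card + 1 := by
      unfold forth
      refine (Finset.card_insert_le _ _).trans ?_
      have := Finset.card_image_le (s := C) (f := uv m)
      omega
    have h4 : C.card = tau H := hCc
    omega
  · obtain ⟨D, hD, hDc⟩ := Nat.sInf_mem hdom
    have h1 : tau H ≤ (back m D).card := Nat.sInf_le ⟨_, back_cov hm H D hD, rfl⟩
    have h2 := back_small hm H D hD
    have h3 : D.card = gam (visGraph (polygon H)) := hDc
    omega

end VisDom
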