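import Pool.Agent.Lib_MP_d1a796.ConeDef

/-!
# The cone of the tip is thin
-/

set_option autoImplicit false

namespace VisDom

private theorem cone_dev_t (m i e : ℕ) : dev i (i + e + 1) (tp m true i e) = 0 := by
  have h2 : (tp m true i e).2 = W i (tp m true i e).1 - hh m true e := rfl
  have h1 : (tp m true i e).1 = i + 1 - 2 / (2 * (e : ℝ) + 5) := by
    rw [tp_fst]
    rfl
  unfold dev
  rw [h2, h1]
  unfold W hh
  simp only [if_true]
  push_cast
  field_simp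
  ring

private theorem cone_dev_c (m i e : ℕ) :
    dev i (i + e + 1) (cl m i e) = ((e : ℝ) + 3) * ep m ∧
    dev i (i + e + 1) (cr m i e) = -(((e : ℝ) + 3) * ep m) := by
  constructor
  · unfold dev cl W xo
    push_cast
    field_simp
    ring
  · unfold dev cr W xo
    push_cast
    field_simp
    ring

/-- PIECE [VD-C1] (80 lines). PROOF. `dev` is affine with `dev t = 0`, `dev c = (e + 3) ε`, `dev c' = -(e + 3) ε`; `dep i` is affine with `dep t = h`, `dep c = dep c' = 0`.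
So `dev w = (α - β) (e + 3) ε` and `dep i w = h - (α + β) h`. And `c.1, c'.1 > t.1 = zL i e` (`zL_lt`, `tp_fst`). -/
theorem cone_bound (m : ℕ) {i e : ℕ} (he : e < m) (w : ℝ × ℝ) (α β : ℝ) (hα : 0 ≤ α) (hβ : 0 ≤ β)
    (hw : w - tp m true i e = α • (cl m i e - tp m true i e) + β • (cr m i e - tp m true i e)) :
    (tp m true i e).1 ≤ w.1 ∧
    |dev i (i + e + 1) w| ≤ (2 * (e : ℝ) + 5) * ((e : ℝ) + 3) * ep m * (1 / (2 * (e : ℝ) + 5) - dep i w) := by
  have hε := ep_pos m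
  have hw1 : w.1 - (tp m true i e).1 = α * ((cl m i e).1 - (tp m true i e).1)
      + β * ((cr m i e).1 - (tp m true i e).1) := congrArg Prod.fst hw
  have hw2 : w.2 - (tp m true i e).2 = α * ((cl m i e).2 - (tp m true i e).2)
      + β * ((cr m i e).2 - (tp m true i e).2) := congrArg Prod.snd hw
  have ht := cone_dev_t m i e
  obtain ⟨hc, hc'⟩ := cone_dev_c m i e
  have hdt := dep_tp m true i e
  have hdc : dep i (cl m i e) = 0 := by
    unfold dep cl
    ring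
  have hdc' : dep i (cr m i e) = 0 := by
    unfold dep cr
    ring
  have hz := zL_lt i he
  have ht1 : (tp m true i e).1 = zL i e := by rw [tp_fst]; rfl
  have hcl : (cl m i e).1 = xo i e - ep m := rfl
  have hcr : (cr m i e).1 = xo i e + ep m := rfl
  have hhv : hh m true e = 1 / (2 * (e : ℝ) + 5) := rfl
  have h1 : dev i (i + e + 1) w = (α - β) * (((e : ℝ) + 3) * ep m) := by
    have h2 : dev i (i + e + 1) w = dev i (i + e + 1) (tp m true i e)
        + α * (dev i (i + e + 1) (cl m i e) - dev i (i + e + 1) (tp m true i e))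
        + β * (dev i (i + e + 1) (cr m i e) - dev i (i + e + 1) (tp m true i e)) := by
      unfold dev
      linear_combination hw2 - ((i : ℝ) + ((i + e + 1 : ℕ) : ℝ) + 2) * hw1
    rw [h2, ht, hc, hc']
    ring
  have h3 : dep i w = 1 / (2 * (e : ℝ) + 5) - (α + β) * (1 / (2 * (e : ℝ) + 5)) := by
    have h4 : dep i w = dep i (tp m true i e)
        + α * (dep i (cl m i e) - dep i (tp m true i e))
        + β * (dep i (cr m i e) - dep i (tp m true i e)) := by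
      unfold dep W
      linear_combination 2 * (i : ℝ) * hw1 - hw2
    rw [h4, hdt, hdc, hdc', hhv]
    ring
  constructor
  · rw [hcl, hcr, ht1] at hw1
    rw [ht1]
    have h5 : 0 ≤ α * (xo i e - ep m - zL i e) := mul_nonneg hα (by linarith)
    have h6 : 0 ≤ β * (xo i e + ep m - zL i e) := mul_nonneg hβ (by linarith)
    linarith
  · rw [h1, h3, abs_mul, abs_of_pos (show 0 < ((e : ℝ) + 3) * ep m by positivity)]
    have h7 : (2 * (e : ℝ) + 5) * ((e : ℝ) + 3) * ep m * (1 / (2 * (e : ℝ) + 5)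
        - (1 / (2 * (e : ℝ) + 5) - (α + β) * (1 / (2 * (e : ℝ) + 5))))
        = (α + β) * (((e : ℝ) + 3) * ep m) := by
      field_simp
      ring
    rw [h7]
    refine mul_le_mul_of_nonneg_right ?_ (by positivity)
    rw [abs_le]
    constructor <;> linarith

/-- (same piece) PROOF. Otherwise `cone_bound`. `W i w.1 ≥ i ^ 2 ≥ 0` since `w.1 ≥ t.1 ≥ i`, so `h - dep i w ≤ 1/5 + m ^ 2` and with `L = m + 2`:
`(2e+5)(e+3) ε (h - dep i w) ≤ 2 L^2 ε L^2 = 1 / (8 L)` (`ep_mul`; `e + 1 ≤ m`). -/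
theorem not_cone (m : ℕ) {i e : ℕ} (he : e < m) (w : ℝ × ℝ) (hy : w.2 ≤ (m : ℝ) ^ 2)
    (hd : (tp m true i e).1 ≤ w.1 → 1 / (8 * ((m : ℝ) + 2)) < |dev i (i + e + 1) w|) (α β : ℝ)
    (hα : 0 ≤ α) (hβ : 0 ≤ β) :
    w - tp m true i e ≠ α • (cl m i e - tp m true i e) + β • (cr m i e - tp m true i e) := by
  intro hw
  obtain ⟨h1, h2⟩ := cone_bound m he w α β hα hβ hw
  have h3 := hd h1
  have hε := ep_pos m
  have hεm := ep_mul m
  obtain ⟨L, hL⟩ : ∃ L : ℝ, L = (m : ℝ) + 2 := ⟨_, rfl⟩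
  rw [← hL] at hεm h3
  have he1 : (e : ℝ) + 1 ≤ m := by exact_mod_cast he
  have he0 : (0 : ℝ) ≤ e := Nat.cast_nonneg e
  have hm0 : (0 : ℝ) ≤ m := Nat.cast_nonneg m
  have hi0 : (0 : ℝ) ≤ i := Nat.cast_nonneg i
  have ht1 : (tp m true i e).1 = zL i e := by rw [tp_fst]; rfl
  have hx : (i : ℝ) ≤ w.1 := by
    have := zL_lower i e
    linarith
  have hdep : 1 / (2 * (e : ℝ) + 5) - dep i w ≤ L ^ 2 := by
    have h4 : 1 / (2 * (e : ℝ) + 5) ≤ 1 := by
      rw [div_le_one (by positivity)]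
      linarith
    have h5 : 0 ≤ (i : ℝ) * (w.1 - i) := mul_nonneg hi0 (by linarith)
    have h6 : 0 ≤ (i : ℝ) * i := mul_nonneg hi0 hi0
    unfold dep W
    rw [hL]
    nlinarith
  have hcoef : (2 * (e : ℝ) + 5) * ((e : ℝ) + 3) ≤ 2 * L ^ 2 := by
    rw [hL]
    nlinarith
  have hL2 : 2 ≤ L := by rw [hL]; linarith
  have h7 : (2 * (e : ℝ) + 5) * ((e : ℝ) + 3) * ep m * (1 / (2 * (e : ℝ) + 5) - dep i w)
      ≤ 2 * L ^ 2 * ep m * L ^ 2 := by
    have h8 : (2 * (e : ℝ) + 5) * ((e : ℝ) + 3) * ep m ≤ 2 * L ^ 2 * ep m :=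
      mul_le_mul_of_nonneg_right hcoef hε.le
    calc (2 * (e : ℝ) + 5) * ((e : ℝ) + 3) * ep m * (1 / (2 * (e : ℝ) + 5) - dep i w)
        ≤ (2 * (e : ℝ) + 5) * ((e : ℝ) + 3) * ep m * L ^ 2 :=
          mul_le_mul_of_nonneg_left hdep (by positivity)
      _ ≤ 2 * L ^ 2 * ep m * L ^ 2 := mul_le_mul_of_nonneg_right h8 (by positivity)
  have h9 : 2 * L ^ 2 * ep m * L ^ 2 = 1 / (8 * L) := by
    rw [eq_div_iff (by positivity)]
    linear_combination hεm
  linarith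

/-- (same piece) PROOF. `w = (m, Y)`: `dev w ≥ Y - 2 m^2`, while the bound of `cone_bound` is `≤ 2 (m+2)^2 ε (1 + Y) ≤ 2`. -/
theorem not_cone_RR (m : ℕ) {i e : ℕ} (hi : i + e + 1 < m) (α β : ℝ) (hα : 0 ≤ α) (hβ : 0 ≤ β) :
    RR m - tp m true i e ≠ α • (cl m i e - tp m true i e) + β • (cr m i e - tp m true i e) := by
  intro hw
  have he : e < m := by omega
  obtain ⟨h1, h2⟩ := cone_bound m he (RR m) α β hα hβ hw
  have hε := ep_pos m
  have hεm := ep_mul m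
  have hY := Yt_big m
  obtain ⟨L, hL⟩ : ∃ L : ℝ, L = (m : ℝ) + 2 := ⟨_, rfl⟩
  have hYt : Yt m = 10 * L ^ 3 := by rw [hL]; rfl
  rw [← hL] at hεm hY
  have he1 : (i : ℝ) + e + 2 ≤ m := by exact_mod_cast hi
  have he0 : (0 : ℝ) ≤ e := Nat.cast_nonneg e
  have hi0 : (0 : ℝ) ≤ i := Nat.cast_nonneg i
  have hm0 : (0 : ℝ) ≤ m := Nat.cast_nonneg m
  have hL2 : 2 ≤ L := by rw [hL]; linarith
  have hdev : 2 < dev i (i + e + 1) (RR m) := by
    unfold dev RR
    push_cast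
    have h3 : 0 ≤ ((m : ℝ) - (i + e + 2)) * m := mul_nonneg (by linarith) hm0
    have h4 : 0 ≤ ((m : ℝ) - (i + 1)) * m := mul_nonneg (by linarith) hm0
    have h5 : 0 ≤ ((i : ℝ) + 1) * (i + e + 1 + 1) := by positivity
    rw [hL] at hY
    nlinarith
  have hdep : 1 / (2 * (e : ℝ) + 5) - dep i (RR m) ≤ 1 + Yt m := by
    have h4 : 1 / (2 * (e : ℝ) + 5) ≤ 1 := by
      rw [div_le_one (by positivity)]
      linarith
    have h5 : 0 ≤ (i : ℝ) * (m - i) := mul_nonneg hi0 (by linarith)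
    have h6 : 0 ≤ (i : ℝ) * m := mul_nonneg hi0 hm0
    unfold dep W RR
    simp only
    nlinarith
  have hcoef : (2 * (e : ℝ) + 5) * ((e : ℝ) + 3) ≤ 2 * L ^ 2 := by
    rw [hL]
    nlinarith
  have hY0 : 0 ≤ 1 + Yt m := by rw [hYt]; positivity
  have h7 : (2 * (e : ℝ) + 5) * ((e : ℝ) + 3) * ep m * (1 / (2 * (e : ℝ) + 5) - dep i (RR m))
      ≤ 2 * L ^ 2 * ep m * (1 + Yt m) := by
    have h8 : (2 * (e : ℝ) + 5) * ((e : ℝ) + 3) * ep m ≤ 2 * L ^ 2 * ep m :=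
      mul_le_mul_of_nonneg_right hcoef hε.le
    calc (2 * (e : ℝ) + 5) * ((e : ℝ) + 3) * ep m * (1 / (2 * (e : ℝ) + 5) - dep i (RR m))
        ≤ (2 * (e : ℝ) + 5) * ((e : ℝ) + 3) * ep m * (1 + Yt m) :=
          mul_le_mul_of_nonneg_left hdep (by positivity)
      _ ≤ 2 * L ^ 2 * ep m * (1 + Yt m) := mul_le_mul_of_nonneg_right h8 hY0
  have h9 : 2 * L ^ 2 * ep m * (1 + Yt m) ≤ 1 / 8 + 5 / 4 := by
    have h10 := ep_le_sq m
    rw [← hL] at h10
    have h11 : 2 * L ^ 2 * ep m * (1 + Yt m) = ep m * (2 * L ^ 2)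
        + 5 / 4 * (ep m * (16 * L ^ 5)) := by
      rw [hYt]
      ring
    rw [h11, hεm]
    linarith
  have h12 := le_abs_self (dev i (i + e + 1) (RR m))
  linarith

end VisDom
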