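import Pool.Agent.Lib_MP_d1a796.ConeDef

/-!
# Vertices of the same room
-/

set_option autoImplicit false

namespace VisDom

private theorem dev_room (i e : ℕ) (w : ℝ × ℝ) (a : ℝ) (ha : w.1 = i + 1 - a) :
    dev i (i + e + 1) w = -1 + ((e : ℝ) + 3) * a - dep i w := by
  unfold dev dep W
  rw [ha]
  push_cast
  ring

private theorem abs_frac {m e e' : ℕ} (he' : e' < m) (hne : e' ≠ e) :
    1 / ((m : ℝ) + 2) ≤ |((e : ℝ) - e') / ((e' : ℝ) + 3)| := by
  have h1 : (e' : ℝ) + 1 ≤ m := by exact_mod_cast he'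
  have h2 : (1 : ℝ) ≤ |(e : ℝ) - e'| := by
    have h3 : ((e : ℤ) - e') ≠ 0 := by omega
    have h4 := Int.one_le_abs h3
    have h5 : (((|(e : ℤ) - e'| : ℤ)) : ℝ) = |(e : ℝ) - e'| := by push_cast; rfl
    rw [← h5]
    exact_mod_cast h4
  have h6 : (0 : ℝ) < (e' : ℝ) + 3 := by positivity
  rw [abs_div, abs_of_pos h6, div_le_div_iff₀ (by positivity) h6]
  have : (e' : ℝ) + 3 ≤ (m : ℝ) + 2 := by linarith
  nlinarith [abs_nonneg ((e : ℝ) - e')]

private theorem perturb {m : ℕ} {u t : ℝ} (hu : 1 / ((m : ℝ) + 2) ≤ |u|)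
    (ht : |t| ≤ ((m : ℝ) + 2) * ep m) : 1 / (8 * ((m : ℝ) + 2)) < |u + t| := by
  have h1 := ep_le_sq m
  have hL : (0 : ℝ) < (m : ℝ) + 2 := by positivity
  have h2 : ((m : ℝ) + 2) * ep m ≤ 1 / (16 * ((m : ℝ) + 2)) := by
    rw [le_div_iff₀ (by positivity)]
    nlinarith
  have h3 : |u| - |t| ≤ |u + t| := by
    have := abs_sub_abs_le_abs_sub u (-t)
    rwa [abs_neg, sub_neg_eq_add] at this
  have h4 : 1 / ((m : ℝ) + 2) - 1 / (16 * ((m : ℝ) + 2)) = 15 / (16 * ((m : ℝ) + 2)) := by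
    field_simp
    norm_num
  have h5 : 1 / (8 * ((m : ℝ) + 2)) < 15 / (16 * ((m : ℝ) + 2)) := by
    rw [div_lt_div_iff₀ (by positivity) (by positivity)]
    nlinarith
  linarith

/-- PIECE [VD-C2] (100 lines). Room `k = i`. PROOF. With `w.1 = i + 1 - a`, `D = dep i w`: `dev w = -1 + (e + 3) a - D`.
`cl`, `cr`: `a = 1/(e'+3) ± ε`, `D = 0`: `dev = (e - e')/(e' + 3) ± (e + 3) ε`, absolute value `≥ 1/(m+2) - (m+2) ε > 1/(8(m+2))`.
Tip, `b' = true`: `a = 2/(2e'+5)`, `D = 1/(2e'+5)`: `dev = 2 (e - e')/(2 e' + 5)`. Tip, `b' = false`: `a = 1/(e'+3)`, `D = ε`: `dev = (e - e')/(e'+3) - ε`. -/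
theorem dev_same (m : ℕ) {i e e' : ℕ} (he : e < m) (he' : e' < m) (hne : e' ≠ e) (b : Bool) :
    1 / (8 * ((m : ℝ) + 2)) < |dev i (i + e + 1) (cl m i e')| ∧
    1 / (8 * ((m : ℝ) + 2)) < |dev i (i + e + 1) (cr m i e')| ∧
    1 / (8 * ((m : ℝ) + 2)) < |dev i (i + e + 1) (tp m b i e')| := by
  have h1 := ep_pos m
  have hu := abs_frac he' hne
  have he1 : (e : ℝ) + 1 ≤ m := by exact_mod_cast he
  have he2 : (e' : ℝ) + 1 ≤ m := by exact_mod_cast he'
  have he0 : (0 : ℝ) ≤ e := Nat.cast_nonneg e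
  have he0' : (0 : ℝ) ≤ e' := Nat.cast_nonneg e'
  have h3 : (0 : ℝ) < (e' : ℝ) + 3 := by positivity
  have ht : |((e : ℝ) + 3) * ep m| ≤ ((m : ℝ) + 2) * ep m := by
    rw [abs_of_pos (by positivity)]
    nlinarith
  refine ⟨?_, ?_, ?_⟩
  · have hd : dep i (cl m i e') = 0 := by
      unfold dep cl
      ring
    have hx : (cl m i e').1 = i + 1 - (1 / ((e' : ℝ) + 3) + ep m) := by
      unfold cl xo
      ring
    rw [dev_room i e _ _ hx, hd]
    have h4 : -1 + ((e : ℝ) + 3) * (1 / ((e' : ℝ) + 3) + ep m) - 0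
        = ((e : ℝ) - e') / ((e' : ℝ) + 3) + ((e : ℝ) + 3) * ep m := by
      field_simp
      ring
    rw [h4]
    exact perturb hu ht
  · have hd : dep i (cr m i e') = 0 := by
      unfold dep cr
      ring
    have hx : (cr m i e').1 = i + 1 - (1 / ((e' : ℝ) + 3) - ep m) := by
      unfold cr xo
      ring
    rw [dev_room i e _ _ hx, hd]
    have h4 : -1 + ((e : ℝ) + 3) * (1 / ((e' : ℝ) + 3) - ep m) - 0
        = ((e : ℝ) - e') / ((e' : ℝ) + 3) + -(((e : ℝ) + 3) * ep m) := by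
      field_simp
      ring
    rw [h4]
    exact perturb hu (by rw [abs_neg]; exact ht)
  · have hx := tp_fst m b i e'
    have hd := dep_tp m b i e'
    cases b with
    | true =>
      simp only [if_true] at hx
      have hx' : (tp m true i e').1 = i + 1 - 2 / (2 * (e' : ℝ) + 5) := by
        rw [hx]
        rfl
      rw [dev_room i e _ _ hx', hd]
      have h5 : (0 : ℝ) < 2 * (e' : ℝ) + 5 := by positivity
      have h4 : -1 + ((e : ℝ) + 3) * (2 / (2 * (e' : ℝ) + 5)) - hh m true e'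
          = ((e : ℝ) - e') / ((e' : ℝ) + 3) * (2 * ((e' : ℝ) + 3) / (2 * (e' : ℝ) + 5)) := by
        unfold hh
        simp only [if_true]
        field_simp
        ring
      rw [h4, abs_mul]
      have h6 : 1 ≤ 2 * ((e' : ℝ) + 3) / (2 * (e' : ℝ) + 5) := by
        rw [le_div_iff₀ h5]
        linarith
      rw [abs_of_pos (lt_of_lt_of_le one_pos h6)]
      have h7 : 1 / (8 * ((m : ℝ) + 2)) < 1 / ((m : ℝ) + 2) :=
        one_div_lt_one_div_of_lt (by positivity) (by linarith [Nat.cast_nonneg (α := ℝ) m])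
      exact (h7.trans_le hu).trans_le (le_mul_of_one_le_right (abs_nonneg _) h6)
    | false =>
      simp only [Bool.false_eq_true, if_false] at hx
      have hx' : (tp m false i e').1 = i + 1 - 1 / ((e' : ℝ) + 3) := by
        rw [hx]
        rfl
      rw [dev_room i e _ _ hx', hd]
      have h4 : -1 + ((e : ℝ) + 3) * (1 / ((e' : ℝ) + 3)) - hh m false e'
          = ((e : ℝ) - e') / ((e' : ℝ) + 3) + -ep m := by
        unfold hh
        simp only [Bool.false_eq_true, if_false]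
        field_simp
        ring
      rw [h4]
      refine perturb hu ?_
      rw [abs_neg, abs_of_pos h1]
      nlinarith [Nat.cast_nonneg (α := ℝ) m]

end VisDom
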