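import Pool.Agent.Lib_MP_d1a796.ConeDef

/-!
# Vertices of the other rooms
-/

set_option autoImplicit false

namespace VisDom

/-- PIECE [VD-C3] (100 lines). Room `k > i`, a point with `w.1 = k + 1 - a`, `0 ≤ a ≤ 2/5`, `0 ≤ D = dep k w ≤ 1/5`. PROOF. With `X = k - i ≥ 1`, `G = k - j` (an integer, `X ≥ G + 1`):
`dev w = X G - 1 + (2 - X - G) a - D`. `G ≥ 1`: `X ≥ 2`, `X G - 1 ≥ X + G - 2`, so `dev w ≥ (X + G - 2)(3/5) - 1/5 ≥ 2/5`. `G = 0`: `dev w ≤ -1 + a ≤ -3/5`.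
`G ≤ -1`, `γ = -G`: `dev w ≤ -Xγ - 1 + (2 - X + γ) a ≤ -γ - 1 + (1 + γ)(2/5) ≤ -6/5`. -/
theorem dev_far (i j k : ℕ) (hij : i < j) (hik : i < k) (w : ℝ × ℝ) (a : ℝ) (ha : w.1 = k + 1 - a)
    (ha0 : 0 ≤ a) (ha1 : a ≤ 2 / 5) (hD0 : 0 ≤ dep k w) (hD1 : dep k w ≤ 1 / 5) :
    1 / 5 ≤ |dev i j w| := by
  obtain ⟨X, hX⟩ : ∃ X : ℝ, X = k - i := ⟨_, rfl⟩
  obtain ⟨Γ, hΓ⟩ : ∃ Γ : ℝ, Γ = k - j := ⟨_, rfl⟩
  have h1 : (i : ℝ) + 1 ≤ k := by exact_mod_cast hik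
  have h2 : (i : ℝ) + 1 ≤ j := by exact_mod_cast hij
  have hX1 : 1 ≤ X := by rw [hX]; linarith
  have hXG : Γ + 1 ≤ X := by rw [hX, hΓ]; linarith
  have hdev : dev i j w = X * Γ - 1 + (2 - X - Γ) * a - dep k w := by
    unfold dev dep W
    rw [ha, hX, hΓ]
    ring
  rw [hdev]
  rcases Nat.lt_trichotomy j k with h | h | h
  · have h3 : (j : ℝ) + 1 ≤ k := by exact_mod_cast h
    have hG1 : 1 ≤ Γ := by rw [hΓ]; linarith
    refine le_trans ?_ (le_abs_self _)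
    have h4 : 0 ≤ (X - 1) * (Γ - 1) := mul_nonneg (by linarith) (by linarith)
    have h5 : 0 ≤ (X + Γ - 2 - 1) * (2 / 5 - a) := mul_nonneg (by linarith) (by linarith)
    nlinarith
  · have hG0 : Γ = 0 := by rw [hΓ, h]; ring
    rw [hG0]
    refine le_trans ?_ (neg_le_abs _)
    have h4 : 0 ≤ (X - 1) * a := mul_nonneg (by linarith) ha0
    nlinarith
  · have h3 : (k : ℝ) + 1 ≤ j := by exact_mod_cast h
    have hG1 : Γ ≤ -1 := by rw [hΓ]; linarith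
    refine le_trans ?_ (neg_le_abs _)
    have h4 : 0 ≤ (X - 1) * a := mul_nonneg (by linarith) ha0
    have h5 : 0 ≤ (X - 1) * (-Γ) := mul_nonneg (by linarith) (by linarith)
    have h6 : 0 ≤ (2 / 5 - a) * (1 - Γ) := mul_nonneg (by linarith) (by linarith)
    nlinarith

/-- (same piece) The points `uu k`, `k ≠ i + 1, j + 1`: `dev = (k - i - 1)(k - j - 1)`. -/
theorem dev_uu (i j k : ℕ) (h1 : k ≠ i + 1) (h2 : k ≠ j + 1) : 1 ≤ |dev i j (uu k)| := by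
  have hdev : dev i j (uu k) = ((((k : ℤ) - i - 1) * ((k : ℤ) - j - 1) : ℤ) : ℝ) := by
    unfold dev uu
    push_cast
    ring
  rw [hdev, ← Int.cast_abs]
  have h3 : ((k : ℤ) - i - 1) * ((k : ℤ) - j - 1) ≠ 0 := mul_ne_zero (by omega) (by omega)
  exact_mod_cast Int.one_le_abs h3

/-- (same piece) The points `BB k`, `k ≥ i`: `dev = (k - i)(k - j) - 1`. -/
theorem dev_BB (i j k : ℕ) (hij : i < j) (hik : i ≤ k) : 1 ≤ |dev i j (BB k)| := by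
  have hdev : dev i j (BB k) = ((k : ℝ) - i) * ((k : ℝ) - j) - 1 := by
    unfold dev BB
    ring
  rw [hdev]
  have h1 : (i : ℝ) ≤ k := by exact_mod_cast hik
  have h2 : (i : ℝ) + 1 ≤ j := by exact_mod_cast hij
  rcases Nat.lt_or_ge j k with h | h
  · have h3 : (j : ℝ) + 1 ≤ k := by exact_mod_cast h
    refine le_trans ?_ (le_abs_self _)
    nlinarith
  · have h3 : (k : ℝ) ≤ j := by exact_mod_cast h
    refine le_trans ?_ (neg_le_abs _)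
    nlinarith

end VisDom
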