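import Pool.Agent.Lib_MP_d1a796.Params

/-!
# The cone of the tip of a spike

`(i, e)` is a spike, `j = i + e + 1`, `h = 1 / (2 e + 5)`.
-/

set_option autoImplicit false

namespace VisDom

/-- Height above the line through `uu (i + 1)` and `uu (j + 1)`. -/
noncomputable def dev (i j : ℕ) (p : ℝ × ℝ) : ℝ :=
  p.2 - (((i : ℝ) + j + 2) * p.1 - ((i : ℝ) + 1) * ((j : ℝ) + 1))

end VisDom
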