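import Mathlib

/-!
# Visibility graphs of simple polygons, domination and vertex covers: definitions

General definitions first, then the polygon `poly m A` which encodes the graph with adjacency `A` on `{0, …, m-1}`.
-/

set_option autoImplicit false

namespace VisDom

/-! ## Polygons -/

/-- The side number `k` of the closed polygon with vertices `P 0, …, P (n-1)` (indices mod `n`). -/
def side {n : ℕ} [NeZero n] (P : Fin n → ℝ × ℝ) (k : Fin n) : Set (ℝ × ℝ) :=
  segment ℝ (P k) (P (k + 1))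

/-- The polygonal curve. -/
def curve {n : ℕ} [NeZero n] (P : Fin n → ℝ × ℝ) : Set (ℝ × ℝ) := ⋃ k, side P k

/-- Simple polygon: the vertices are distinct and two sides meet at most in common end points. -/
structure IsSimple {n : ℕ} [NeZero n] (P : Fin n → ℝ × ℝ) : Prop where
  three : 3 ≤ n
  inj : Function.Injective P
  sides : ∀ k l, k ≠ l → ∀ p, p ∈ side P k → p ∈ side P l →
    (p = P k ∨ p = P (k + 1)) ∧ (p = P l ∨ p = P (l + 1))

/-- The closed region bounded by the polygon: the curve and the bounded components of its complement. -/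
def region {n : ℕ} [NeZero n] (P : Fin n → ℝ × ℝ) : Set (ℝ × ℝ) :=
  {x | x ∈ curve P ∨ Bornology.IsBounded (connectedComponentIn (curve P)ᶜ x)}

/-- The visibility graph: two vertices are adjacent if the closed segment between them lies in the region. -/
def visGraph {n : ℕ} [NeZero n] (P : Fin n → ℝ × ℝ) : SimpleGraph (Fin n) where
  Adj k l := k ≠ l ∧ segment ℝ (P k) (P l) ⊆ region P
  symm := ⟨fun k l h => ⟨h.1.symm, by rw [segment_symm]; exact h.2⟩⟩
  loopless := ⟨fun _ h => h.1 rfl⟩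

/-! ## Domination and vertex covers -/

/-- `D` is a dominating set of `G`. -/
def IsDom {V : Type*} (G : SimpleGraph V) (D : Finset V) : Prop := ∀ x, x ∈ D ∨ ∃ y ∈ D, G.Adj x y

/-- The domination number. -/
noncomputable def gam {V : Type*} (G : SimpleGraph V) : ℕ :=
  sInf {k | ∃ D : Finset V, IsDom G D ∧ D.card = k}

/-- `C` is a vertex cover of `H`. -/
def IsCov {V : Type*} (H : SimpleGraph V) (C : Finset V) : Prop := ∀ i j, H.Adj i j → i ∈ C ∨ j ∈ C

/-- The vertex cover number. -/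
noncomputable def tau {V : Type*} (H : SimpleGraph V) : ℕ :=
  sInf {k | ∃ C : Finset V, IsCov H C ∧ C.card = k}

/-! ## The polygon of a graph -/

noncomputable section

/-- The small parameter. -/
def ep (m : ℕ) : ℝ := 1 / (16 * ((m : ℝ) + 2) ^ 5)

/-- The height of the top side. -/
def Yt (m : ℕ) : ℝ := 10 * ((m : ℝ) + 2) ^ 3

/-- The wall of room `i` is the line `y = 2 i x - i ^ 2`, `i ≤ x ≤ i + 1`. -/
def W (i : ℕ) (x : ℝ) : ℝ := 2 * i * x - (i : ℝ) ^ 2

/-- The middle of the opening of slot `(i, e)`. -/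
def xo (i e : ℕ) : ℝ := i + 1 - 1 / ((e : ℝ) + 3)

/-- Slope parameter of a slot (`b`: long thin spike, otherwise shallow dent). -/
def ka (b : Bool) (e : ℕ) : ℝ := if b then -(1 / ((e : ℝ) + 3)) else 0

/-- Depth of a slot. -/
def hh (m : ℕ) (b : Bool) (e : ℕ) : ℝ := if b then 1 / (2 * (e : ℝ) + 5) else ep m

/-- Left corner of slot `(i, e)`. -/
def cl (m i e : ℕ) : ℝ × ℝ := (xo i e - ep m, W i (xo i e - ep m))

/-- Right corner of slot `(i, e)`. -/
def cr (m i e : ℕ) : ℝ × ℝ := (xo i e + ep m, W i (xo i e + ep m))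

/-- Tip of slot `(i, e)`. -/
def tp (m : ℕ) (b : Bool) (i e : ℕ) : ℝ × ℝ :=
  (xo i e + ka b e * hh m b e, W i (xo i e + ka b e * hh m b e) - hh m b e)

/-- The point `(k, k ^ 2)` of the parabola. -/
def uu (k : ℕ) : ℝ × ℝ := ((k : ℝ), (k : ℝ) ^ 2)

/-- The point just below `uu (i + 1)`, end of the wall of room `i`. -/
def BB (i : ℕ) : ℝ × ℝ := ((i : ℝ) + 1, ((i : ℝ) + 1) ^ 2 - 1)

def RR (m : ℕ) : ℝ × ℝ := ((m : ℝ), Yt m)
def zz (m : ℕ) : ℝ × ℝ := (0, Yt m)
def qq (m : ℕ) : ℝ × ℝ := (-1, Yt m + 1)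
def aa (m : ℕ) : ℝ × ℝ := (0, Yt m - 1)

/-- Is slot `(i, e)` a spike?  It is the slot of the pair `(i, i + e + 1)`. -/
def sl (m : ℕ) (A : ℕ → ℕ → Bool) (i e : ℕ) : Bool := decide (i + e + 1 < m) && A i (i + e + 1)

/-- The vertices of room `i`: corner, tip, corner for `e = 0, …, m-1`, then `BB i`, `uu (i + 1)`. -/
def blk (m : ℕ) (A : ℕ → ℕ → Bool) (i r : ℕ) : ℝ × ℝ :=
  if r < 3 * m then
    (if r % 3 = 0 then cl m i (r / 3)
     else if r % 3 = 1 then tp m (sl m A i (r / 3)) i (r / 3)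
     else cr m i (r / 3))
  else if r = 3 * m then BB i else uu (i + 1)

/-- All vertices: room `0`, …, room `m-1`, then `RR, zz, qq, aa, uu 0`. -/
def vert (m : ℕ) (A : ℕ → ℕ → Bool) (k : ℕ) : ℝ × ℝ :=
  if k < m * (3 * m + 2) then blk m A (k / (3 * m + 2)) (k % (3 * m + 2))
  else if k = m * (3 * m + 2) then RR m
  else if k = m * (3 * m + 2) + 1 then zz m
  else if k = m * (3 * m + 2) + 2 then qq m
  else if k = m * (3 * m + 2) + 3 then aa m
  else uu 0

end

/-- The number of vertices, `3 m ^ 2 + 2 m + 5`. -/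
abbrev NN (m : ℕ) : ℕ := m * (3 * m + 2) + 5

/-- The polygon. -/
noncomputable def poly (m : ℕ) (A : ℕ → ℕ → Bool) : Fin (NN m) → ℝ × ℝ := fun k => vert m A k

/-! ## The region of the polygon as a union of convex sets -/

/-- Depth below the wall of room `i`. -/
noncomputable def dep (i : ℕ) (p : ℝ × ℝ) : ℝ := W i p.1 - p.2

/-- Column `i`. -/
def col (m i : ℕ) : Set (ℝ × ℝ) :=
  {p | (i : ℝ) ≤ p.1 ∧ p.1 ≤ i + 1 ∧ W i p.1 ≤ p.2 ∧ p.2 ≤ Yt m}

/-- The triangle `cl, tp, cr` of slot `(i, e)`. -/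
def tri (m : ℕ) (b : Bool) (i e : ℕ) : Set (ℝ × ℝ) :=
  {p | 0 ≤ dep i p ∧
    hh m b e * (p.1 - xo i e - ka b e * dep i p) ≤ ep m * (hh m b e - dep i p) ∧
    -(hh m b e * (p.1 - xo i e - ka b e * dep i p)) ≤ ep m * (hh m b e - dep i p)}

/-- The triangle `zz, qq, aa`. -/
def ear (m : ℕ) : Set (ℝ × ℝ) := {p | p.1 ≤ 0 ∧ p.2 ≤ Yt m - p.1 ∧ Yt m - 1 - 2 * p.1 ≤ p.2}

/-- The union (it is the region of `poly m A`). -/
def KK (m : ℕ) (A : ℕ → ℕ → Bool) : Set (ℝ × ℝ) :=
  (⋃ i ∈ Finset.range m, col m i) ∪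
  (⋃ i ∈ Finset.range m, ⋃ e ∈ Finset.range m, tri m (sl m A i e) i e) ∪ ear m

end VisDom
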