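import Pool.Agent.Lib_MP_d1a796.DescDef

/-!
# The other sides
-/

set_option autoImplicit false

namespace VisDom

/-- segments of a line which is a graph over the `x`-axis -/
private theorem dr_graph (a b : ℝ) (P Q : ℝ × ℝ) (h : P.1 < Q.1) (hP : P.2 = a * P.1 + b)
    (hQ : Q.2 = a * Q.1 + b) (p : ℝ × ℝ) :
    p ∈ segment ℝ P Q ↔ p.2 = a * p.1 + b ∧ P.1 ≤ p.1 ∧ p.1 ≤ Q.1 := by
  constructor
  · rintro ⟨s, t, hs, ht, hst, rfl⟩
    simp only [Prod.fst_add, Prod.smul_fst, Prod.snd_add, Prod.smul_snd, smul_eq_mul]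
    have hs' : s = 1 - t := by linarith
    subst hs'
    refine ⟨?_, ?_, ?_⟩
    · rw [hP, hQ]; ring
    · nlinarith
    · nlinarith
  · rintro ⟨h1, h2, h3⟩
    have hd : 0 < Q.1 - P.1 := by linarith
    refine ⟨(Q.1 - p.1) / (Q.1 - P.1), (p.1 - P.1) / (Q.1 - P.1), div_nonneg (by linarith) hd.le,
      div_nonneg (by linarith) hd.le, ?_, ?_⟩
    · rw [← add_div, div_eq_one_iff_eq hd.ne']
      ring
    · refine Prod.ext ?_ ?_
      · simp only [Prod.fst_add, Prod.smul_fst, smul_eq_mul]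
        field_simp
        ring
      · simp only [Prod.snd_add, Prod.smul_snd, smul_eq_mul]
        rw [hP, hQ, h1]
        field_simp
        ring

/-- vertical segments -/
private theorem dr_vert (c : ℝ) (P Q : ℝ × ℝ) (h : P.2 < Q.2) (hP : P.1 = c) (hQ : Q.1 = c)
    (p : ℝ × ℝ) : p ∈ segment ℝ P Q ↔ p.1 = c ∧ P.2 ≤ p.2 ∧ p.2 ≤ Q.2 := by
  constructor
  · rintro ⟨s, t, hs, ht, hst, rfl⟩
    simp only [Prod.fst_add, Prod.smul_fst, Prod.snd_add, Prod.smul_snd, smul_eq_mul]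
    have hs' : s = 1 - t := by linarith
    subst hs'
    refine ⟨?_, ?_, ?_⟩
    · rw [hP, hQ]; ring
    · nlinarith
    · nlinarith
  · rintro ⟨h1, h2, h3⟩
    have hd : 0 < Q.2 - P.2 := by linarith
    refine ⟨(Q.2 - p.2) / (Q.2 - P.2), (p.2 - P.2) / (Q.2 - P.2), div_nonneg (by linarith) hd.le,
      div_nonneg (by linarith) hd.le, ?_, ?_⟩
    · rw [← add_div, div_eq_one_iff_eq hd.ne']
      ring
    · refine Prod.ext ?_ ?_
      · simp only [Prod.fst_add, Prod.smul_fst, smul_eq_mul]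
        rw [hP, hQ, h1]
        field_simp
        ring
      · simp only [Prod.snd_add, Prod.smul_snd, smul_eq_mul]
        field_simp
        ring

private theorem dr_sq_lt (m : ℕ) : (m : ℝ) ^ 2 < Yt m := by
  have h := Yt_big m
  have hm : (0 : ℝ) ≤ m := Nat.cast_nonneg m
  nlinarith

private theorem dr_Yt (m : ℕ) : 10 ≤ Yt m := by
  have h := Yt_big m
  have hm : (0 : ℝ) ≤ m := Nat.cast_nonneg m
  nlinarith

/-- PIECE [VD-D2] (140 lines) the other sides. Useful: both ends of `wa i d` are on the line `dep i p = 0`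
(`uu i`, `BB i`, `cl`, `cr`), and `(wl m i d).1 < (wr m i d).1` (`xo_upper`, `zL_lt`, `zone_lt`, `xo_lower`). -/
theorem desc_wa (m : ℕ) (A : ℕ → ℕ → Bool) {i d : ℕ} (hi : i < m) (hd : d ≤ m) (p : ℝ × ℝ) :
    p ∈ segment ℝ ((Ed.wa i d).src m A) ((Ed.wa i d).dst m A) ↔ (Ed.wa i d).Desc m A p := by
  have hl : (wl m i d).2 = 2 * i * (wl m i d).1 + -(i : ℝ) ^ 2 := by
    unfold wl
    split_ifs
    · simp only [uu]; ring
    · simp only [cr, W]; ring
  have hr : (wr m i d).2 = 2 * i * (wr m i d).1 + -(i : ℝ) ^ 2 := by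
    unfold wr
    split_ifs
    · simp only [BB]; ring
    · simp only [cl, W]; ring
  have hlt : (wl m i d).1 < (wr m i d).1 := by
    have h1 := ep_pos m
    have h2 := ep_small m
    unfold wl wr
    by_cases h0 : d = 0
    · have hdm : d ≠ m := by omega
      rw [if_pos h0, if_neg hdm]
      simp only [uu, cl]
      have := xo_lower i d
      linarith
    · rw [if_neg h0]
      by_cases hdm : d = m
      · rw [if_pos hdm]
        simp only [BB, cr]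
        exact xo_upper i (by omega)
      · rw [if_neg hdm]
        simp only [cr, cl]
        have h3 := zone_lt (m := m) (e := d - 1) (e' := d) i (by omega) (by omega)
        have h4 := zL_lt (m := m) (e := d) i (by omega)
        linarith
  have h := dr_graph (2 * i) (-(i : ℝ) ^ 2) (wl m i d) (wr m i d) hlt hl hr p
  refine h.trans ?_
  show _ ↔ (dep i p = 0 ∧ (wl m i d).1 ≤ p.1 ∧ p.1 ≤ (wr m i d).1)
  unfold dep W
  constructor
  · rintro ⟨h1, h2⟩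
    exact ⟨by rw [h1]; ring, h2⟩
  · rintro ⟨h1, h2⟩
    exact ⟨by linarith, h2⟩

theorem desc_nd (m : ℕ) (A : ℕ → ℕ → Bool) (i : ℕ) (p : ℝ × ℝ) :
    p ∈ segment ℝ ((Ed.nd i).src m A) ((Ed.nd i).dst m A) ↔ (Ed.nd i).Desc m A p := by
  have h := dr_vert ((i : ℝ) + 1) (BB i) (uu (i + 1)) (by simp only [BB, uu]; push_cast; linarith)
    rfl (by simp only [uu]; push_cast; ring) p
  refine h.trans ?_
  show _ ↔ (p.1 = i + 1 ∧ ((i : ℝ) + 1) ^ 2 - 1 ≤ p.2 ∧ p.2 ≤ ((i : ℝ) + 1) ^ 2)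
  simp only [BB, uu]
  push_cast
  exact Iff.rfl

theorem desc_sR (m : ℕ) (A : ℕ → ℕ → Bool) (p : ℝ × ℝ) :
    p ∈ segment ℝ (Ed.sR.src m A) (Ed.sR.dst m A) ↔ Ed.sR.Desc m A p :=
  dr_vert (m : ℝ) (uu m) (RR m) (dr_sq_lt m) rfl rfl p

theorem desc_sz (m : ℕ) (hm : 1 ≤ m) (A : ℕ → ℕ → Bool) (p : ℝ × ℝ) :
    p ∈ segment ℝ (Ed.sz.src m A) (Ed.sz.dst m A) ↔ Ed.sz.Desc m A p := by
  have hm' : (0 : ℝ) < m := by exact_mod_cast hm
  have h := dr_graph 0 (Yt m) (zz m) (RR m) hm' (by simp only [zz]; ring) (by simp only [RR]; ring) p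
  rw [segment_symm]
  refine h.trans ?_
  show _ ↔ (p.2 = Yt m ∧ 0 ≤ p.1 ∧ p.1 ≤ m)
  simp only [zz, RR, zero_mul, zero_add]

theorem desc_sq (m : ℕ) (A : ℕ → ℕ → Bool) (p : ℝ × ℝ) :
    p ∈ segment ℝ (Ed.sq.src m A) (Ed.sq.dst m A) ↔ Ed.sq.Desc m A p := by
  have h := dr_graph (-1) (Yt m) (qq m) (zz m) (by simp only [zz, qq]; norm_num)
    (by simp only [qq]; ring) (by simp only [zz]; ring) p
  rw [segment_symm]
  refine h.trans ?_
  show _ ↔ (p.2 = Yt m - p.1 ∧ -1 ≤ p.1 ∧ p.1 ≤ 0)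
  simp only [zz, qq]
  rw [show -1 * p.1 + Yt m = Yt m - p.1 by ring]

theorem desc_sa (m : ℕ) (A : ℕ → ℕ → Bool) (p : ℝ × ℝ) :
    p ∈ segment ℝ (Ed.sa.src m A) (Ed.sa.dst m A) ↔ Ed.sa.Desc m A p := by
  have h := dr_graph (-2) (Yt m - 1) (qq m) (aa m) (by simp only [aa, qq]; norm_num)
    (by simp only [qq]; ring) (by simp only [aa]; ring) p
  refine h.trans ?_
  show _ ↔ (p.2 = Yt m - 1 - 2 * p.1 ∧ -1 ≤ p.1 ∧ p.1 ≤ 0)
  simp only [aa, qq]
  rw [show -2 * p.1 + (Yt m - 1) = Yt m - 1 - 2 * p.1 by ring]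

theorem desc_s0 (m : ℕ) (A : ℕ → ℕ → Bool) (p : ℝ × ℝ) :
    p ∈ segment ℝ (Ed.s0.src m A) (Ed.s0.dst m A) ↔ Ed.s0.Desc m A p := by
  have hY := dr_Yt m
  have h := dr_vert 0 (uu 0) (aa m) (by simp only [uu, aa]; push_cast; linarith)
    (by simp [uu]) rfl p
  rw [segment_symm]
  refine h.trans ?_
  show _ ↔ (p.1 = 0 ∧ 0 ≤ p.2 ∧ p.2 ≤ Yt m - 1)
  simp [uu, aa]

end VisDom
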