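import Pool.Agent.Lib_MP_d1a796.DescSlot
import Pool.Agent.Lib_MP_d1a796.DescRest

/-!
# Points on the sides of the polygon
-/

set_option autoImplicit false

namespace VisDom

theorem desc_iff (m : ℕ) (hm : 1 ≤ m) (A : ℕ → ℕ → Bool) (E : Ed) (hE : E.Valid m) (p : ℝ × ℝ) :
    p ∈ segment ℝ (E.src m A) (E.dst m A) ↔ E.Desc m A p := by
  cases E with
  | sl i e => exact desc_sl m A i e p
  | sr i e => exact desc_sr m A i e p
  | wa i d => exact desc_wa m A hE.1 hE.2 p
  | nd i => exact desc_nd m A i p
  | sR => exact desc_sR m A p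
  | sz => exact desc_sz m hm A p
  | sq => exact desc_sq m A p
  | sa => exact desc_sa m A p
  | s0 => exact desc_s0 m A p

end VisDom
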