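import Pool.Agent.Lib_MP_d1a796.Edges

/-!
# Points on the sides of the polygon: description
-/

set_option autoImplicit false

namespace VisDom

/-- Description of the points of a side. -/
def Ed.Desc (m : ℕ) (A : ℕ → ℕ → Bool) (p : ℝ × ℝ) : Ed → Prop
  | .sl i e => 0 ≤ dep i p ∧ dep i p ≤ hh m (VisDom.sl m A i e) e ∧
      hh m (VisDom.sl m A i e) e * (p.1 - xo i e - ka (VisDom.sl m A i e) e * dep i p) =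
        -(ep m * (hh m (VisDom.sl m A i e) e - dep i p))
  | .sr i e => 0 ≤ dep i p ∧ dep i p ≤ hh m (VisDom.sl m A i e) e ∧
      hh m (VisDom.sl m A i e) e * (p.1 - xo i e - ka (VisDom.sl m A i e) e * dep i p) =
        ep m * (hh m (VisDom.sl m A i e) e - dep i p)
  | .wa i d => dep i p = 0 ∧ (wl m i d).1 ≤ p.1 ∧ p.1 ≤ (wr m i d).1
  | .nd i => p.1 = i + 1 ∧ ((i : ℝ) + 1) ^ 2 - 1 ≤ p.2 ∧ p.2 ≤ ((i : ℝ) + 1) ^ 2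
  | .sR => p.1 = m ∧ (m : ℝ) ^ 2 ≤ p.2 ∧ p.2 ≤ Yt m
  | .sz => p.2 = Yt m ∧ 0 ≤ p.1 ∧ p.1 ≤ m
  | .sq => p.2 = Yt m - p.1 ∧ -1 ≤ p.1 ∧ p.1 ≤ 0
  | .sa => p.2 = Yt m - 1 - 2 * p.1 ∧ -1 ≤ p.1 ∧ p.1 ≤ 0
  | .s0 => p.1 = 0 ∧ 0 ≤ p.2 ∧ p.2 ≤ Yt m - 1

end VisDom
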