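import Pool.Agent.Lib_MP_d1a796.DescDef

/-!
# The sides of the slots
-/

set_option autoImplicit false

namespace VisDom

/-- The segment from a point of the wall to the tip. -/
private lemma seg_aux (i : ℕ) {x0 δ κ h : ℝ} (hh : 0 < h) (p : ℝ × ℝ) :
    p ∈ segment ℝ ((x0 + δ, W i (x0 + δ)) : ℝ × ℝ) (x0 + κ * h, W i (x0 + κ * h) - h) ↔
      0 ≤ dep i p ∧ dep i p ≤ h ∧ h * (p.1 - x0 - κ * dep i p) = δ * (h - dep i p) := by
  constructor
  · rintro ⟨a, b, ha, hb, hab, rfl⟩
    have hb1 : b ≤ 1 := by linarith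
    have hD : dep i (a • ((x0 + δ, W i (x0 + δ)) : ℝ × ℝ) +
        b • ((x0 + κ * h, W i (x0 + κ * h) - h) : ℝ × ℝ)) = b * h := by
      have ha' : a = 1 - b := by linarith
      subst ha'
      simp only [dep, W, Prod.fst_add, Prod.snd_add, Prod.smul_fst, Prod.smul_snd, smul_eq_mul]
      ring
    rw [hD]
    refine ⟨by positivity, by nlinarith, ?_⟩
    have ha' : a = 1 - b := by linarith
    subst ha'
    simp only [Prod.fst_add, Prod.smul_fst, smul_eq_mul]
    ring
  · rintro ⟨h0, h1, h2⟩
    have hne : h ≠ 0 := ne_of_gt hh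
    refine ⟨1 - dep i p / h, dep i p / h, ?_, by positivity, by ring, ?_⟩
    · rw [sub_nonneg, div_le_one hh]
      exact h1
    · have hx : p.1 = x0 + κ * dep i p + δ * (1 - dep i p / h) := by
        have h3 : δ * (1 - dep i p / h) = δ * (h - dep i p) / h := by
          field_simp
        rw [h3, ← h2]
        field_simp
        ring
      have hy : p.2 = W i p.1 - dep i p := by
        unfold dep
        ring
      have h4 : dep i p / h * h = dep i p := by
        field_simp
      refine Prod.ext ?_ ?_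
      · simp only [Prod.fst_add, Prod.smul_fst, smul_eq_mul]
        rw [hx]
        linear_combination κ * h4
      · simp only [Prod.snd_add, Prod.smul_snd, smul_eq_mul]
        rw [hy, hx]
        unfold W
        linear_combination (2 * (i : ℝ) * κ - 1) * h4

/-- PIECE [VD-D1] (100 lines) the two sides of a slot. `D = dep i p` is an affine function of `p` which is `0` at `cl`, `cr` and `h`
at the tip; `G p = h * (p.1 - xo - κ D) + ε (h - D)` is affine and `0` at `cl` and at the tip (`dep_tp`, definition of `tp`).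
Conversely a point with this description is `(1 - θ) cl + θ tp`, `θ = D / h`. -/
theorem desc_sl (m : ℕ) (A : ℕ → ℕ → Bool) (i e : ℕ) (p : ℝ × ℝ) :
    p ∈ segment ℝ ((Ed.sl i e).src m A) ((Ed.sl i e).dst m A) ↔ (Ed.sl i e).Desc m A p := by
  have h := seg_aux i (x0 := xo i e) (δ := -ep m) (κ := ka (VisDom.sl m A i e) e)
    (hh_pos m (VisDom.sl m A i e) e) p
  rw [neg_mul] at h
  exact h

theorem desc_sr (m : ℕ) (A : ℕ → ℕ → Bool) (i e : ℕ) (p : ℝ × ℝ) :
    p ∈ segment ℝ ((Ed.sr i e).src m A) ((Ed.sr i e).dst m A) ↔ (Ed.sr i e).Desc m A p := by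
  have h := seg_aux i (x0 := xo i e) (δ := ep m) (κ := ka (VisDom.sl m A i e) e)
    (hh_pos m (VisDom.sl m A i e) e) p
  rw [segment_symm]
  exact h

end VisDom
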