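import Pool.Agent.Lib_MP_d1a796.Params

/-!
# The sides of the polygon `poly m A`

`Ed` is the type of the sides, `Ed.ix` the number of a side, `Ed.src`, `Ed.dst` its end points.
-/

set_option autoImplicit false

namespace VisDom

inductive Ed
  | sl (i e : ℕ)  -- left side of slot `(i, e)`
  | sr (i e : ℕ)  -- right side of slot `(i, e)`
  | wa (i d : ℕ)  -- piece `d` of the wall of room `i`
  | nd (i : ℕ)    -- from `BB i` to `uu (i + 1)`
  | sR | sz | sq | sa | s0

def Ed.Valid (m : ℕ) : Ed → Prop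
  | .sl i e => i < m ∧ e < m
  | .sr i e => i < m ∧ e < m
  | .wa i d => i < m ∧ d ≤ m
  | .nd i => i < m
  | _ => True

/-- Left end of piece `d` of the wall of room `i`. -/
noncomputable def wl (m i d : ℕ) : ℝ × ℝ := if d = 0 then uu i else cr m i (d - 1)

/-- Right end of piece `d` of the wall of room `i`. -/
noncomputable def wr (m i d : ℕ) : ℝ × ℝ := if d = m then BB i else cl m i d

noncomputable def Ed.src (m : ℕ) (A : ℕ → ℕ → Bool) : Ed → ℝ × ℝ
  | .sl i e => cl m i e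
  | .sr i e => tp m (VisDom.sl m A i e) i e
  | .wa i d => wl m i d
  | .nd i => BB i
  | .sR => uu m
  | .sz => RR m
  | .sq => zz m
  | .sa => qq m
  | .s0 => aa m

noncomputable def Ed.dst (m : ℕ) (A : ℕ → ℕ → Bool) : Ed → ℝ × ℝ
  | .sl i e => tp m (VisDom.sl m A i e) i e
  | .sr i e => cr m i e
  | .wa i d => wr m i d
  | .nd i => uu (i + 1)
  | .sR => RR m
  | .sz => zz m
  | .sq => qq m
  | .sa => aa m
  | .s0 => uu 0

def Ed.ix (m : ℕ) : Ed → ℕ
  | .sl i e => i * (3 * m + 2) + 3 * e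
  | .sr i e => i * (3 * m + 2) + 3 * e + 1
  | .wa i d => if d = 0 then (if i = 0 then m * (3 * m + 2) + 4 else i * (3 * m + 2) - 1)
      else i * (3 * m + 2) + 3 * d - 1
  | .nd i => i * (3 * m + 2) + 3 * m
  | .sR => m * (3 * m + 2) - 1
  | .sz => m * (3 * m + 2)
  | .sq => m * (3 * m + 2) + 1
  | .sa => m * (3 * m + 2) + 2
  | .s0 => m * (3 * m + 2) + 3

/-! ### Values of `vert` (PIECE [VD-IX], with the two theorems below) -/

private theorem row_le {m i : ℕ} (hi : i < m) : i * (3 * m + 2) + (3 * m + 2) ≤ m * (3 * m + 2) := by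
  have h := Nat.mul_le_mul_right (3 * m + 2) (Nat.succ_le_of_lt hi)
  rwa [Nat.succ_mul] at h

/-- `k = i (3 m + 2) + r`, `r < 3 m + 2`: `Nat.mul_add_div`-type computations. -/
theorem vert_blk (m : ℕ) (A : ℕ → ℕ → Bool) {i r : ℕ} (hi : i < m) (hr : r < 3 * m + 2) :
    vert m A (i * (3 * m + 2) + r) = blk m A i r := by
  have h0 := row_le hi
  have h1 : (i * (3 * m + 2) + r) / (3 * m + 2) = i := by
    rw [Nat.add_comm, Nat.add_mul_div_right _ _ (by omega), Nat.div_eq_of_lt hr, Nat.zero_add]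
  have h2 : (i * (3 * m + 2) + r) % (3 * m + 2) = r := by
    rw [Nat.add_comm, Nat.add_mul_mod_self_right, Nat.mod_eq_of_lt hr]
  unfold vert
  rw [if_pos (by omega), h1, h2]

theorem vert_cl (m : ℕ) (A : ℕ → ℕ → Bool) {i e : ℕ} (hi : i < m) (he : e < m) :
    vert m A (i * (3 * m + 2) + 3 * e) = cl m i e := by
  rw [vert_blk m A hi (by omega)]
  unfold blk
  rw [if_pos (by omega), if_pos (by omega)]
  congr 1
  omega

theorem vert_tp (m : ℕ) (A : ℕ → ℕ → Bool) {i e : ℕ} (hi : i < m) (he : e < m) :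
    vert m A (i * (3 * m + 2) + 3 * e + 1) = tp m (sl m A i e) i e := by
  rw [Nat.add_assoc, vert_blk m A hi (by omega)]
  unfold blk
  have h : (3 * e + 1) / 3 = e := by omega
  rw [if_pos (by omega), if_neg (by omega), if_pos (by omega), h]

theorem vert_cr (m : ℕ) (A : ℕ → ℕ → Bool) {i e : ℕ} (hi : i < m) (he : e < m) :
    vert m A (i * (3 * m + 2) + 3 * e + 2) = cr m i e := by
  rw [Nat.add_assoc, vert_blk m A hi (by omega)]
  unfold blk
  have h : (3 * e + 2) / 3 = e := by omega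
  rw [if_pos (by omega), if_neg (by omega), if_neg (by omega), h]

theorem vert_BB (m : ℕ) (A : ℕ → ℕ → Bool) {i : ℕ} (hi : i < m) :
    vert m A (i * (3 * m + 2) + 3 * m) = BB i := by
  rw [vert_blk m A hi (by omega)]
  unfold blk
  rw [if_neg (by omega), if_pos rfl]

theorem vert_uu (m : ℕ) (A : ℕ → ℕ → Bool) {i : ℕ} (hi : i < m) :
    vert m A (i * (3 * m + 2) + 3 * m + 1) = uu (i + 1) := by
  rw [Nat.add_assoc, vert_blk m A hi (by omega)]
  unfold blk
  rw [if_neg (by omega), if_neg (by omega)]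

theorem vert_RR (m : ℕ) (A : ℕ → ℕ → Bool) : vert m A (m * (3 * m + 2)) = RR m := by
  unfold vert
  rw [if_neg (by omega), if_pos rfl]

theorem vert_zz (m : ℕ) (A : ℕ → ℕ → Bool) : vert m A (m * (3 * m + 2) + 1) = zz m := by
  unfold vert
  rw [if_neg (by omega), if_neg (by omega), if_pos rfl]

theorem vert_qq (m : ℕ) (A : ℕ → ℕ → Bool) : vert m A (m * (3 * m + 2) + 2) = qq m := by
  unfold vert
  rw [if_neg (by omega), if_neg (by omega), if_neg (by omega), if_pos rfl]

theorem vert_aa (m : ℕ) (A : ℕ → ℕ → Bool) : vert m A (m * (3 * m + 2) + 3) = aa m := by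
  unfold vert
  rw [if_neg (by omega), if_neg (by omega), if_neg (by omega), if_neg (by omega), if_pos rfl]

theorem vert_u0 (m : ℕ) (A : ℕ → ℕ → Bool) : vert m A (m * (3 * m + 2) + 4) = uu 0 := by
  unfold vert
  rw [if_neg (by omega), if_neg (by omega), if_neg (by omega), if_neg (by omega), if_neg (by omega)]

/-- Every vertex number is of one of the 11 forms. (`i = k / (3 m + 2)`, `r = k % (3 m + 2)`.) -/
theorem ix_cases (m k : ℕ) (hk : k < NN m) :
    (∃ i e, i < m ∧ e < m ∧ k = i * (3 * m + 2) + 3 * e) ∨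
    (∃ i e, i < m ∧ e < m ∧ k = i * (3 * m + 2) + 3 * e + 1) ∨
    (∃ i e, i < m ∧ e < m ∧ k = i * (3 * m + 2) + 3 * e + 2) ∨
    (∃ i, i < m ∧ k = i * (3 * m + 2) + 3 * m) ∨
    (∃ i, i < m ∧ k = i * (3 * m + 2) + 3 * m + 1) ∨
    k = m * (3 * m + 2) ∨ k = m * (3 * m + 2) + 1 ∨ k = m * (3 * m + 2) + 2 ∨
    k = m * (3 * m + 2) + 3 ∨ k = m * (3 * m + 2) + 4 := by
  unfold NN at hk
  by_cases h : k < m * (3 * m + 2)
  · have hi : k / (3 * m + 2) < m := Nat.div_lt_of_lt_mul (by rwa [Nat.mul_comm] at h)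
    have hr : k % (3 * m + 2) < 3 * m + 2 := Nat.mod_lt _ (by omega)
    have hkk : k = k / (3 * m + 2) * (3 * m + 2) + k % (3 * m + 2) := (Nat.div_add_mod' k _).symm
    generalize k / (3 * m + 2) = i at hi hkk
    generalize k % (3 * m + 2) = r at hr hkk
    generalize hP : i * (3 * m + 2) = P at hkk
    have hr3 : r = 3 * (r / 3) + r % 3 := by omega
    have hm3 : r % 3 < 3 := by omega
    by_cases h1 : r < 3 * m
    · have he : r / 3 < m := by omega
      generalize r / 3 = e at hr3 he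
      generalize r % 3 = c at hr3 hm3
      obtain rfl | rfl | rfl : c = 0 ∨ c = 1 ∨ c = 2 := by omega
      · exact Or.inl ⟨i, e, hi, he, by omega⟩
      · exact Or.inr (Or.inl ⟨i, e, hi, he, by omega⟩)
      · exact Or.inr (Or.inr (Or.inl ⟨i, e, hi, he, by omega⟩))
    · obtain rfl | rfl : r = 3 * m ∨ r = 3 * m + 1 := by omega
      · exact Or.inr (Or.inr (Or.inr (Or.inl ⟨i, hi, by omega⟩)))
      · exact Or.inr (Or.inr (Or.inr (Or.inr (Or.inl ⟨i, hi, by omega⟩))))
  · have h2 : k = m * (3 * m + 2) ∨ k = m * (3 * m + 2) + 1 ∨ k = m * (3 * m + 2) + 2 ∨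
        k = m * (3 * m + 2) + 3 ∨ k = m * (3 * m + 2) + 4 := by omega
    exact Or.inr (Or.inr (Or.inr (Or.inr (Or.inr h2))))

private theorem ed_main (m : ℕ) (hm : 1 ≤ m) (A : ℕ → ℕ → Bool) (E : Ed) (hE : E.Valid m) :
    E.ix m < NN m ∧ vert m A (E.ix m) = E.src m A ∧
      vert m A ((E.ix m + 1) % NN m) = E.dst m A := by
  have aux : ∀ (a : ℕ) (s d : ℝ × ℝ), a + 1 < NN m → vert m A a = s → vert m A (a + 1) = d →
      a < NN m ∧ vert m A a = s ∧ vert m A ((a + 1) % NN m) = d := by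
    intro a s d h1 h2 h3
    exact ⟨by omega, h2, by rw [Nat.mod_eq_of_lt h1]; exact h3⟩
  cases E with
  | sl i e =>
    obtain ⟨hi, he⟩ := hE
    have h0 := row_le hi
    refine aux _ _ _ ?_ (vert_cl m A hi he) (vert_tp m A hi he)
    simp only [Ed.ix, NN]
    omega
  | sr i e =>
    obtain ⟨hi, he⟩ := hE
    have h0 := row_le hi
    refine aux _ _ _ ?_ (vert_tp m A hi he) (vert_cr m A hi he)
    simp only [Ed.ix, NN]
    omega
  | wa i d =>
    obtain ⟨hi, hd⟩ := hE
    have h0 := row_le hi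
    by_cases hd0 : d = 0
    · subst hd0
      by_cases hi0 : i = 0
      · subst hi0
        simp only [Ed.ix, if_true, Ed.src, Ed.dst, wl, wr]
        refine ⟨by simp only [NN]; omega, vert_u0 m A, ?_⟩
        have h1 : (m * (3 * m + 2) + 4 + 1) % NN m = 0 := Nat.mod_self _
        rw [h1, if_neg (by omega)]
        have h2 := vert_cl m A (i := 0) (e := 0) (by omega) (by omega)
        simpa using h2
      · obtain ⟨i', rfl⟩ : ∃ i', i = i' + 1 := ⟨i - 1, by omega⟩
        have h1 : (i' + 1) * (3 * m + 2) - 1 = i' * (3 * m + 2) + 3 * m + 1 := by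
          rw [Nat.succ_mul]
          omega
        have h2 : (Ed.wa (i' + 1) 0).ix m = i' * (3 * m + 2) + 3 * m + 1 := by
          simp only [Ed.ix, if_true]
          rw [if_neg (by omega), h1]
        rw [h2]
        refine aux _ _ _ ?_ ?_ ?_
        · rw [Nat.succ_mul] at h0
          simp only [NN]
          omega
        · rw [vert_uu m A (by omega)]
          simp only [Ed.src, wl, if_true]
        · have h3 : i' * (3 * m + 2) + 3 * m + 1 + 1 = (i' + 1) * (3 * m + 2) + 3 * 0 := by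
            rw [Nat.succ_mul i' (3 * m + 2)]
            omega
          rw [h3, vert_cl m A hi (by omega)]
          simp only [Ed.dst, wr]
          rw [if_neg (by omega)]
    · obtain ⟨d', rfl⟩ : ∃ d', d = d' + 1 := ⟨d - 1, by omega⟩
      have h2 : (Ed.wa i (d' + 1)).ix m = i * (3 * m + 2) + 3 * d' + 2 := by
        simp only [Ed.ix]
        rw [if_neg (by omega)]
        omega
      rw [h2]
      refine aux _ _ _ ?_ ?_ ?_
      · simp only [NN]
        omega
      · rw [vert_cr m A hi (by omega)]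
        simp only [Ed.src, wl]
        rw [if_neg (by omega), Nat.add_sub_cancel]
      · have h3 : i * (3 * m + 2) + 3 * d' + 2 + 1 = i * (3 * m + 2) + 3 * (d' + 1) := by omega
        rw [h3]
        simp only [Ed.dst, wr]
        by_cases h4 : d' + 1 = m
        · rw [if_pos h4, h4, vert_BB m A hi]
        · rw [if_neg h4, vert_cl m A hi (by omega)]
  | nd i =>
    have hi : i < m := hE
    have h0 := row_le hi
    refine aux _ _ _ ?_ (vert_BB m A hi) (vert_uu m A hi)
    simp only [Ed.ix, NN]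
    omega
  | sR =>
    obtain ⟨m', rfl⟩ : ∃ m', m = m' + 1 := ⟨m - 1, by omega⟩
    have h1 : (Ed.sR).ix (m' + 1) = m' * (3 * (m' + 1) + 2) + 3 * (m' + 1) + 1 := by
      simp only [Ed.ix]
      rw [Nat.succ_mul]
      omega
    have h2 : (m' + 1) * (3 * (m' + 1) + 2) = m' * (3 * (m' + 1) + 2) + 3 * (m' + 1) + 1 + 1 := by
      rw [Nat.succ_mul]
      omega
    rw [h1]
    refine aux _ _ _ ?_ ?_ ?_
    · simp only [NN]
      omega
    · exact vert_uu (m' + 1) A (by omega)
    · rw [← h2]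
      exact vert_RR _ A
  | sz =>
    refine aux _ _ _ ?_ (vert_RR m A) (vert_zz m A)
    simp only [Ed.ix, NN]
    omega
  | sq =>
    refine aux _ _ _ ?_ (vert_zz m A) (vert_qq m A)
    simp only [Ed.ix, NN]
    omega
  | sa =>
    refine aux _ _ _ ?_ (vert_qq m A) (vert_aa m A)
    simp only [Ed.ix, NN]
    omega
  | s0 =>
    refine aux _ _ _ ?_ (vert_aa m A) (vert_u0 m A)
    simp only [Ed.ix, NN]
    omega

private theorem poly_succ (m : ℕ) (A : ℕ → ℕ → Bool) (k : Fin (NN m)) :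
    poly m A (k + 1) = vert m A (((k : ℕ) + 1) % NN m) := by
  unfold poly
  have h : ((1 : Fin (NN m)) : ℕ) = 1 := by
    rw [Fin.val_one', Nat.mod_eq_of_lt]
    simp only [NN]
    omega
  rw [Fin.val_add, h]

theorem ed_side (m : ℕ) (hm : 1 ≤ m) (A : ℕ → ℕ → Bool) (E : Ed) (hE : E.Valid m) :
    ∃ k : Fin (NN m), E.ix m = k ∧ poly m A k = E.src m A ∧ poly m A (k + 1) = E.dst m A := by
  obtain ⟨h1, h2, h3⟩ := ed_main m hm A E hE
  refine ⟨⟨E.ix m, h1⟩, rfl, h2, ?_⟩
  rw [poly_succ]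
  exact h3

/-- Every side number is the number of a valid `E`, with the right end points.
PROOF. `poly m A (k + 1)` is `vert m A (k + 1)` unless `k = NN m - 1` (then it is `vert m A 0`). Cases `ix_cases`. `k` of the form
`i (3 m + 2) + 3 e + 2`: `E = wa i (e + 1)` (if `e + 1 = m` the next vertex is `BB i`, otherwise `cl m i (e + 1)`).
`k = i (3 m + 2) + 3 m + 1`: `E = wa (i + 1) 0` if `i + 1 < m`, otherwise `E = sR`. `k = NN m - 1`: `E = wa 0 0` (`1 ≤ m`). -/
theorem side_ed (m : ℕ) (hm : 1 ≤ m) (A : ℕ → ℕ → Bool) (k : Fin (NN m)) :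
    ∃ E : Ed, E.Valid m ∧ E.ix m = k ∧ poly m A k = E.src m A ∧ poly m A (k + 1) = E.dst m A := by
  have key : ∃ E : Ed, E.Valid m ∧ E.ix m = k := by
    rcases ix_cases m k k.2 with ⟨i, e, hi, he, h⟩ | ⟨i, e, hi, he, h⟩ | ⟨i, e, hi, he, h⟩ |
      ⟨i, hi, h⟩ | ⟨i, hi, h⟩ | h | h | h | h | h
    · exact ⟨.sl i e, ⟨hi, he⟩, h.symm⟩
    · exact ⟨.sr i e, ⟨hi, he⟩, h.symm⟩
    · refine ⟨.wa i (e + 1), ⟨hi, by omega⟩, ?_⟩
      rw [h]
      simp only [Ed.ix]
      rw [if_neg (by omega)]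
      omega
    · exact ⟨.nd i, hi, h.symm⟩
    · by_cases h1 : i + 1 < m
      · refine ⟨.wa (i + 1) 0, ⟨h1, by omega⟩, ?_⟩
        rw [h]
        simp only [Ed.ix, if_true]
        rw [if_neg (by omega), Nat.succ_mul]
        omega
      · obtain rfl : m = i + 1 := by omega
        refine ⟨.sR, trivial, ?_⟩
        rw [h]
        simp only [Ed.ix]
        rw [Nat.succ_mul]
        omega
    · exact ⟨.sz, trivial, h.symm⟩
    · exact ⟨.sq, trivial, h.symm⟩
    · exact ⟨.sa, trivial, h.symm⟩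
    · exact ⟨.s0, trivial, h.symm⟩
    · exact ⟨.wa 0 0, ⟨by omega, by omega⟩, h.symm⟩
  obtain ⟨E, hE, hk⟩ := key
  obtain ⟨k', h1, h2, h3⟩ := ed_side m hm A E hE
  have hkk : k' = k := Fin.ext (h1.symm.trans hk)
  subst hkk
  exact ⟨E, hE, hk, h2, h3⟩

/-- From the two previous theorems. -/
theorem mem_curve (m : ℕ) (hm : 1 ≤ m) (A : ℕ → ℕ → Bool) (p : ℝ × ℝ) :
    p ∈ curve (poly m A) ↔ ∃ E : Ed, E.Valid m ∧ p ∈ segment ℝ (E.src m A) (E.dst m A) := by
  constructor
  · intro h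
    unfold curve at h
    rw [Set.mem_iUnion] at h
    obtain ⟨k, hk⟩ := h
    obtain ⟨E, h1, -, h2, h3⟩ := side_ed m hm A k
    refine ⟨E, h1, ?_⟩
    unfold side at hk
    rwa [h2, h3] at hk
  · rintro ⟨E, hE, hp⟩
    obtain ⟨k, -, h2, h3⟩ := ed_side m hm A E hE
    unfold curve
    rw [Set.mem_iUnion]
    refine ⟨k, ?_⟩
    unfold side
    rwa [h2, h3]

end VisDom
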