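import Pool.Agent.Lib_MP_d1a796.Comb

/-!
# Fractional domination
-/

set_option autoImplicit false

namespace VisDom

open Classical in
/-- `w` is a feasible solution of the linear relaxation of the dominating set problem for `G`: the values are nonnegative
and every closed neighbourhood has total value at least one. -/
def IsFracDom {n : ℕ} (G : SimpleGraph (Fin n)) (w : Fin n → ℝ) : Prop :=
  (∀ x, 0 ≤ w x) ∧ ∀ x, 1 ≤ ∑ y ∈ Finset.univ.filter (fun y => y = x ∨ G.Adj x y), w y

open Classical in
/-- Value one at `zz`, one half at the points `uu (i + 1)`. -/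
private noncomputable def wt (m : ℕ) (y : Fin (NN m)) : ℝ :=
  if y = zv m then 1 else if y ∈ Finset.univ.image (uv m) then 1 / 2 else 0

private theorem wt_nonneg (m : ℕ) (y : Fin (NN m)) : 0 ≤ wt m y := by
  unfold wt
  split_ifs <;> norm_num

private theorem uv_inj' (m : ℕ) : Function.Injective (uv m) := by
  intro i j h
  have h1 : i.val * (3 * m + 2) + 3 * m + 1 = j.val * (3 * m + 2) + 3 * m + 1 := congrArg Fin.val h
  have h2 : i.val * (3 * m + 2) = j.val * (3 * m + 2) := by omega
  exact Fin.ext (Nat.eq_of_mul_eq_mul_right (by omega) h2)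

private theorem zv_ne_uv (m : ℕ) (i : Fin m) : uv m i ≠ zv m := by
  intro h
  have h1 : i.val * (3 * m + 2) + 3 * m + 1 = m * (3 * m + 2) + 1 := congrArg Fin.val h
  have h2 : (i.val + 1) * (3 * m + 2) ≤ m * (3 * m + 2) := Nat.mul_le_mul_right _ i.isLt
  nlinarith

private theorem wt_zv (m : ℕ) : wt m (zv m) = 1 := by
  unfold wt
  rw [if_pos rfl]

private theorem wt_uv (m : ℕ) (i : Fin m) : wt m (uv m i) = 1 / 2 := by
  unfold wt
  rw [if_neg (zv_ne_uv m i), if_pos (Finset.mem_image_of_mem _ (Finset.mem_univ _))]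

private theorem wt_sum (m : ℕ) : ∑ y, wt m y = (m : ℝ) / 2 + 1 := by
  classical
  have h1 : ∀ y, wt m y = (if y = zv m then 1 else 0) + (if y ∈ Finset.univ.image (uv m) then 1 / 2 else 0) := by
    intro y
    unfold wt
    by_cases hy : y = zv m
    · have : y ∉ Finset.univ.image (uv m) := by
        intro h
        obtain ⟨i, -, h2⟩ := Finset.mem_image.1 h
        exact zv_ne_uv m i (h2.trans hy)
      rw [if_pos hy, if_pos hy, if_neg this, add_zero]
    · rw [if_neg hy, if_neg hy, zero_add]
  rw [Finset.sum_congr rfl (fun y _ => h1 y), Finset.sum_add_distrib, Finset.sum_ite_eq' Finset.univ (zv m),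
    if_pos (Finset.mem_univ _), ← Finset.sum_filter, Finset.filter_mem_eq_inter, Finset.univ_inter,
    Finset.sum_const, Finset.card_image_of_injective _ (uv_inj' m), Finset.card_univ, Fintype.card_fin, nsmul_eq_mul]
  ring

/-- For every graph `H` on `m` vertices the polygon of `H` has a fractional dominating function of value `m / 2 + 1`. -/
theorem frac_dom {m : ℕ} (hm : 1 ≤ m) (H : SimpleGraph (Fin m)) :
    ∃ w : Fin (NN m) → ℝ, IsFracDom (visGraph (polygon H)) w ∧ ∑ y, w y = (m : ℝ) / 2 + 1 := by
  classical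
  refine ⟨wt m, ⟨wt_nonneg m, ?_⟩, wt_sum m⟩
  intro x
  by_cases ht : ∀ i e, i < m → e < m → sl m (adjFn H) i e = true → x.val ≠ kcl m i e + 1
  · have hz : zv m ∈ Finset.univ.filter (fun y => y = x ∨ (visGraph (polygon H)).Adj x y) := by
      rw [Finset.mem_filter]
      refine ⟨Finset.mem_univ _, ?_⟩
      by_cases hxz : x.val = m * (3 * m + 2) + 1
      · left
        exact Fin.ext hxz.symm
      · right
        exact (adj_zz m hm (adjFn H) x.val x.isLt hxz ht).symm
    have := Finset.single_le_sum (f := wt m) (fun y _ => wt_nonneg m y) hz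
    rwa [wt_zv] at this
  · push Not at ht
    obtain ⟨i, e, hi, he, hb, hx'⟩ := ht
    obtain ⟨h1, h2⟩ := adj_tip m hm (adjFn H) hi he hb
    obtain ⟨hi', hj, hadj⟩ := sl_adjFn H hb
    have hxe : x = ⟨kcl m i e + 1, by have := kcl_lt hi he; omega⟩ := Fin.ext hx'
    have hne : uv m ⟨i, hi⟩ ≠ uv m ⟨i + e + 1, hj⟩ := by
      intro h
      have := congrArg Fin.val (uv_inj' m h)
      simp only at this
      omega
    have hsub : ({uv m ⟨i, hi⟩, uv m ⟨i + e + 1, hj⟩} : Finset (Fin (NN m))) ⊆
        Finset.univ.filter (fun y => y = x ∨ (visGraph (polygon H)).Adj x y) := by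
      intro y hy
      rw [Finset.mem_filter]
      refine ⟨Finset.mem_univ _, Or.inr ?_⟩
      rw [Finset.mem_insert, Finset.mem_singleton] at hy
      rw [hxe]
      rcases hy with rfl | rfl
      · exact h1
      · exact h2 hj
    have := Finset.sum_le_sum_of_subset_of_nonneg (f := wt m) hsub (fun y _ _ => wt_nonneg m y)
    rw [Finset.sum_pair hne, wt_uv, wt_uv] at this
    linarith

/-- The vertex cover number of the complete graph. -/
theorem tau_top {m : ℕ} (hm : 1 ≤ m) : tau (⊤ : SimpleGraph (Fin m)) + 1 = m := by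
  classical
  have hle : tau (⊤ : SimpleGraph (Fin m)) ≤ m - 1 := by
    have : IsCov (⊤ : SimpleGraph (Fin m)) (Finset.univ.erase (⟨0, hm⟩ : Fin m)) := by
      intro i j h
      by_cases hi : i = ⟨0, hm⟩
      · right
        refine Finset.mem_erase.2 ⟨?_, Finset.mem_univ _⟩
        rintro rfl
        exact h.ne hi
      · left
        exact Finset.mem_erase.2 ⟨hi, Finset.mem_univ _⟩
    refine Nat.sInf_le ⟨_, this, ?_⟩
    rw [Finset.card_erase_of_mem (Finset.mem_univ _), Finset.card_univ, Fintype.card_fin]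
  have hcov : {k | ∃ C : Finset (Fin m), IsCov (⊤ : SimpleGraph (Fin m)) C ∧ C.card = k}.Nonempty :=
    ⟨_, Finset.univ, fun i _ _ => Or.inl (Finset.mem_univ i), rfl⟩
  obtain ⟨C, hC, hCc⟩ := Nat.sInf_mem hcov
  have hC' : C.card = tau (⊤ : SimpleGraph (Fin m)) := hCc
  have hcompl : (Finset.univ \ C).card ≤ 1 := by
    rw [Finset.card_le_one]
    intro a ha b hb
    by_contra hab
    rcases hC a b hab with h | h
    · exact (Finset.mem_sdiff.1 ha).2 h
    · exact (Finset.mem_sdiff.1 hb).2 h
  have := Finset.card_sdiff_add_card_inter (Finset.univ : Finset (Fin m)) C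
  rw [Finset.univ_inter, Finset.card_univ, Fintype.card_fin] at this
  omega

/-- The linear relaxation has integrality gap at least `m / (m / 2 + 1)`. -/
theorem frac_gap {m : ℕ} (hm : 1 ≤ m) : gam (visGraph (polygon (⊤ : SimpleGraph (Fin m)))) = m := by
  rw [gam_eq hm, tau_top hm]

end VisDom
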