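import Pool.Agent.Lib_MP_d1a796.DescDef

/-!
# The points of a wall
-/

set_option autoImplicit false

namespace VisDom

/-- PIECE [VD-F3] (80 lines). The wall of room `i`: a point `p` of the line `dep i p = 0`, `i ≤ p.1 ≤ i + 1`, is on one of the pieces `wa i d` or in an open opening.
PROOF. If `p.1 < xo i 0 - ε`... Take the largest `e < m` with `xo i e - ε ≤ p.1` (if there is none: `d = 0`); if `p.1 ≥ xo i e + ε`: `d = e + 1`,
because `p.1 < xo i (e + 1) - ε` (or `e + 1 = m`); if `p.1 = xo i e - ε`: `d = e`; otherwise the second case. -/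
theorem wall_cases (m : ℕ) (hm : 1 ≤ m) (A : ℕ → ℕ → Bool) {i : ℕ} (hi : i < m) (p : ℝ × ℝ) (hp : dep i p = 0)
    (h1 : (i : ℝ) ≤ p.1) (h2 : p.1 ≤ i + 1) :
    (∃ d, d ≤ m ∧ (Ed.wa i d).Desc m A p) ∨
    (∃ e, e < m ∧ xo i e - ep m < p.1 ∧ p.1 < xo i e + ep m) := by
  classical
  have _ := hm
  have _ := hi
  have hex : ∃ d, d ≤ m ∧ p.1 ≤ (wr m i d).1 := by
    refine ⟨m, le_rfl, ?_⟩
    unfold wr
    rw [if_pos rfl]
    exact h2
  obtain ⟨hdm, hd⟩ := Nat.find_spec hex
  set d := Nat.find hex with hdd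
  rcases Nat.eq_zero_or_pos d with h0 | h0
  · left
    refine ⟨d, hdm, hp, ?_, hd⟩
    unfold wl
    rw [if_pos h0]
    exact h1
  · have hlt : d - 1 < m := by omega
    have hmin := Nat.find_min hex (m := d - 1) (by omega)
    have hgt : xo i (d - 1) - ep m < p.1 := by
      by_contra hc
      push Not at hc
      apply hmin
      refine ⟨hlt.le, ?_⟩
      unfold wr
      rw [if_neg hlt.ne]
      exact hc
    rcases lt_or_ge p.1 (xo i (d - 1) + ep m) with h | h
    · right
      exact ⟨d - 1, hlt, hgt, h⟩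
    · left
      refine ⟨d, hdm, hp, ?_, hd⟩
      unfold wl
      rw [if_neg h0.ne']
      exact h

end VisDom
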