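import Pool.Agent.Lib_MP_d1a796.Defs

/-!
# The region of a polygon: two general lemmas
-/

set_option autoImplicit false

namespace VisDom

open Set

/-- PIECE [VD-T1] (60 lines). PROOF. `p ∈ K`. If `p` is on the curve: done. Otherwise let `C = connectedComponentIn (curve P)ᶜ p`. `C` is preconnected,
`C ⊆ interior K ∪ Kᶜ` (a point of `C ∩ K` is not on the curve, so it is interior by `hK`), both sets are open and disjoint, and `p ∈ C ∩ interior K`.
So `C ⊆ interior K` (`IsPreconnected.subset_left_of_subset_union`), which is bounded. -/
theorem subset_region {n : ℕ} [NeZero n] (P : Fin n → ℝ × ℝ) (K : Set (ℝ × ℝ)) (hc : IsClosed K)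
    (hb : Bornology.IsBounded K) (hK : ∀ p ∈ K, p ∉ curve P → K ∈ nhds p) : K ⊆ region P := by
  intro p hp
  by_cases hpc : p ∈ curve P
  · exact Or.inl hpc
  · right
    have hC : IsPreconnected (connectedComponentIn (curve P)ᶜ p) := isPreconnected_connectedComponentIn
    have hsub : connectedComponentIn (curve P)ᶜ p ⊆ (curve P)ᶜ := connectedComponentIn_subset _ _
    have hcov : connectedComponentIn (curve P)ᶜ p ⊆ interior K ∪ Kᶜ := by
      intro x hx
      by_cases hxK : x ∈ K
      · exact Or.inl (mem_interior_iff_mem_nhds.mpr (hK x hxK (hsub hx)))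
      · exact Or.inr hxK
    have hdis : Disjoint (interior K) Kᶜ := by
      rw [Set.disjoint_left]
      intro x hx hx'
      exact hx' (interior_subset hx)
    have hne : (connectedComponentIn (curve P)ᶜ p ∩ interior K).Nonempty :=
      ⟨p, mem_connectedComponentIn hpc, mem_interior_iff_mem_nhds.mpr (hK p hp hpc)⟩
    have h1 : connectedComponentIn (curve P)ᶜ p ⊆ interior K :=
      hC.subset_left_of_subset_union isOpen_interior hc.isOpen_compl hdis hcov hne
    exact hb.subset (h1.trans interior_subset)

/-- (same piece) A point which is joined to infinity by a connected set off the curve is not in the region.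
(`IsPreconnected.subset_connectedComponentIn`.) -/
theorem not_region {n : ℕ} [NeZero n] (P : Fin n → ℝ × ℝ) (S : Set (ℝ × ℝ)) (hS : IsPreconnected S)
    (hd : ∀ x ∈ S, x ∉ curve P) (hu : ¬ Bornology.IsBounded S) (p : ℝ × ℝ) (hp : p ∈ S) : p ∉ region P := by
  rintro (h | h)
  · exact hd p hp h
  · exact hu (h.subset (hS.subset_connectedComponentIn hp fun x hx => hd x hx))

end VisDom
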