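import Pool.Agent.Lib_MP_d1a796.FrontB
import Pool.Agent.Lib_MP_d1a796.FrontC
import Pool.Agent.Lib_MP_d1a796.TopoA

/-!
# The boundary of `KK` is the curve
-/

set_option autoImplicit false

namespace VisDom

private theorem ev_lt {f g : ℝ × ℝ → ℝ} (hf : Continuous f) (hg : Continuous g) {p : ℝ × ℝ} (h : f p < g p) :
    ∀ᶠ q in nhds p, f q < g q := hf.continuousAt.eventually_lt hg.continuousAt h

private theorem cont_W (i : ℕ) : Continuous (fun q : ℝ × ℝ => W i q.1) := by
  unfold W
  fun_prop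

private theorem cont_dep (i : ℕ) : Continuous (dep i) := by
  unfold dep W
  fun_prop

private theorem off_desc {m : ℕ} (hm : 1 ≤ m) {A : ℕ → ℕ → Bool} {p : ℝ × ℝ} (hc : p ∉ curve (poly m A)) :
    ∀ E : Ed, E.Valid m → ¬ E.Desc m A p :=
  fun E hE h => hc ((mem_curve m hm A p).mpr ⟨E, hE, (desc_iff m hm A E hE p).mpr h⟩)

private theorem msq_lt (m : ℕ) : (m : ℝ) ^ 2 < Yt m - 1 := by
  have h := Yt_big m
  have hm : (0 : ℝ) ≤ m := Nat.cast_nonneg m
  nlinarith

private theorem nhds_tri {m : ℕ} (hm : 1 ≤ m) (A : ℕ → ℕ → Bool) {i e : ℕ} (hi : i < m) (he : e < m) {p : ℝ × ℝ}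
    (hp : p ∈ tri m (sl m A i e) i e) (hc : p ∉ curve (poly m A)) : KK m A ∈ nhds p := by
  have hd := off_desc hm hc
  obtain ⟨z1, z2, z3⟩ := tri_zone he hp
  obtain ⟨h0, h1, h2⟩ := hp
  have s1 : hh m (sl m A i e) e * (p.1 - xo i e - ka (sl m A i e) e * dep i p) <
      ep m * (hh m (sl m A i e) e - dep i p) := by
    refine lt_of_le_of_ne h1 fun h => hd (.sr i e) ⟨hi, he⟩ ⟨h0, z3, h⟩
  have s2 : -(hh m (sl m A i e) e * (p.1 - xo i e - ka (sl m A i e) e * dep i p)) <
      ep m * (hh m (sl m A i e) e - dep i p) := by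
    refine lt_of_le_of_ne h2 fun h => hd (.sl i e) ⟨hi, he⟩ ⟨h0, z3, ?_⟩
    linarith
  have hdc := cont_dep i
  have t1 := ev_lt (f := fun q : ℝ × ℝ => hh m (sl m A i e) e * (q.1 - xo i e - ka (sl m A i e) e * dep i q))
    (g := fun q => ep m * (hh m (sl m A i e) e - dep i q)) (by fun_prop) (by fun_prop) s1
  have t2 := ev_lt (f := fun q : ℝ × ℝ => -(hh m (sl m A i e) e * (q.1 - xo i e - ka (sl m A i e) e * dep i q)))
    (g := fun q => ep m * (hh m (sl m A i e) e - dep i q)) (by fun_prop) (by fun_prop) s2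
  rcases h0.lt_or_eq with h3 | h3
  · have t3 := ev_lt (f := fun _ : ℝ × ℝ => (0 : ℝ)) (g := dep i) continuous_const hdc h3
    filter_upwards [t1, t2, t3] with q q1 q2 q3
    exact tri_sub hi he A ⟨q3.le, q1.le, q2.le⟩
  · have hi' : (i : ℝ) + 1 ≤ m := by exact_mod_cast hi
    have hi0 : (0 : ℝ) ≤ i := Nat.cast_nonneg i
    have hm0 : (0 : ℝ) ≤ m := Nat.cast_nonneg m
    have a1 : (i : ℝ) < p.1 := by linarith [zL_lower i e]
    have a2 : p.1 < i + 1 := by linarith [xo_upper (m := m) i he]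
    have a3 : p.2 < Yt m := by
      have := msq_lt m
      unfold dep W at h3
      nlinarith
    have t3 := ev_lt (f := fun _ : ℝ × ℝ => (i : ℝ)) (g := fun q => q.1) continuous_const continuous_fst a1
    have t4 := ev_lt (f := fun q : ℝ × ℝ => q.1) (g := fun _ => (i : ℝ) + 1) continuous_fst continuous_const a2
    have t5 := ev_lt (f := fun q : ℝ × ℝ => q.2) (g := fun _ => Yt m) continuous_snd continuous_const a3
    filter_upwards [t1, t2, t3, t4, t5] with q q1 q2 q3 q4 q5
    rcases le_or_gt 0 (dep i q) with h | h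
    · exact tri_sub hi he A ⟨h, q1.le, q2.le⟩
    · refine col_sub hi A ⟨q3.le, q4.le, ?_, q5.le⟩
      unfold dep at h
      linarith

private theorem nhds_node {m : ℕ} (A : ℕ → ℕ → Bool) {j : ℕ} (hj : j + 1 < m) {p : ℝ × ℝ} (h1 : p.1 = (j : ℝ) + 1)
    (h2 : ((j : ℝ) + 1) ^ 2 < p.2) (h3 : p.2 < Yt m) : KK m A ∈ nhds p := by
  have t1 := ev_lt (f := fun _ : ℝ × ℝ => (j : ℝ)) (g := fun q => q.1) (p := p) continuous_const continuous_fst
    (by linarith)
  have t2 := ev_lt (f := fun q : ℝ × ℝ => q.1) (g := fun _ => (j : ℝ) + 2) (p := p) continuous_fst continuous_const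
    (by linarith)
  have t3 := ev_lt (f := fun q : ℝ × ℝ => q.2) (g := fun _ => Yt m) (p := p) continuous_snd continuous_const h3
  have t4 := ev_lt (f := fun q : ℝ × ℝ => W j q.1) (g := fun q => q.2) (p := p) (cont_W j) continuous_snd
    (by unfold W; rw [h1]; nlinarith)
  have t5 := ev_lt (f := fun q : ℝ × ℝ => W (j + 1) q.1) (g := fun q => q.2) (p := p) (cont_W (j + 1)) continuous_snd
    (by unfold W; rw [h1]; push_cast; nlinarith)
  filter_upwards [t1, t2, t3, t4, t5] with q q1 q2 q3 q4 q5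
  rcases le_or_gt q.1 ((j : ℝ) + 1) with h | h
  · exact col_sub (by omega) A ⟨q1.le, h, q4.le, q3.le⟩
  · refine col_sub hj A ⟨?_, ?_, q5.le, q3.le⟩
    · push_cast
      exact h.le
    · push_cast
      linarith

private theorem nhds_zero {m : ℕ} (hm : 1 ≤ m) (A : ℕ → ℕ → Bool) {p : ℝ × ℝ} (h1 : p.1 = 0)
    (h2 : Yt m - 1 < p.2) (h3 : p.2 < Yt m) : KK m A ∈ nhds p := by
  have hY := msq_lt m
  have t1 := ev_lt (f := fun q : ℝ × ℝ => Yt m - 1 - 2 * q.1) (g := fun q => q.2) (p := p) (by fun_prop) continuous_snd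
    (by rw [h1]; linarith)
  have t2 := ev_lt (f := fun q : ℝ × ℝ => q.1) (g := fun _ => (1 : ℝ)) (p := p) continuous_fst continuous_const
    (by linarith)
  have t3 := ev_lt (f := fun q : ℝ × ℝ => q.2) (g := fun _ => Yt m) (p := p) continuous_snd continuous_const h3
  have t4 := ev_lt (f := fun q : ℝ × ℝ => q.2) (g := fun q => Yt m - q.1) (p := p) continuous_snd (by fun_prop)
    (by rw [h1]; linarith)
  have t5 := ev_lt (f := fun q : ℝ × ℝ => W 0 q.1) (g := fun q => q.2) (p := p) (cont_W 0) continuous_snd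
    (by unfold W; rw [h1]; push_cast; nlinarith)
  filter_upwards [t1, t2, t3, t4, t5] with q q1 q2 q3 q4 q5
  rcases le_or_gt q.1 0 with h | h
  · exact ear_sub m A ⟨h, q4.le, q1.le⟩
  · refine col_sub (i := 0) (by omega) A ⟨?_, ?_, q5.le, q3.le⟩
    · push_cast
      exact h.le
    · push_cast
      linarith

private theorem nhds_col {m : ℕ} (hm : 1 ≤ m) (A : ℕ → ℕ → Bool) {i : ℕ} (hi : i < m) {p : ℝ × ℝ}
    (hp : p ∈ col m i) (hc : p ∉ curve (poly m A)) : KK m A ∈ nhds p := by
  have hd := off_desc hm hc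
  obtain ⟨h1, h2, h3, h4⟩ := hp
  have hi' : (i : ℝ) + 1 ≤ m := by exact_mod_cast hi
  have hi0 : (0 : ℝ) ≤ i := Nat.cast_nonneg i
  have hY := msq_lt m
  have h5 : p.2 < Yt m := by
    refine lt_of_le_of_ne h4 fun h => hd .sz trivial ⟨h, by linarith, by linarith⟩
  rcases h3.lt_or_eq with h6 | h6
  · rcases h1.lt_or_eq with h7 | h7
    · rcases h2.lt_or_eq with h8 | h8
      · -- interior of the column
        have t1 := ev_lt (f := fun _ : ℝ × ℝ => (i : ℝ)) (g := fun q => q.1) continuous_const continuous_fst h7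
        have t2 := ev_lt (f := fun q : ℝ × ℝ => q.1) (g := fun _ => (i : ℝ) + 1) continuous_fst continuous_const h8
        have t3 := ev_lt (f := fun q : ℝ × ℝ => W i q.1) (g := fun q => q.2) (cont_W i) continuous_snd h6
        have t4 := ev_lt (f := fun q : ℝ × ℝ => q.2) (g := fun _ => Yt m) continuous_snd continuous_const h5
        filter_upwards [t1, t2, t3, t4] with q q1 q2 q3 q4
        exact col_sub hi A ⟨q1.le, q2.le, q3.le, q4.le⟩
      · -- the right side of the column
        have h9 : ((i : ℝ) + 1) ^ 2 < p.2 := by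
          by_contra h
          push Not at h
          refine hd (.nd i) hi ⟨h8, ?_, h⟩
          unfold W at h6
          rw [h8] at h6
          nlinarith
        rcases (Nat.succ_le_of_lt hi).lt_or_eq with h10 | h10
        · exact nhds_node A h10 h8 h9 h5
        · exfalso
          have h11 : (i : ℝ) + 1 = m := by exact_mod_cast h10
          refine hd .sR trivial ⟨by rw [h8, h11], ?_, h4⟩
          rw [← h11]
          exact h9.le
    · -- the left side
      rcases Nat.eq_zero_or_pos i with h8 | h8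
      · subst h8
        push_cast at h7
        refine nhds_zero hm A h7.symm ?_ h5
        by_contra h
        push Not at h
        refine hd .s0 trivial ⟨h7.symm, ?_, h⟩
        unfold W at h6
        push_cast at h6
        nlinarith
      · obtain ⟨j, rfl⟩ : ∃ j, i = j + 1 := ⟨i - 1, by omega⟩
        push_cast at h7 hi' hi0
        refine nhds_node A hi h7.symm ?_ h5
        unfold W at h6
        rw [← h7] at h6
        push_cast at h6
        nlinarith
  · -- on the wall
    have h7 : dep i p = 0 := by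
      unfold dep
      linarith
    rcases wall_cases m hm A hi p h7 h1 h2 with ⟨d, hdm, h8⟩ | ⟨e, he, h8, h9⟩
    · exact absurd h8 (hd (.wa i d) ⟨hi, hdm⟩)
    · have hh0 := hh_pos m (sl m A i e) e
      refine nhds_tri hm A hi he ⟨h7.ge, ?_, ?_⟩ hc
      · rw [h7]
        nlinarith
      · rw [h7]
        nlinarith

private theorem nhds_ear {m : ℕ} (hm : 1 ≤ m) (A : ℕ → ℕ → Bool) {p : ℝ × ℝ}
    (hp : p ∈ ear m) (hc : p ∉ curve (poly m A)) : KK m A ∈ nhds p := by
  have hd := off_desc hm hc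
  have hl := KK_left m A p (ear_sub m A hp)
  obtain ⟨h1, h2, h3⟩ := hp
  have h4 : p.2 < Yt m - p.1 := lt_of_le_of_ne h2 fun h => hd .sq trivial ⟨h, hl, h1⟩
  have h5 : Yt m - 1 - 2 * p.1 < p.2 := lt_of_le_of_ne h3 fun h => hd .sa trivial ⟨h.symm, hl, h1⟩
  rcases h1.lt_or_eq with h6 | h6
  · have t1 := ev_lt (f := fun q : ℝ × ℝ => q.1) (g := fun _ => (0 : ℝ)) continuous_fst continuous_const h6
    have t2 := ev_lt (f := fun q : ℝ × ℝ => q.2) (g := fun q => Yt m - q.1) continuous_snd (by fun_prop) h4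
    have t3 := ev_lt (f := fun q : ℝ × ℝ => Yt m - 1 - 2 * q.1) (g := fun q => q.2) (by fun_prop) continuous_snd h5
    filter_upwards [t1, t2, t3] with q q1 q2 q3
    exact ear_sub m A ⟨q1.le, q2.le, q3.le⟩
  · rw [h6] at h4 h5
    exact nhds_zero hm A h6 (by linarith) (by linarith)

/-- PIECE [VD-F4] (180 lines). PROOF. Let `p ∈ KK`, not on the curve (`mem_curve`, `desc_iff`).
(a) `p` in the triangle of slot `(i, e)`: the two slanted inequalities are strict (otherwise `p` is on the side `sl i e` or `sr i e`; `dep ≤ hh` by `tri_zone`).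
If `dep i p > 0`: all inequalities are strict and the triangle is a neighbourhood (continuity). If `dep i p = 0`: near `p` the two slanted inequalities are strict,
`i < x < i + 1` (`slot`: `zL_lower`, `xo_upper`), `y < Yt m`; a point `q` near `p` is in the triangle if `dep i q ≥ 0` and in `col m i` if `dep i q ≤ 0`.
(b) `p ∈ col m i`: `p.2 < Yt m` (otherwise `sz`). If `p.2 = W i p.1`, i.e. `dep i p = 0`: `wall_cases`: not a piece of the wall, so in an open opening, so `p` is in the triangle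
of a slot (`dep = 0`, `|p.1 - xo| < ε`), case (a). So `p.2 > W i p.1`. If `i < p.1 < i + 1`: `col m i` is a neighbourhood. If `p.1 = i + 1`: if `i + 1 = m`: `p` is on `nd i` or `sR`, impossible; if `i + 1 < m`:
`p.2 > (i + 1) ^ 2` (otherwise on `nd i`) and near `p` every point is in `col m i` or in `col m (i + 1)` (`W (i+1) (i+1) = (i+1)^2`). If `p.1 = i`: if `i = 0`: `p.1 = 0`, `0 < p.2 < Yt m`; `p.2 > Yt m - 1`
(otherwise `s0`), near `p` every point is in `col m 0` (if `x ≥ 0`) or in `ear m` (if `x ≤ 0`: `Yt m - 1 < p.2 < Yt m`, strict). If `i > 0`: `p.2 > W i i = i ^ 2`, the same with `col m (i - 1)` and `col m i`.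
(c) `p ∈ ear m`: `p.2 < Yt m - p.1` and `p.2 > Yt m - 1 - 2 p.1` (otherwise `sq`, `sa`; `-1 ≤ p.1`); if `p.1 < 0`: interior; if `p.1 = 0`: `Yt m - 1 < p.2 < Yt m`, as in (b). -/
theorem KK_nhds (m : ℕ) (hm : 1 ≤ m) (A : ℕ → ℕ → Bool) (p : ℝ × ℝ) (hp : p ∈ KK m A)
    (hc : p ∉ curve (poly m A)) : KK m A ∈ nhds p := by
  rcases hp with (hp | hp) | hp
  · simp only [Set.mem_iUnion, Finset.mem_range] at hp
    obtain ⟨i, hi, hp⟩ := hp
    exact nhds_col hm A hi hp hc
  · simp only [Set.mem_iUnion, Finset.mem_range] at hp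
    obtain ⟨i, hi, e, he, hp⟩ := hp
    exact nhds_tri hm A hi he hp hc
  · exact nhds_ear hm A hp hc

theorem KK_sub_region (m : ℕ) (hm : 1 ≤ m) (A : ℕ → ℕ → Bool) : KK m A ⊆ region (poly m A) :=
  subset_region _ _ (KK_closed m A) (KK_bounded m A) (fun p hp hc => KK_nhds m hm A p hp hc)

end VisDom
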