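import Pool.Agent.Lib_MP_d1a796.Params

/-!
# The set `KK`: closed and bounded
-/

set_option autoImplicit false

namespace VisDom

theorem col_sub {m i : ℕ} (hi : i < m) (A : ℕ → ℕ → Bool) : col m i ⊆ KK m A := by
  intro p hp
  left; left
  simp only [Set.mem_iUnion, Finset.mem_range]
  exact ⟨i, hi, hp⟩

theorem tri_sub {m i e : ℕ} (hi : i < m) (he : e < m) (A : ℕ → ℕ → Bool) :
    tri m (sl m A i e) i e ⊆ KK m A := by
  intro p hp
  left; right
  simp only [Set.mem_iUnion, Finset.mem_range]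
  exact ⟨i, hi, e, he, hp⟩

theorem ear_sub (m : ℕ) (A : ℕ → ℕ → Bool) : ear m ⊆ KK m A := fun _ hp => Or.inr hp

private theorem col_closed (m i : ℕ) : IsClosed (col m i) := by
  unfold col W
  refine IsClosed.and (isClosed_le (by fun_prop) (by fun_prop)) (IsClosed.and
    (isClosed_le (by fun_prop) (by fun_prop)) (IsClosed.and (isClosed_le (by fun_prop) (by fun_prop))
    (isClosed_le (by fun_prop) (by fun_prop))))

private theorem tri_closed (m : ℕ) (b : Bool) (i e : ℕ) : IsClosed (tri m b i e) := by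
  unfold tri dep W
  refine IsClosed.and (isClosed_le (by fun_prop) (by fun_prop)) (IsClosed.and
    (isClosed_le (by fun_prop) (by fun_prop)) (isClosed_le (by fun_prop) (by fun_prop)))

private theorem ear_closed (m : ℕ) : IsClosed (ear m) := by
  unfold ear
  refine IsClosed.and (isClosed_le (by fun_prop) (by fun_prop)) (IsClosed.and
    (isClosed_le (by fun_prop) (by fun_prop)) (isClosed_le (by fun_prop) (by fun_prop)))

private theorem KK_box (m : ℕ) (A : ℕ → ℕ → Bool) (p : ℝ × ℝ) (hp : p ∈ KK m A) :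
    -1 ≤ p.1 ∧ p.1 ≤ m ∧ -1 ≤ p.2 ∧ p.2 ≤ Yt m + 1 := by
  have hY := Yt_big m
  have hm : (0 : ℝ) ≤ m := Nat.cast_nonneg m
  have hm2 : (m : ℝ) ^ 2 ≤ Yt m := by nlinarith
  rcases hp with (hp | hp) | hp
  · simp only [Set.mem_iUnion, Finset.mem_range] at hp
    obtain ⟨i, hi, h1, h2, h3, h4⟩ := hp
    have hi' : (i : ℝ) + 1 ≤ m := by exact_mod_cast hi
    have hi0 : (0 : ℝ) ≤ i := Nat.cast_nonneg i
    unfold W at h3
    refine ⟨by linarith, by linarith, ?_, by linarith⟩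
    have h5 : 0 ≤ (i : ℝ) * (p.1 - i) := mul_nonneg hi0 (by linarith)
    have h6 : 0 ≤ (i : ℝ) * i := mul_nonneg hi0 hi0
    nlinarith
  · simp only [Set.mem_iUnion, Finset.mem_range] at hp
    obtain ⟨i, hi, e, he, hp⟩ := hp
    have hi' : (i : ℝ) + 1 ≤ m := by exact_mod_cast hi
    have hi0 : (0 : ℝ) ≤ i := Nat.cast_nonneg i
    obtain ⟨h1, h2, h3⟩ := tri_zone he hp
    have h4 := hp.1
    have h5 := zL_lower i e
    have h6 := xo_upper i he
    have h7 := hh_le m (sl m A i e) e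
    unfold dep W at h3 h4
    have h8 : 0 ≤ (i : ℝ) * (p.1 - i) := mul_nonneg hi0 (by linarith)
    have h9 : 0 ≤ (i : ℝ) * i := mul_nonneg hi0 hi0
    have h10 : 0 ≤ (i : ℝ) * (i + 1 - p.1) := mul_nonneg hi0 (by linarith)
    refine ⟨by linarith, by linarith, by nlinarith, ?_⟩
    have h11 : ((i : ℝ) + 1) ^ 2 ≤ (m : ℝ) ^ 2 := by gcongr
    nlinarith
  · obtain ⟨h1, h2, h3⟩ := hp
    refine ⟨by linarith, by linarith, ?_, by linarith⟩
    nlinarith

/-- PIECE [VD-F1] (80 lines). Closed and bounded (`KK ⊆ [-1, m] × [-1, Yt m + 1]`: `W i x ≥ i ^ 2 ≥ 0` for `x ≥ i`; in a triangle `dep ≤ hh ≤ 1/5` (`tri_zone`);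
in `ear`: `-1 ≤ p.1`). -/
theorem KK_closed (m : ℕ) (A : ℕ → ℕ → Bool) : IsClosed (KK m A) := by
  unfold KK
  refine IsClosed.union (IsClosed.union ?_ ?_) (ear_closed m)
  · exact isClosed_biUnion_finset fun i _ => col_closed m i
  · exact isClosed_biUnion_finset fun i _ => isClosed_biUnion_finset fun e _ => tri_closed m _ i e

theorem KK_bounded (m : ℕ) (A : ℕ → ℕ → Bool) : Bornology.IsBounded (KK m A) := by
  refine (isCompact_Icc (a := ((-1, -1) : ℝ × ℝ)) (b := ((m : ℝ), Yt m + 1))).isBounded.subset ?_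
  intro p hp
  obtain ⟨h1, h2, h3, h4⟩ := KK_box m A p hp
  exact ⟨⟨h1, h3⟩, ⟨h2, h4⟩⟩

/-- (same piece) All points of `KK` have `p.1 ≥ -1`. -/
theorem KK_left (m : ℕ) (A : ℕ → ℕ → Bool) (p : ℝ × ℝ) (hp : p ∈ KK m A) : -1 ≤ p.1 :=
  (KK_box m A p hp).1

end VisDom
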