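import Pool.Agent.Lib_MP_d1a796.Desc
import Pool.Agent.Lib_MP_d1a796.FrontA

/-!
# The curve is contained in `KK`
-/

set_option autoImplicit false

namespace VisDom

/-- The walls stay below the top side. -/
private theorem W_le_Yt {m i : ℕ} (hi : i < m) {x : ℝ} (hx : x ≤ i + 1) : W i x ≤ Yt m := by
  have h1 := Yt_big m
  have hi' : (i : ℝ) + 1 ≤ m := by exact_mod_cast hi
  have hi0 : (0 : ℝ) ≤ i := Nat.cast_nonneg i
  unfold W
  have h2 : 2 * (i : ℝ) * x ≤ 2 * i * (i + 1) := mul_le_mul_of_nonneg_left hx (by positivity)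
  nlinarith

private theorem sq_le_Yt {m i : ℕ} (hi : i < m) : ((i : ℝ) + 1) ^ 2 ≤ Yt m := by
  have h1 := Yt_big m
  have hi' : (i : ℝ) + 1 ≤ m := by exact_mod_cast hi
  have hi0 : (0 : ℝ) ≤ i := Nat.cast_nonneg i
  nlinarith

/-- PIECE [VD-F2] (60 lines). Every side is in `KK` (`mem_curve`, `desc_iff`): `sl`, `sr` in the triangle (same inequalities), `wa i d` and `nd i` in `col m i`,
`sR` in `col m (m - 1)`, `sz` in some column (`i = ⌊p.1⌋`, or `m - 1` if `p.1 = m`), `sq`, `sa` in `ear m`, `s0` in `col m 0`. -/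
theorem curve_sub_KK (m : ℕ) (hm : 1 ≤ m) (A : ℕ → ℕ → Bool) : curve (poly m A) ⊆ KK m A := by
  intro p hp
  obtain ⟨E, hE, hpE⟩ := (mem_curve m hm A p).mp hp
  rw [desc_iff m hm A E hE p] at hpE
  cases E with
  | sl i e =>
    obtain ⟨h1, h2, h3⟩ := hpE
    refine tri_sub hE.1 hE.2 A ⟨h1, ?_, ?_⟩
    · have h4 : 0 ≤ ep m * (hh m (VisDom.sl m A i e) e - dep i p) :=
        mul_nonneg (ep_pos m).le (sub_nonneg.mpr h2)
      linarith
    · rw [h3, neg_neg]
  | sr i e =>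
    obtain ⟨h1, h2, h3⟩ := hpE
    refine tri_sub hE.1 hE.2 A ⟨h1, h3.le, ?_⟩
    have h4 : 0 ≤ ep m * (hh m (VisDom.sl m A i e) e - dep i p) :=
      mul_nonneg (ep_pos m).le (sub_nonneg.mpr h2)
    linarith
  | wa i d =>
    obtain ⟨h1, h2, h3⟩ := hpE
    have hε := ep_pos m
    have hl : (i : ℝ) ≤ p.1 := by
      refine le_trans ?_ h2
      unfold wl
      split_ifs
      · exact le_refl _
      · have h4 := xo_lower i (d - 1)
        show (i : ℝ) ≤ xo i (d - 1) + ep m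
        linarith
    have hr : p.1 ≤ i + 1 := by
      refine le_trans h3 ?_
      unfold wr
      split_ifs
      · exact le_refl _
      · show xo i d - ep m ≤ i + 1
        unfold xo
        have h5 : 0 < 1 / ((d : ℝ) + 3) := by positivity
        linarith
    have h6 : p.2 = W i p.1 := by
      unfold dep at h1
      linarith
    refine col_sub hE.1 A ⟨hl, hr, h6.ge, ?_⟩
    rw [h6]
    exact W_le_Yt hE.1 hr
  | nd i =>
    obtain ⟨h1, h2, h3⟩ := hpE
    refine col_sub hE A ⟨by rw [h1]; linarith, h1.le, ?_, h3.trans (sq_le_Yt hE)⟩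
    rw [h1]
    unfold W
    nlinarith
  | sR =>
    obtain ⟨h1, h2, h3⟩ := hpE
    have hc : ((m - 1 : ℕ) : ℝ) = m - 1 := by
      rw [Nat.cast_sub hm]
      simp
    refine col_sub (i := m - 1) (by omega) A ⟨?_, ?_, ?_, h3⟩
    · rw [hc, h1]; linarith
    · rw [hc, h1]; linarith
    · unfold W
      rw [hc, h1]
      nlinarith
  | sz =>
    obtain ⟨h1, h2, h3⟩ := hpE
    obtain ⟨i, hi, hl, hr⟩ : ∃ i : ℕ, i < m ∧ (i : ℝ) ≤ p.1 ∧ p.1 ≤ i + 1 := by
      rcases h3.lt_or_eq with h | h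
      · refine ⟨⌊p.1⌋₊, ?_, Nat.floor_le h2, (Nat.lt_floor_add_one p.1).le⟩
        exact (Nat.floor_lt h2).mpr h
      · refine ⟨m - 1, by omega, ?_, ?_⟩
        · rw [Nat.cast_sub hm, h]
          simp
        · rw [Nat.cast_sub hm, h]
          simp
    refine col_sub hi A ⟨hl, hr, ?_, h1.le⟩
    rw [h1]
    exact W_le_Yt hi hr
  | sq =>
    obtain ⟨h1, h2, h3⟩ := hpE
    exact ear_sub m A ⟨h3, h1.le, by rw [h1]; linarith⟩
  | sa =>
    obtain ⟨h1, h2, h3⟩ := hpE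
    exact ear_sub m A ⟨h3, by rw [h1]; linarith, h1.ge⟩
  | s0 =>
    obtain ⟨h1, h2, h3⟩ := hpE
    refine col_sub (i := 0) (by omega) A ⟨by rw [h1]; simp, by rw [h1]; simp, ?_, by linarith⟩
    unfold W
    simpa using h2

end VisDom
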