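import Pool.Agent.Lib_MP_d1a796.Defs

/-!
# Numbers of the vertices
-/

set_option autoImplicit false

namespace VisDom

/-- number of `cl m i e` (valid for `i, e < m`) -/
def kcl (m i e : ℕ) : ℕ := i * (3 * m + 2) + 3 * e

/-- number of `uu (i + 1)` -/
def kuu (m i : ℕ) : ℕ := i * (3 * m + 2) + 3 * m + 1

theorem kcl_lt {m i e : ℕ} (hi : i < m) (he : e < m) : kcl m i e + 2 < NN m := by
  unfold kcl NN
  have : (i + 1) * (3 * m + 2) ≤ m * (3 * m + 2) := Nat.mul_le_mul_right _ hi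
  nlinarith

theorem kuu_lt {m i : ℕ} (hi : i < m) : kuu m i < NN m := by
  unfold kuu NN
  have : (i + 1) * (3 * m + 2) ≤ m * (3 * m + 2) := Nat.mul_le_mul_right _ hi
  nlinarith

theorem kz_lt (m : ℕ) : m * (3 * m + 2) + 1 < NN m := by unfold NN; omega
theorem kq_lt (m : ℕ) : m * (3 * m + 2) + 2 < NN m := by unfold NN; omega

end VisDom
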