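import Pool.Agent.Lib_MP_d1a796.FrontA

/-!
# Rays behind the tips
-/

set_option autoImplicit false

namespace VisDom

private theorem zL_mono {i e e' : ℕ} (h : e ≤ e') : zL i e ≤ zL i e' := by
  unfold zL
  have h1 : (e : ℝ) ≤ e' := by exact_mod_cast h
  have h0 : (0 : ℝ) ≤ e := Nat.cast_nonneg e
  have h2 : 2 / (2 * (e' : ℝ) + 5) ≤ 2 / (2 * (e : ℝ) + 5) := by
    apply div_le_div_of_nonneg_left (by norm_num) (by positivity)
    linarith
  linarith

private theorem xo_mono {i e e' : ℕ} (h : e ≤ e') : xo i e ≤ xo i e' := by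
  unfold xo
  have h1 : (e : ℝ) ≤ e' := by exact_mod_cast h
  have h0 : (0 : ℝ) ≤ e := Nat.cast_nonneg e
  have h2 : 1 / ((e' : ℝ) + 3) ≤ 1 / ((e : ℝ) + 3) := by
    apply one_div_le_one_div_of_le (by positivity)
    linarith
  linarith

/-- The gap on the left of the zone of slot `(i, e)`. -/
private theorem exists_lo {m e : ℕ} (i : ℕ) (he : e < m) : ∃ lo : ℝ, (i : ℝ) < lo ∧ lo < zL i e ∧
    ∀ e' < e, xo i e' + ep m ≤ lo := by
  have h0 := ep_pos m
  rcases Nat.eq_zero_or_pos e with h | h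
  · refine ⟨i + 1 / 2, by linarith, ?_, ?_⟩
    · have := zL_lower i e
      linarith
    · intro e' he'
      omega
  · refine ⟨xo i (e - 1) + ep m, ?_, zone_lt i (by omega) he, ?_⟩
    · have := xo_lower i (e - 1)
      linarith
    · intro e' he'
      have : xo i e' ≤ xo i (e - 1) := xo_mono (by omega)
      linarith

/-- PIECE [VD-H1] (100 lines). Behind the tip of a spike. PROOF. `a = (cl - t) + (cr - t) = (2 (x_o - t.1), 2 (W i x_o - t.2))`, the point is `x = t.1 - 2 δ (x_o - t.1)`, and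
`dep i = h + 2 δ h + s > 0`. Choose `δ0` with `x > lo`, `lo = i` if `e = 0` (`zL_lower`), otherwise `lo = xo i (e - 1) + ε < zL i e` (`zone_lt`). If the point is in `KK`: in a column `k`: `i < x < i + 1`, so `k = i`
and `dep ≤ 0`; in a triangle `(k, e')` (`tri_zone`): `k = i`, `e' < e`: `x ≤ xo i e' + ε ≤ lo`; `e' ≥ e`: `x ≥ zL i e' ≥ zL i e = t.1`; in `ear`: `x ≤ 0`. -/
theorem ray_tip (m : ℕ) (A : ℕ → ℕ → Bool) {i e : ℕ} (hi : i < m) (he : e < m) (hb : sl m A i e = true) :
    ∃ δ0 : ℝ, 0 < δ0 ∧ ∀ δ s : ℝ, 0 < δ → δ < δ0 → 0 ≤ s →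
      tp m true i e - δ • ((cl m i e - tp m true i e) + (cr m i e - tp m true i e)) + s • ((0, -1) : ℝ × ℝ) ∉ KK m A := by
  obtain ⟨lo, hlo0, hlo1, hlo2⟩ := exists_lo i he
  refine ⟨(zL i e - lo) / 2, by linarith, ?_⟩
  intro δ s hδ hδ0 hs
  have hi0 : (0 : ℝ) ≤ i := Nat.cast_nonneg i
  have hh0 := hh_pos m true e
  have hε := ep_pos m
  have hz1 := zL_lt i he
  have hz2 := zL_lower i e
  have hz3 := xo_upper i he
  have ht1 : (tp m true i e).1 = zL i e := by
    rw [tp_fst]
    rfl
  have ht2 : dep i (tp m true i e) = hh m true e := dep_tp m true i e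
  generalize tp m true i e = t at ht1 ht2 ⊢
  have ht2' : t.2 = W i t.1 - hh m true e := by
    unfold dep at ht2
    linarith
  set P : ℝ × ℝ := t - δ • ((cl m i e - t) + (cr m i e - t)) + s • ((0, -1) : ℝ × ℝ) with hP
  have hP1 : P.1 = t.1 - 2 * δ * (xo i e - t.1) := by
    rw [hP]
    simp only [cl, cr, Prod.fst_add, Prod.fst_sub, Prod.smul_fst, smul_eq_mul]
    ring
  have hP2 : P.2 = t.2 - 2 * δ * (W i (xo i e) - t.2) - s := by
    rw [hP]
    simp only [cl, cr, Prod.snd_add, Prod.snd_sub, Prod.smul_snd, smul_eq_mul, W]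
    ring
  have hdep : 0 < dep i P := by
    have : dep i P = hh m true e + 2 * δ * hh m true e + s := by
      unfold dep
      rw [hP1, hP2, ht2']
      unfold W
      ring
    rw [this]
    positivity
  have hx1 : P.1 < zL i e := by
    rw [hP1, ht1]
    have : 0 < 2 * δ * (xo i e - zL i e) := by
      apply mul_pos (by positivity)
      linarith
    linarith
  have hx2 : lo < P.1 := by
    rw [hP1, ht1]
    have : 2 * δ * (xo i e - zL i e) ≤ 2 * δ * 1 := by
      apply mul_le_mul_of_nonneg_left _ (by positivity)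
      linarith
    linarith
  have hx3 : P.1 < (i : ℝ) + 1 := by linarith
  clear_value P
  intro hK
  simp only [KK, Set.mem_union, Set.mem_iUnion, Finset.mem_range] at hK
  rcases hK with (⟨k, hk, h1, h2, h3, h4⟩ | ⟨k, hk, e', he', hT⟩) | ⟨h1, h2, h3⟩
  · have a1 : k < i + 1 := by
      have : (k : ℝ) < (i : ℝ) + 1 := by linarith
      exact_mod_cast this
    have a2 : i < k + 1 := by
      have : (i : ℝ) < (k : ℝ) + 1 := by linarith
      exact_mod_cast this
    have a3 : k = i := by omega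
    subst a3
    unfold dep at hdep
    linarith
  · obtain ⟨h1, h2, h3⟩ := tri_zone he' hT
    have b1 := zL_lower k e'
    have b2 := xo_upper k he'
    have a1 : k < i + 1 := by
      have : (k : ℝ) < (i : ℝ) + 1 := by linarith
      exact_mod_cast this
    have a2 : i < k + 1 := by
      have : (i : ℝ) < (k : ℝ) + 1 := by linarith
      exact_mod_cast this
    have a3 : k = i := by omega
    subst a3
    rcases lt_or_ge e' e with h | h
    · have := hlo2 e' h
      linarith
    · have := zL_mono (i := k) h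
      linarith
  · linarith

/-- (same piece) Behind `qq m`: the abscissa is `< -1` (`KK_left`). -/
theorem ray_qq (m : ℕ) (A : ℕ → ℕ → Bool) (δ s : ℝ) (hδ : 0 < δ) (hs : 0 ≤ s) :
    qq m - δ • ((zz m - qq m) + (aa m - qq m)) + s • ((-1, 0) : ℝ × ℝ) ∉ KK m A := by
  intro hK
  have h := KK_left m A _ hK
  simp only [qq, zz, aa, Prod.fst_add, Prod.fst_sub, Prod.smul_fst, smul_eq_mul] at h
  linarith

end VisDom
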