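import Pool.Agent.Lib_MP_d1a796.FrontA

/-!
# What `zz` sees
-/

set_option autoImplicit false

namespace VisDom

/-- The part of the segment to the left of room `i` is in the columns before `i`. -/
private theorem left_part (m : ℕ) (A : ℕ → ℕ → Bool) {i : ℕ} (hi : i < m) {p : ℝ × ℝ}
    (h0 : 0 ≤ p.1) (h1 : p.1 < i) (h2 : (i : ℝ) ^ 2 - 1 ≤ p.2) (h3 : p.2 ≤ Yt m) : p ∈ KK m A := by
  set k := ⌊p.1⌋₊ with hk
  have hk1 : (k : ℝ) ≤ p.1 := Nat.floor_le h0
  have hk2 : p.1 < (k : ℝ) + 1 := Nat.lt_floor_add_one p.1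
  have hki : k < i := by
    have : (k : ℝ) < i := lt_of_le_of_lt hk1 h1
    exact_mod_cast this
  have hki' : (k : ℝ) + 1 ≤ i := by exact_mod_cast hki
  have hk0 : (0 : ℝ) ≤ k := Nat.cast_nonneg k
  refine Or.inl (Or.inl ?_)
  refine Set.mem_biUnion (Finset.mem_coe.2 (Finset.mem_range.2 (hki.trans hi))) ?_
  refine ⟨hk1, hk2.le, ?_, h3⟩
  refine le_trans ?_ h2
  unfold W
  nlinarith

private theorem mem_seg {z w p : ℝ × ℝ} (hp : p ∈ segment ℝ z w) :
    ∃ a b : ℝ, 0 ≤ a ∧ 0 ≤ b ∧ a + b = 1 ∧ p.1 = a * z.1 + b * w.1 ∧ p.2 = a * z.2 + b * w.2 := by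
  obtain ⟨a, b, ha, hb, hab, rfl⟩ := hp
  exact ⟨a, b, ha, hb, hab, rfl, rfl⟩

/-- PIECE [VD-V1] (100 lines). `zz m` sees every point `w` of the columns. PROOF. A point of the segment is `p = (1 - l) z + l w`: `p.1 = l w.1 ≤ w.1`,
`p.2 = (1 - l) Y + l w.2 ≥ w.2`. Let `k = ⌊p.1⌋` (`k ≤ i`; take `k = i` if `p.1 ≥ i`). If `k = i`: `W i p.1 ≤ W i w.1 ≤ w.2 ≤ p.2`. If `k < i`: `W k p.1 ≤ W k (k + 1) = (k + 1)^2 - 1 ≤ i ^ 2 ≤ W i w.1 ≤ w.2`. -/
theorem see_col (m : ℕ) (A : ℕ → ℕ → Bool) {i : ℕ} (hi : i < m) {w : ℝ × ℝ} (hw : w ∈ col m i) :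
    segment ℝ (zz m) w ⊆ KK m A := by
  intro p hp
  obtain ⟨a, b, ha, hb, hab, hp1, hp2⟩ := mem_seg hp
  obtain ⟨hw1, hw2, hw3, hw4⟩ := hw
  have hi0 : (0 : ℝ) ≤ i := Nat.cast_nonneg i
  have hz1 : (zz m).1 = 0 := rfl
  have hz2 : (zz m).2 = Yt m := rfl
  rw [hz1, mul_zero, zero_add] at hp1
  rw [hz2] at hp2
  have ha' : a = 1 - b := by linarith
  subst ha'
  have hw0 : 0 ≤ w.1 := le_trans hi0 hw1
  have h0 : 0 ≤ p.1 := by
    rw [hp1]
    exact mul_nonneg hb hw0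
  have h1 : p.1 ≤ w.1 := by
    rw [hp1]
    nlinarith
  have h2 : w.2 ≤ p.2 := by
    rw [hp2]
    nlinarith
  have h3 : p.2 ≤ Yt m := by
    rw [hp2]
    nlinarith
  have hWw : (i : ℝ) ^ 2 ≤ w.2 := by
    refine le_trans ?_ hw3
    unfold W
    nlinarith
  rcases lt_or_ge p.1 i with hlt | hge
  · exact left_part m A hi h0 hlt (by linarith) h3
  · refine Or.inl (Or.inl ?_)
    refine Set.mem_biUnion (Finset.mem_coe.2 (Finset.mem_range.2 hi)) ?_
    refine ⟨hge, h1.trans hw2, ?_, h3⟩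
    refine le_trans ?_ (hw3.trans h2)
    unfold W
    nlinarith

/-- (same piece) `zz m` sees the tips of the dents. PROOF. `t = (x_o, W i x_o - ε)`. A point of the segment is `p = (1 - l) z + l t`; `p.1 = l x_o`. Let `k` be as above. If `p.2 ≥ W k p.1`: in column `k`.
For `k < i`: `W k p.1 ≤ (k+1)^2 - 1 ≤ i^2 - 0 ≤ t.2 + ...`: precisely `W k p.1 ≤ i ^ 2 - 1 < W i x_o - ε = t.2 ≤ p.2` (as `W i x_o ≥ i ^ 2`), so only `k = i` can fail, and then `D = dep i p = ε - (1 - l) (Y + ε + i ^ 2) > 0` and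
`p.1 - x_o = -(1 - l) x_o`, so `|p.1 - x_o| ≤ ε - D` because `x_o ≤ Y`: `p` is in the triangle of the slot. -/
theorem see_dent (m : ℕ) (A : ℕ → ℕ → Bool) {i e : ℕ} (hi : i < m) (he : e < m) (hb : sl m A i e = false) :
    segment ℝ (zz m) (tp m false i e) ⊆ KK m A := by
  intro p hp
  obtain ⟨a, b, ha, hb', hab, hp1, hp2⟩ := mem_seg hp
  have hε := ep_pos m
  have hε1 := ep_small m
  have hi0 : (0 : ℝ) ≤ i := Nat.cast_nonneg i
  have him : (i : ℝ) + 1 ≤ m := by exact_mod_cast hi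
  have hY := Yt_big m
  have hz1 : (zz m).1 = 0 := rfl
  have hz2 : (zz m).2 = Yt m := rfl
  have hk0 : ka false e = 0 := rfl
  have hh0 : hh m false e = ep m := rfl
  have ht1 : (tp m false i e).1 = xo i e := by
    unfold tp
    rw [hk0]
    simp
  have ht2 : (tp m false i e).2 = W i (xo i e) - ep m := by
    unfold tp
    rw [hk0, hh0]
    simp
  rw [hz1, mul_zero, zero_add, ht1] at hp1
  rw [hz2, ht2] at hp2
  have ha' : a = 1 - b := by linarith
  subst ha'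
  have hx1 := xo_lower i e
  have hx2 := xo_upper i he
  set x := xo i e with hx
  have hx0 : 0 ≤ x := by linarith
  have hW1 : (i : ℝ) ^ 2 ≤ W i x := by
    unfold W
    nlinarith
  have hm2 : (i : ℝ) ^ 2 + 2 * i ≤ Yt m := by nlinarith
  have hW2 : W i x ≤ Yt m := by
    refine le_trans ?_ hm2
    unfold W
    nlinarith
  have h0 : 0 ≤ p.1 := by
    rw [hp1]
    exact mul_nonneg hb' hx0
  have h1 : p.1 ≤ x := by
    rw [hp1]
    nlinarith
  have h2 : W i x - ep m ≤ p.2 := by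
    rw [hp2]
    nlinarith
  have h3 : p.2 ≤ Yt m := by
    rw [hp2]
    nlinarith
  rcases lt_or_ge p.1 i with hlt | hge
  · exact left_part m A hi h0 hlt (by linarith) h3
  · rcases le_or_gt (W i p.1) p.2 with hle | hgt
    · refine Or.inl (Or.inl ?_)
      refine Set.mem_biUnion (Finset.mem_coe.2 (Finset.mem_range.2 hi)) ?_
      exact ⟨hge, by linarith, hle, h3⟩
    · refine Or.inl (Or.inr ?_)
      refine Set.mem_biUnion (Finset.mem_coe.2 (Finset.mem_range.2 hi)) ?_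
      refine Set.mem_biUnion (Finset.mem_coe.2 (Finset.mem_range.2 he)) ?_
      rw [hb]
      have hD : dep i p = ep m - (1 - b) * (Yt m + ep m + (i : ℝ) ^ 2) := by
        unfold dep
        rw [hp2, hp1]
        unfold W
        ring
      have hD0 : 0 ≤ dep i p := by
        unfold dep
        linarith
      have hxp : p.1 - x = -((1 - b) * x) := by
        rw [hp1]
        ring
      have hxY : x ≤ Yt m + ep m + (i : ℝ) ^ 2 := by nlinarith
      have hax : 0 ≤ (1 - b) * x := mul_nonneg ha hx0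
      have haY : (1 - b) * x ≤ (1 - b) * (Yt m + ep m + (i : ℝ) ^ 2) :=
        mul_le_mul_of_nonneg_left hxY ha
      refine ⟨hD0, ?_, ?_⟩
      · rw [hk0, hh0, zero_mul, sub_zero]
        refine mul_le_mul_of_nonneg_left ?_ hε.le
        rw [hxp, hD]
        linarith
      · rw [hk0, hh0, zero_mul, sub_zero, ← mul_neg]
        refine mul_le_mul_of_nonneg_left ?_ hε.le
        rw [hxp, hD]
        linarith

end VisDom
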