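import Pool.Agent.Lib_MP_d1a796.FrontA

/-!
# What the tip of a spike sees
-/

set_option autoImplicit false

namespace VisDom

private theorem see_pt (m : ℕ) (A : ℕ → ℕ → Bool) {i e : ℕ} (hi : i < m) (he : e < m) (hb : sl m A i e = true)
    (hj : i + e + 1 < m) {p : ℝ × ℝ} (hp : p.2 = (2 * (i : ℝ) + e + 3) * p.1 - ((i : ℝ) + 1) * (i + e + 2))
    (h1 : zL i e ≤ p.1) (h2 : p.1 ≤ (i : ℝ) + e + 2) : p ∈ KK m A := by
  have hi0 : (0 : ℝ) ≤ i := Nat.cast_nonneg i
  have he0 : (0 : ℝ) ≤ e := Nat.cast_nonneg e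
  have hm0 : (0 : ℝ) ≤ m := Nat.cast_nonneg m
  have hjm : (i : ℝ) + e + 2 ≤ m := by
    have h3 : i + e + 2 ≤ m := by omega
    exact_mod_cast h3
  have e3 : (e : ℝ) + 3 ≠ 0 := by positivity
  have hY : p.2 ≤ Yt m := by
    have h3 : p.2 ≤ ((i : ℝ) + e + 2) ^ 2 := by
      rw [hp]
      nlinarith [mul_nonneg (show (0 : ℝ) ≤ 2 * (i : ℝ) + e + 3 by positivity) (sub_nonneg.2 h2)]
    have h4 : ((i : ℝ) + e + 2) ^ 2 ≤ (m : ℝ) ^ 2 := pow_le_pow_left₀ (by positivity) hjm 2
    have h5 := Yt_big m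
    nlinarith
  have hdep : dep i p = ((e : ℝ) + 3) * (xo i e - p.1) := by
    unfold dep W xo
    rw [hp]
    field_simp
    ring
  rcases le_total p.1 (xo i e) with h3 | h3
  · -- the spike
    left; right
    simp only [Set.mem_iUnion, Finset.mem_range]
    refine ⟨i, hi, e, he, ?_⟩
    rw [hb]
    have hD0 : 0 ≤ dep i p := by
      rw [hdep]
      exact mul_nonneg (by positivity) (by linarith)
    have hDh : dep i p ≤ hh m true e := by
      rw [hdep]
      have h4 : xo i e - p.1 ≤ xo i e - zL i e := by linarith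
      have h5 : ((e : ℝ) + 3) * (xo i e - zL i e) = hh m true e := by
        unfold xo zL hh
        rw [if_pos rfl]
        field_simp
        ring
      rw [← h5]
      exact mul_le_mul_of_nonneg_left h4 (by positivity)
    have hz : p.1 - xo i e - ka true e * dep i p = 0 := by
      rw [hdep]
      unfold ka
      rw [if_pos rfl]
      field_simp
      ring
    have hnn : 0 ≤ ep m * (hh m true e - dep i p) := mul_nonneg (ep_pos m).le (by linarith)
    refine ⟨hD0, ?_, ?_⟩
    · rw [hz, mul_zero]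
      exact hnn
    · rw [hz, mul_zero, neg_zero]
      exact hnn
  · rcases le_total p.1 ((i : ℝ) + 1) with h4 | h4
    · -- the column `i`
      left; left
      simp only [Set.mem_iUnion, Finset.mem_range]
      refine ⟨i, hi, ?_, h4, ?_, hY⟩
      · have := xo_lower i e
        linarith
      · have h5 : dep i p ≤ 0 := by
          rw [hdep]
          exact mul_nonpos_of_nonneg_of_nonpos (by positivity) (by linarith)
        unfold dep at h5
        linarith
    · -- the later columns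
      left; left
      simp only [Set.mem_iUnion, Finset.mem_range]
      have hp0 : 0 ≤ p.1 := by linarith
      have hW : ∀ k : ℕ, W k p.1 ≤ p.2 := by
        intro k
        have h5 : p.2 - p.1 ^ 2 = (p.1 - ((i : ℝ) + 1)) * (((i : ℝ) + e + 2) - p.1) := by
          rw [hp]
          ring
        have h6 : 0 ≤ p.2 - p.1 ^ 2 := by
          rw [h5]
          exact mul_nonneg (by linarith) (by linarith)
        unfold W
        nlinarith [sq_nonneg (p.1 - (k : ℝ))]
      rcases le_or_gt (⌊p.1⌋₊) (i + e + 1) with h5 | h5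
      · refine ⟨⌊p.1⌋₊, by omega, Nat.floor_le hp0, (Nat.lt_floor_add_one p.1).le, hW _, hY⟩
      · refine ⟨i + e + 1, hj, ?_, ?_, hW _, hY⟩
        · have h6 : i + e + 2 ≤ ⌊p.1⌋₊ := h5
          have h7 := Nat.floor_le hp0
          have h8 : ((i + e + 2 : ℕ) : ℝ) ≤ (⌊p.1⌋₊ : ℝ) := by exact_mod_cast h6
          push_cast at h8 ⊢
          linarith
        · push_cast
          linarith

/-- PIECE [VD-V2] (120 lines). The tip of a spike sees `uu (i + 1)` and `uu (j + 1)`, `j = i + e + 1`. PROOF. All points are on the line `y = (i + j + 2) x - (i + 1)(j + 1)`, in the order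
`t, o, uu (i + 1), uu (j + 1)` of the abscissas, `o = (x_o, W i x_o)`: a point `p` of the segment is on the line with `t.1 ≤ p.1 ≤ j + 1`. If `p.1 ≤ x_o`: `p` is in the triangle
(on the line `p.1 - x_o - κ D = 0`, `0 ≤ D ≤ h`). If `x_o ≤ p.1 ≤ i + 1`: in `col m i` (`dep i p = -(e + 3)(p.1 - x_o) ≤ 0`). If `i + 1 ≤ p.1`: let `k = ⌊p.1⌋` (or `j` if `p.1 = j + 1`), `i < k ≤ j`;
`p.2 - p.1 ^ 2 = (p.1 - (i + 1)) ((j + 1) - p.1) ≥ 0` and `p.1 ^ 2 - W k p.1 = (p.1 - k) ^ 2 ≥ 0`: in `col m k`; `p.2 ≤ (j + 1) ^ 2 ≤ m ^ 2 ≤ Yt m`. -/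
theorem see_tip (m : ℕ) (A : ℕ → ℕ → Bool) {i e : ℕ} (hi : i < m) (he : e < m) (hb : sl m A i e = true) :
    segment ℝ (tp m true i e) (uu (i + e + 2)) ⊆ KK m A ∧ segment ℝ (tp m true i e) (uu (i + 1)) ⊆ KK m A := by
  have hi0 : (0 : ℝ) ≤ i := Nat.cast_nonneg i
  have he0 : (0 : ℝ) ≤ e := Nat.cast_nonneg e
  have hj : i + e + 1 < m := by
    unfold sl at hb
    simp only [Bool.and_eq_true, decide_eq_true_eq] at hb
    exact hb.1
  have hz : zL i e ≤ (i : ℝ) + 1 := by
    unfold zL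
    have : 0 ≤ 2 / (2 * (e : ℝ) + 5) := by positivity
    linarith
  have ht1 : (tp m true i e).1 = zL i e := by
    rw [tp_fst, if_pos rfl]
  have ht2 : (tp m true i e).2 = (2 * (i : ℝ) + e + 3) * (tp m true i e).1 - ((i : ℝ) + 1) * (i + e + 2) := by
    have h1 := dep_tp m true i e
    have h2 : hh m true e = 1 / (2 * (e : ℝ) + 5) := by
      unfold hh
      rw [if_pos rfl]
    unfold dep W at h1
    rw [h2] at h1
    rw [ht1] at h1 ⊢
    have h3 : (tp m true i e).2 = 2 * (i : ℝ) * zL i e - (i : ℝ) ^ 2 - 1 / (2 * (e : ℝ) + 5) := by linarith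
    rw [h3]
    unfold zL
    field_simp
    ring
  -- the set of the points of the line is convex
  have hseg : ∀ a b : ℝ × ℝ, a.2 = (2 * (i : ℝ) + e + 3) * a.1 - ((i : ℝ) + 1) * (i + e + 2) →
      b.2 = (2 * (i : ℝ) + e + 3) * b.1 - ((i : ℝ) + 1) * (i + e + 2) → zL i e ≤ a.1 → zL i e ≤ b.1 →
      a.1 ≤ (i : ℝ) + e + 2 → b.1 ≤ (i : ℝ) + e + 2 → segment ℝ a b ⊆ KK m A := by
    intro a b ha hb' ha1 hb1 ha2 hb2 p hp
    obtain ⟨α, β, hα, hβ, hαβ, rfl⟩ := hp
    have hβ' : β = 1 - α := by linarith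
    refine see_pt m A hi he hb hj ?_ ?_ ?_
    · simp only [Prod.fst_add, Prod.snd_add, Prod.smul_fst, Prod.smul_snd, smul_eq_mul]
      rw [ha, hb', hβ']
      ring
    · simp only [Prod.fst_add, Prod.smul_fst, smul_eq_mul]
      calc zL i e = α * zL i e + β * zL i e := by rw [hβ']; ring
        _ ≤ α * a.1 + β * b.1 := add_le_add (mul_le_mul_of_nonneg_left ha1 hα) (mul_le_mul_of_nonneg_left hb1 hβ)
    · simp only [Prod.fst_add, Prod.smul_fst, smul_eq_mul]
      calc α * a.1 + β * b.1 ≤ α * ((i : ℝ) + e + 2) + β * ((i : ℝ) + e + 2) :=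
            add_le_add (mul_le_mul_of_nonneg_left ha2 hα) (mul_le_mul_of_nonneg_left hb2 hβ)
        _ = (i : ℝ) + e + 2 := by rw [hβ']; ring
  constructor
  · refine hseg _ _ ht2 ?_ ht1.ge ?_ ?_ ?_
    · unfold uu
      push_cast
      ring
    · unfold uu
      push_cast
      linarith
    · rw [ht1]
      linarith
    · unfold uu
      push_cast
      linarith
  · refine hseg _ _ ht2 ?_ ht1.ge ?_ ?_ ?_
    · unfold uu
      push_cast
      ring
    · unfold uu
      push_cast
      linarith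
    · rw [ht1]
      linarith
    · unfold uu
      push_cast
      linarith

end VisDom
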