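import Pool.Agent.Lib_MP_d1a796.TwoRest

/-!
# The polygon is simple
-/

set_option autoImplicit false

namespace VisDom

/-- PIECE [VD-S3] (60 lines): the ends of a side are different (compare abscissas or ordinates; `dep` of a tip is `> 0`). -/
theorem src_ne_dst (m : ℕ) (hm : 1 ≤ m) (A : ℕ → ℕ → Bool) (E : Ed) (hE : E.Valid m) :
    E.src m A ≠ E.dst m A := by
  have hε := ep_pos m
  have hY := Yt_big m
  have hm1 : (1 : ℝ) ≤ m := by exact_mod_cast hm
  cases E with
  | sl i e =>
    intro h
    have h1 : dep i (cl m i e) = dep i (tp m (VisDom.sl m A i e) i e) := congrArg (dep i) h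
    rw [dep_tp] at h1
    have h2 : dep i (cl m i e) = 0 := by
      unfold dep cl
      simp
    have := hh_pos m (VisDom.sl m A i e) e
    linarith
  | sr i e =>
    intro h
    have h1 : dep i (tp m (VisDom.sl m A i e) i e) = dep i (cr m i e) := congrArg (dep i) h
    rw [dep_tp] at h1
    have h2 : dep i (cr m i e) = 0 := by
      unfold dep cr
      simp
    have := hh_pos m (VisDom.sl m A i e) e
    linarith
  | wa i d =>
    obtain ⟨hi, hd⟩ : i < m ∧ d ≤ m := hE
    intro h
    have h1 : (wl m i d).1 = (wr m i d).1 := congrArg Prod.fst h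
    unfold wl wr at h1
    split_ifs at h1 with c1 c2 c2
    · simp only [uu, BB] at h1
      linarith
    · simp only [uu, cl] at h1
      have h2 := zL_lt i (show d < m by omega)
      have h3 := zL_lower i d
      linarith
    · simp only [cr, BB] at h1
      have h2 := xo_upper i (show d - 1 < m by omega)
      linarith
    · simp only [cr, cl] at h1
      have h2 := zone_lt i (show d - 1 < d by omega) (show d < m by omega)
      have h3 := zL_lt i (show d < m by omega)
      linarith
  | nd i =>
    intro h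
    have h1 : (BB i).2 = (uu (i + 1)).2 := congrArg Prod.snd h
    simp only [BB, uu] at h1
    push_cast at h1
    linarith
  | sR =>
    intro h
    have h1 : (uu m).2 = (RR m).2 := congrArg Prod.snd h
    simp only [uu, RR] at h1
    nlinarith
  | sz =>
    intro h
    have h1 : (RR m).1 = (zz m).1 := congrArg Prod.fst h
    simp only [RR, zz] at h1
    linarith
  | sq =>
    intro h
    have h1 : (zz m).1 = (qq m).1 := congrArg Prod.fst h
    simp only [zz, qq] at h1
    linarith
  | sa =>
    intro h
    have h1 : (qq m).1 = (aa m).1 := congrArg Prod.fst h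
    simp only [qq, aa] at h1
    linarith
  | s0 =>
    intro h
    have h1 : (aa m).2 = (uu 0).2 := congrArg Prod.snd h
    simp only [aa, uu] at h1
    push_cast at h1
    nlinarith

theorem two_edges (m : ℕ) (hm : 1 ≤ m) (A : ℕ → ℕ → Bool) (E E' : Ed) (hE : E.Valid m) (hE' : E'.Valid m)
    (hne : E ≠ E') (p : ℝ × ℝ) (hp : E.Desc m A p) (hp' : E'.Desc m A p) :
    (p = E.dst m A ∧ p = E'.src m A) ∨ (p = E.src m A ∧ p = E'.dst m A) := by
  by_cases hs : E.isSlot
  · exact two_slot m hm A E E' hE hE' hne hs p hp hp'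
  · by_cases hs' : E'.isSlot
    · rcases two_slot m hm A E' E hE' hE hne.symm hs' p hp' hp with h | h
      · exact Or.inr ⟨h.2, h.1⟩
      · exact Or.inl ⟨h.2, h.1⟩
    · exact two_rest m hm A E E' hE hE' hne hs hs' p hp hp'

theorem poly_simple (m : ℕ) (hm : 1 ≤ m) (A : ℕ → ℕ → Bool) : IsSimple (poly m A) := by
  refine ⟨?_, ?_, ?_⟩
  · unfold NN
    omega
  · intro k l hkl
    by_contra hne
    obtain ⟨E, hE, hk, h1, h2⟩ := side_ed m hm A k
    obtain ⟨E', hE', hl, h1', h2'⟩ := side_ed m hm A l
    have hEE : E ≠ E' := by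
      rintro rfl
      exact hne (Fin.ext (hk.symm.trans hl))
    have hp : (poly m A k) ∈ segment ℝ (E.src m A) (E.dst m A) := by
      rw [h1]; exact left_mem_segment ℝ _ _
    have hp' : (poly m A k) ∈ segment ℝ (E'.src m A) (E'.dst m A) := by
      rw [hkl, h1']; exact left_mem_segment ℝ _ _
    rcases two_edges m hm A E E' hE hE' hEE _ ((desc_iff m hm A E hE _).1 hp)
      ((desc_iff m hm A E' hE' _).1 hp') with h | h
    · exact src_ne_dst m hm A E hE (h1.symm.trans h.1)
    · exact src_ne_dst m hm A E' hE' ((h1'.symm.trans hkl.symm).trans h.2)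
  · intro k l hne p hp hp'
    obtain ⟨E, hE, hk, h1, h2⟩ := side_ed m hm A k
    obtain ⟨E', hE', hl, h1', h2'⟩ := side_ed m hm A l
    have hEE : E ≠ E' := by
      rintro rfl
      exact hne (Fin.ext (hk.symm.trans hl))
    unfold side at hp hp'
    rw [h1, h2] at hp
    rw [h1', h2'] at hp'
    rcases two_edges m hm A E E' hE hE' hEE _ ((desc_iff m hm A E hE _).1 hp)
      ((desc_iff m hm A E' hE' _).1 hp') with h | h
    · exact ⟨Or.inr (h.1.trans h2.symm), Or.inl (h.2.trans h1'.symm)⟩
    · exact ⟨Or.inl (h.1.trans h1.symm), Or.inr (h.2.trans h2'.symm)⟩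

end VisDom
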