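import Pool.Agent.Lib_MP_d1a796.TopoA

/-!
# Hidden pairs: a general lemma
-/

set_option autoImplicit false

namespace VisDom

open Set

private theorem isClosed_seg (x y : ℝ × ℝ) : IsClosed (segment ℝ x y) := by
  rw [segment_eq_image_lineMap]
  exact (isCompact_Icc.image (AffineMap.lineMap_continuous)).isClosed

/-- a point near `t` on the line through `t` in direction `u` -/
private theorem small_in (t u : ℝ × ℝ) (r b : ℝ) (hr : 0 < r) (hb : 0 < b) :
    ∃ μ : ℝ, 0 < μ ∧ μ < b ∧ t + μ • u ∈ Metric.ball t r := by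
  have hn : 0 < ‖u‖ + 1 := by positivity
  refine ⟨min (b / 2) (r / (2 * (‖u‖ + 1))), lt_min (by positivity) (by positivity),
    (min_le_left _ _).trans_lt (by linarith), ?_⟩
  rw [Metric.mem_ball, dist_eq_norm, add_sub_cancel_left, norm_smul,
    Real.norm_of_nonneg (le_min (by positivity) (by positivity))]
  calc min (b / 2) (r / (2 * (‖u‖ + 1))) * ‖u‖ ≤ r / (2 * (‖u‖ + 1)) * (‖u‖ + 1) :=
        mul_le_mul (min_le_right _ _) (by linarith) (norm_nonneg _) (by positivity)
    _ = r / 2 := by field_simp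
    _ < r := by linarith

/-- near the vertex `P (k + 1)` the curve is in the cone of the two neighbours -/
private theorem tip_ball {n : ℕ} [NeZero n] (P : Fin n → ℝ × ℝ) (hs : IsSimple P) (k : Fin n) :
    ∃ r : ℝ, 0 < r ∧ ∀ x ∈ Metric.ball (P (k + 1)) r, x ∈ curve P → ∃ α β : ℝ, 0 ≤ α ∧ 0 ≤ β ∧
      x - P (k + 1) = α • (P k - P (k + 1)) + β • (P (k + 1 + 1) - P (k + 1)) := by
  have hcl : IsClosed (⋃ l : {l : Fin n // l ≠ k ∧ l ≠ k + 1}, side P l) :=
    isClosed_iUnion_of_finite fun l => isClosed_seg _ _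
  have hnot : P (k + 1) ∉ ⋃ l : {l : Fin n // l ≠ k ∧ l ≠ k + 1}, side P l := by
    rw [mem_iUnion]
    rintro ⟨⟨l, h1, h2⟩, hl⟩
    rcases (hs.sides k l h1.symm (P (k + 1)) (right_mem_segment ℝ _ _) hl).2 with h | h
    · exact h2 (hs.inj h).symm
    · exact h1 (add_right_cancel (hs.inj h)).symm
  obtain ⟨r, hr, hsub⟩ := Metric.isOpen_iff.1 hcl.isOpen_compl _ hnot
  refine ⟨r, hr, fun x hx hxc => ?_⟩
  rw [curve, mem_iUnion] at hxc
  obtain ⟨l, hl⟩ := hxc
  by_cases h1 : l = k
  · subst h1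
    obtain ⟨a, b, ha, hb, hab, rfl⟩ := hl
    refine ⟨a, 0, ha, le_rfl, ?_⟩
    have h2 : P (l + 1) = (a + b) • P (l + 1) := by rw [hab, one_smul]
    nth_rewrite 2 [h2]
    module
  by_cases h2 : l = k + 1
  · subst h2
    obtain ⟨a, b, ha, hb, hab, rfl⟩ := hl
    refine ⟨0, b, le_rfl, hb, ?_⟩
    have h3 : P (k + 1) = (a + b) • P (k + 1) := by rw [hab, one_smul]
    nth_rewrite 2 [h3]
    module
  · exact absurd (mem_iUnion.2 ⟨⟨l, h1, h2⟩, hl⟩) (hsub hx)

/-- PIECE [VD-T2] (140 lines). Vertex `t = P (k + 1)` with the two neighbours `c = P k` and `c' = P (k + 1 + 1)`; the point `w` is not in the cone of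
apex `t` through `c, c'`; the points behind `t` (`t - δ a`, `a` in the cone) are joined to infinity by rays in direction `v`.
Then the segment from `t` to `w` is not in the region.
PROOF. The sides `l ≠ k, k + 1` do not contain `t` (`IsSimple`: otherwise `t = P l` or `t = P (l + 1)`, so `l = k + 1` or `l + 1 = k + 1`, by injectivity),
their union is closed, so there is `r > 0` such that the ball `B(t, r)` does not meet them. The sides `k`, `k + 1` are contained in
`t + cone`. Choose `μ ∈ (0, 1)` with `p = t + μ (w - t) ∈ B(t, r)` and `δ ∈ (0, δ0)` with `q = t - δ a ∈ B(t, r)`. The segment from `p` to `q` is in the ball (convex). If a point `x` of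
it were on the curve, then `x - t` is in the cone; `x = q` is impossible by `hray` (`s = 0`); otherwise `x = (1 - l) p + l q`, `l < 1`, and
`(1 - l) (p - t) = (x - t) + l δ a` is in the cone, so `w - t` is in the cone, contradiction. So
`S = segment p q ∪ {q + s v | s ≥ 0}` is connected, unbounded, off the curve, and contains `p`; `not_region`. -/
theorem tip_ext {n : ℕ} [NeZero n] (P : Fin n → ℝ × ℝ) (hs : IsSimple P) (k : Fin n) (w a v : ℝ × ℝ)
    (hw : ∀ α β : ℝ, 0 ≤ α → 0 ≤ β →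
      w - P (k + 1) ≠ α • (P k - P (k + 1)) + β • (P (k + 1 + 1) - P (k + 1)))
    (ha : ∃ α β : ℝ, 0 ≤ α ∧ 0 ≤ β ∧ a = α • (P k - P (k + 1)) + β • (P (k + 1 + 1) - P (k + 1)))
    (hv : v ≠ 0) (δ0 : ℝ) (hδ0 : 0 < δ0)
    (hray : ∀ δ s : ℝ, 0 < δ → δ < δ0 → 0 ≤ s → P (k + 1) - δ • a + s • v ∉ curve P) :
    ¬ segment ℝ (P (k + 1)) w ⊆ region P := by
  obtain ⟨α', β', hα', hβ', ha'⟩ := ha
  obtain ⟨r, hr, hball⟩ := tip_ball P hs k
  obtain ⟨μ, hμ0, hμ1, hμ⟩ := small_in (P (k + 1)) (w - P (k + 1)) r 1 hr one_pos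
  obtain ⟨δ, hδ, hδ1, hδr⟩ := small_in (P (k + 1)) (-a) r δ0 hr hδ0
  have hp : P (k + 1) + μ • (w - P (k + 1)) ∈ Metric.ball (P (k + 1)) r := hμ
  have hq : P (k + 1) - δ • a ∈ Metric.ball (P (k + 1)) r := by
    have : P (k + 1) - δ • a = P (k + 1) + δ • (-a) := by module
    rw [this]
    exact hδr
  set p : ℝ × ℝ := P (k + 1) + μ • (w - P (k + 1)) with hpdef
  set q : ℝ × ℝ := P (k + 1) - δ • a with hqdef
  intro hsub
  have hpseg : p ∈ segment ℝ (P (k + 1)) w := by
    refine ⟨1 - μ, μ, by linarith, hμ0.le, by ring, ?_⟩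
    rw [hpdef]
    module
  refine not_region P (segment ℝ p q ∪ (fun s : ℝ => q + s • v) '' Ici 0) ?_ ?_ ?_ p
    (Or.inl (left_mem_segment ℝ p q)) (hsub hpseg)
  · refine IsPreconnected.union q (right_mem_segment ℝ p q) ⟨0, self_mem_Ici, by simp⟩
      (convex_segment p q).isPreconnected ?_
    exact isPreconnected_Ici.image _ (by fun_prop)
  · rintro x (hx | ⟨s, hs0, rfl⟩)
    · intro hxc
      have hxb : x ∈ Metric.ball (P (k + 1)) r := (convex_ball _ _).segment_subset hp hq hx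
      obtain ⟨α, β, hα, hβ, hxe⟩ := hball x hxb hxc
      obtain ⟨l', l, hl', hl, hll, hxl⟩ := hx
      rcases hl'.eq_or_lt with h0 | h0
      · have hl1 : l = 1 := by linarith
        have hxq : x = P (k + 1) - δ • a + (0 : ℝ) • v := by
          rw [← hxl, ← h0, hl1, hqdef]
          module
        exact hray δ 0 hδ hδ1 le_rfl (hxq ▸ hxc)
      · have hpos : 0 < l' * μ := mul_pos h0 hμ0
        refine hw ((l' * μ)⁻¹ * (α + l * δ * α')) ((l' * μ)⁻¹ * (β + l * δ * β')) ?_ ?_ ?_
        · have : 0 ≤ l * δ * α' := mul_nonneg (mul_nonneg hl hδ.le) hα'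
          positivity
        · have : 0 ≤ l * δ * β' := mul_nonneg (mul_nonneg hl hδ.le) hβ'
          positivity
        · have key : (l' * μ) • (w - P (k + 1)) =
              (α + l * δ * α') • (P k - P (k + 1)) + (β + l * δ * β') • (P (k + 1 + 1) - P (k + 1)) := by
            have h1 : x - P (k + 1) = (l' * μ) • (w - P (k + 1)) - (l * δ) • a := by
              rw [← hxl, hpdef, hqdef]
              have h2 : P (k + 1) = (l' + l) • P (k + 1) := by rw [hll, one_smul]
              nth_rewrite 4 [h2]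
              module
            have h3 : (l' * μ) • (w - P (k + 1)) = (x - P (k + 1)) + (l * δ) • a := by
              rw [h1]
              module
            rw [h3, hxe, ha']
            module
          have h4 : w - P (k + 1) = (l' * μ)⁻¹ • ((l' * μ) • (w - P (k + 1))) := by
            rw [smul_smul, inv_mul_cancel₀ hpos.ne', one_smul]
          rw [h4, key]
          module
    · exact hray δ s hδ hδ1 hs0
  · intro hb
    obtain ⟨R, hR⟩ := hb.exists_norm_le
    have hvn : 0 < ‖v‖ := norm_pos_iff.2 hv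
    have hR0 : 0 ≤ R := (norm_nonneg _).trans (hR p (Or.inl (left_mem_segment ℝ p q)))
    have hs0 : 0 ≤ (R + ‖q‖ + 1) / ‖v‖ := by positivity
    have h1 := hR (q + ((R + ‖q‖ + 1) / ‖v‖) • v) (Or.inr ⟨_, hs0, rfl⟩)
    have h2 : ‖((R + ‖q‖ + 1) / ‖v‖) • v‖ = R + ‖q‖ + 1 := by
      rw [norm_smul, Real.norm_of_nonneg hs0]
      field_simp
    have h3 : ‖((R + ‖q‖ + 1) / ‖v‖) • v‖ ≤ ‖q + ((R + ‖q‖ + 1) / ‖v‖) • v‖ + ‖q‖ := by
      have := norm_sub_le (q + ((R + ‖q‖ + 1) / ‖v‖) • v) q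
      rwa [add_sub_cancel_left] at this
    linarith

end VisDom
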