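import Pool.Agent.Lib_MP_d1a796.Only
import Pool.Agent.Lib_MP_d1a796.Simple
import Pool.Agent.Lib_MP_d1a796.Front
import Pool.Agent.Lib_MP_d1a796.SeeA
import Pool.Agent.Lib_MP_d1a796.SeeB
import Pool.Agent.Lib_MP_d1a796.Ray
import Pool.Agent.Lib_MP_d1a796.TopoB
import Pool.Agent.Lib_MP_d1a796.Num

/-!
# The adjacencies of the visibility graph
-/

set_option autoImplicit false

namespace VisDom

private theorem sub_adj (m : ℕ) (hm : 1 ≤ m) (A : ℕ → ℕ → Bool) (k l : Fin (NN m)) (hkl : k ≠ l)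
    (h : segment ℝ (vert m A k) (vert m A l) ⊆ KK m A) : (visGraph (poly m A)).Adj k l :=
  ⟨hkl, h.trans (KK_sub_region m hm A)⟩

private theorem col_of_wall {m i : ℕ} (hi : i < m) {w : ℝ × ℝ} (h1 : (i : ℝ) ≤ w.1) (h2 : w.1 ≤ i + 1)
    (h3 : W i w.1 ≤ w.2) (h4 : w.2 ≤ W i w.1 + 1) : w ∈ col m i := by
  refine ⟨h1, h2, h3, ?_⟩
  have hY := Yt_big m
  have hi' : (i : ℝ) + 1 ≤ m := by exact_mod_cast hi
  have hi0 : (0 : ℝ) ≤ i := Nat.cast_nonneg i
  have : W i w.1 ≤ ((i : ℝ) + 1) ^ 2 - 1 := by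
    unfold W
    nlinarith
  nlinarith

private theorem segment_ear (m : ℕ) : segment ℝ (zz m) (qq m) ⊆ ear m := by
  intro p hp
  obtain ⟨a, b, ha, hb, hab, rfl⟩ := hp
  unfold zz qq ear
  simp only [Set.mem_ofPred_eq, Prod.fst_add, Prod.snd_add, Prod.smul_fst, Prod.smul_snd, smul_eq_mul]
  have : a = 1 - b := by linarith
  subst this
  refine ⟨by nlinarith, by nlinarith, by nlinarith⟩

/-- PIECE [VD-H2] (140 lines). The adjacencies. (a) `zz m` sees every vertex except the tips of spikes: `ix_cases`, `see_col`, `see_dent`, `KK_sub_region`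
(corners, `BB i`, `uu (i+1)` are in `col m i`; `RR` in `col m (m-1)`; `aa`, `uu 0` in `col m 0`; `qq`: `segment zz qq` is in `ear m`). -/
theorem adj_zz (m : ℕ) (hm : 1 ≤ m) (A : ℕ → ℕ → Bool) (l : ℕ) (hl : l < NN m) (hz : l ≠ m * (3 * m + 2) + 1)
    (ht : ∀ i e, i < m → e < m → sl m A i e = true → l ≠ kcl m i e + 1) :
    (visGraph (poly m A)).Adj ⟨m * (3 * m + 2) + 1, kz_lt m⟩ ⟨l, hl⟩ := by
  apply sub_adj m hm A
  · intro h
    exact hz (congrArg Fin.val h).symm
  show segment ℝ (vert m A (m * (3 * m + 2) + 1)) (vert m A l) ⊆ KK m A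
  rw [vert_zz]
  have hε := ep_pos m
  have hε2 := ep_small m
  have hY := Yt_big m
  have hm0 : (0 : ℝ) ≤ m := Nat.cast_nonneg m
  have hm1 : (1 : ℝ) ≤ m := by exact_mod_cast hm
  rcases ix_cases m l hl with ⟨i, e, hi, he, rfl⟩ | ⟨i, e, hi, he, rfl⟩ | ⟨i, e, hi, he, rfl⟩ | ⟨i, hi, rfl⟩ |
    ⟨i, hi, rfl⟩ | rfl | rfl | rfl | rfl | rfl
  · rw [vert_cl m A hi he]
    have h1 := xo_lower i e
    have h2 := xo_upper i he
    exact see_col m A hi (col_of_wall hi (by simp only [cl]; linarith) (by simp only [cl]; linarith)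
      (by simp only [cl]; exact le_refl _) (by simp only [cl]; linarith))
  · rw [vert_tp m A hi he]
    have hb : sl m A i e = false := by
      by_contra hb
      rw [Bool.not_eq_false] at hb
      exact ht i e hi he hb rfl
    rw [hb]
    exact see_dent m A hi he hb
  · rw [vert_cr m A hi he]
    have h1 := xo_lower i e
    have h2 := xo_upper i he
    exact see_col m A hi (col_of_wall hi (by simp only [cr]; linarith) (by simp only [cr]; linarith)
      (by simp only [cr]; exact le_refl _) (by simp only [cr]; linarith))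
  · rw [vert_BB m A hi]
    apply see_col m A hi
    apply col_of_wall hi
    · simp only [BB]; linarith
    · simp only [BB]; exact le_refl _
    · simp only [BB, W]; nlinarith
    · simp only [BB, W]; nlinarith
  · rw [vert_uu m A hi]
    apply see_col m A hi
    apply col_of_wall hi
    · simp only [uu]; push_cast; linarith
    · simp only [uu]; push_cast; exact le_refl _
    · simp only [uu, W]; push_cast; nlinarith
    · simp only [uu, W]; push_cast; nlinarith
  · rw [vert_RR]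
    obtain ⟨n, rfl⟩ : ∃ n, m = n + 1 := ⟨m - 1, by omega⟩
    apply see_col (n + 1) A (i := n) (by omega)
    refine ⟨?_, ?_, ?_, ?_⟩
    · simp only [RR]; push_cast; linarith
    · simp only [RR]; push_cast; exact le_refl _
    · simp only [RR, W]
      push_cast at hY ⊢
      have : (0 : ℝ) ≤ n := Nat.cast_nonneg n
      nlinarith
    · simp only [RR]; exact le_refl _
  · exact absurd rfl hz
  · rw [vert_qq]
    exact (segment_ear m).trans (ear_sub m A)
  · rw [vert_aa]
    apply see_col m A (i := 0) (by omega)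
    refine ⟨?_, ?_, ?_, ?_⟩
    · simp [aa]
    · simp [aa]
    · simp only [aa, W]
      push_cast
      nlinarith
    · simp only [aa]; linarith
  · rw [vert_u0]
    apply see_col m A (i := 0) (by omega)
    refine ⟨?_, ?_, ?_, ?_⟩
    · simp [uu]
    · simp [uu]
    · simp [uu, W]
    · simp only [uu]; push_cast; nlinarith

/-- (b) `see_tip`. -/
theorem adj_tip (m : ℕ) (hm : 1 ≤ m) (A : ℕ → ℕ → Bool) {i e : ℕ} (hi : i < m) (he : e < m)
    (hb : sl m A i e = true) :
    (visGraph (poly m A)).Adj ⟨kcl m i e + 1, by have := kcl_lt hi he; omega⟩ ⟨kuu m i, kuu_lt hi⟩ ∧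
    ∀ hj : i + e + 1 < m, (visGraph (poly m A)).Adj ⟨kcl m i e + 1, by have := kcl_lt hi he; omega⟩
      ⟨kuu m (i + e + 1), kuu_lt hj⟩ := by
  obtain ⟨h1, h2⟩ := see_tip m A hi he hb
  constructor
  · apply sub_adj m hm A
    · intro h
      have := congrArg Fin.val h
      simp only [kcl, kuu] at this
      omega
    · show segment ℝ (vert m A (i * (3 * m + 2) + 3 * e + 1)) (vert m A (i * (3 * m + 2) + 3 * m + 1)) ⊆ _
      rw [vert_tp m A hi he, vert_uu m A hi, hb]
      exact h2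
  · intro hj
    apply sub_adj m hm A
    · intro h
      have := congrArg Fin.val h
      simp only [kcl, kuu] at this
      have h3 : i * (3 * m + 2) ≤ (i + e + 1) * (3 * m + 2) := Nat.mul_le_mul_right _ (by omega)
      omega
    · show segment ℝ (vert m A (i * (3 * m + 2) + 3 * e + 1))
        (vert m A ((i + e + 1) * (3 * m + 2) + 3 * m + 1)) ⊆ _
      rw [vert_tp m A hi he, vert_uu m A hj, hb]
      exact h1

/-- (c) `tip_ext` with `k = kcl m i e`, `a = (cl - t) + (cr - t)`, `v = (0, -1)`, `only_tip`, `ray_tip`, `curve_sub_KK`. -/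
theorem tip_nbr (m : ℕ) (hm : 1 ≤ m) (A : ℕ → ℕ → Bool) {i e : ℕ} (hi : i < m) (he : e < m)
    (hb : sl m A i e = true) (l : Fin (NN m))
    (h : (visGraph (poly m A)).Adj ⟨kcl m i e + 1, by have := kcl_lt hi he; omega⟩ l) :
    l.val = kcl m i e ∨ l.val = kcl m i e + 2 ∨ l.val = kuu m i ∨ l.val = kuu m (i + e + 1) := by
  by_contra hc
  push Not at hc
  obtain ⟨c1, c2, c3, c4⟩ := hc
  have hne : l.val ≠ kcl m i e + 1 := by
    intro hl
    exact h.1 (Fin.ext hl.symm)
  have hk2 := kcl_lt hi he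
  set k : Fin (NN m) := ⟨kcl m i e, by omega⟩ with hk
  have hk1 : k + 1 = ⟨kcl m i e + 1, by omega⟩ := by
    apply Fin.ext
    rw [Fin.val_add]
    simp only [hk]
    rw [Fin.val_one']
    rw [Nat.mod_eq_of_lt (by omega : 1 < NN m), Nat.mod_eq_of_lt (by omega)]
  have hk11 : k + 1 + 1 = ⟨kcl m i e + 2, hk2⟩ := by
    rw [hk1]
    apply Fin.ext
    rw [Fin.val_add]
    simp only
    rw [Fin.val_one']
    rw [Nat.mod_eq_of_lt (by omega : 1 < NN m), Nat.mod_eq_of_lt (by omega)]
  have e0 : poly m A k = cl m i e := vert_cl m A hi he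
  have e1 : poly m A (k + 1) = tp m true i e := by
    rw [hk1]
    show vert m A (i * (3 * m + 2) + 3 * e + 1) = _
    rw [vert_tp m A hi he, hb]
  have e2 : poly m A (k + 1 + 1) = cr m i e := by
    rw [hk11]
    exact vert_cr m A hi he
  obtain ⟨δ0, hδ0, hray⟩ := ray_tip m A hi he hb
  have hh := tip_ext (poly m A) (poly_simple m hm A) k (poly m A l)
    ((cl m i e - tp m true i e) + (cr m i e - tp m true i e)) ((0, -1) : ℝ × ℝ) ?_ ?_ ?_ δ0 hδ0 ?_
  · apply hh
    rw [hk1]
    exact h.2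
  · intro α β hα hβ
    rw [e0, e1, e2]
    exact only_tip m A hi he hb l.val l.isLt c1 hne c2 c3 c4 α β hα hβ
  · exact ⟨1, 1, zero_le_one, zero_le_one, by rw [e0, e1, e2, one_smul, one_smul]⟩
  · intro h0
    have := congrArg Prod.snd h0
    simp at this
  · intro δ s hδ hδ' hs hmem
    rw [e1] at hmem
    exact hray δ s hδ hδ' hs (curve_sub_KK m hm A hmem)

/-- (d) the same with `k = m (3 m + 2) + 1`, `only_qq`, `ray_qq`. -/
theorem qq_nbr (m : ℕ) (hm : 1 ≤ m) (A : ℕ → ℕ → Bool) (l : Fin (NN m))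
    (h : (visGraph (poly m A)).Adj ⟨m * (3 * m + 2) + 2, kq_lt m⟩ l) :
    l.val = m * (3 * m + 2) + 1 ∨ l.val = m * (3 * m + 2) + 3 := by
  by_contra hc
  push Not at hc
  obtain ⟨c1, c2⟩ := hc
  have hne : l.val ≠ m * (3 * m + 2) + 2 := by
    intro hl
    exact h.1 (Fin.ext hl.symm)
  have hN : NN m = m * (3 * m + 2) + 5 := rfl
  set k : Fin (NN m) := ⟨m * (3 * m + 2) + 1, by omega⟩ with hk
  have hk1 : k + 1 = ⟨m * (3 * m + 2) + 2, by omega⟩ := by
    apply Fin.ext
    rw [Fin.val_add]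
    simp only [hk]
    rw [Fin.val_one']
    rw [Nat.mod_eq_of_lt (by omega : 1 < NN m), Nat.mod_eq_of_lt (by omega)]
  have hk11 : k + 1 + 1 = ⟨m * (3 * m + 2) + 3, by omega⟩ := by
    rw [hk1]
    apply Fin.ext
    rw [Fin.val_add]
    simp only
    rw [Fin.val_one']
    rw [Nat.mod_eq_of_lt (by omega : 1 < NN m), Nat.mod_eq_of_lt (by omega)]
  have e0 : poly m A k = zz m := vert_zz m A
  have e1 : poly m A (k + 1) = qq m := by
    rw [hk1]
    exact vert_qq m A
  have e2 : poly m A (k + 1 + 1) = aa m := by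
    rw [hk11]
    exact vert_aa m A
  have hh := tip_ext (poly m A) (poly_simple m hm A) k (poly m A l)
    ((zz m - qq m) + (aa m - qq m)) ((-1, 0) : ℝ × ℝ) ?_ ?_ ?_ 1 one_pos ?_
  · apply hh
    rw [hk1]
    exact h.2
  · intro α β hα hβ
    rw [e0, e1, e2]
    exact only_qq m hm A l.val l.isLt c1 hne c2 α β hα hβ
  · exact ⟨1, 1, zero_le_one, zero_le_one, by rw [e0, e1, e2, one_smul, one_smul]⟩
  · intro h0
    have := congrArg Prod.fst h0
    simp at this
  · intro δ s hδ hδ' hs hmem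
    rw [e1] at hmem
    exact ray_qq m A δ s hδ hs (curve_sub_KK m hm A hmem)

end VisDom
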