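import Pool.Agent.Lib_MP_d1a796.Comb

/-!
# Local search
-/

set_option autoImplicit false

namespace VisDom

/-- `D` is a dominating set which no exchange removing at most `k` vertices improves: every dominating set that misses at
most `k` vertices of `D` has at least as many vertices as `D`. -/
def LocalOpt {V : Type*} [DecidableEq V] (G : SimpleGraph V) (k : ℕ) (D : Finset V) : Prop :=
  IsDom G D ∧ ∀ D' : Finset V, IsDom G D' → (D \ D').card ≤ k → D.card ≤ D'.card

/-- The complete bipartite graph with parts `{0, …, k}` and `{k + 1, …, k + N}`. -/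
def biGraph (k N : ℕ) : SimpleGraph (Fin (k + 1 + N)) where
  Adj i j := (i.val ≤ k ∧ k < j.val) ∨ (j.val ≤ k ∧ k < i.val)
  symm := ⟨fun _ _ h => h.symm⟩
  loopless := ⟨fun _ h => by omega⟩

/-- The large part. -/
private def big (k N : ℕ) : Finset (Fin (k + 1 + N)) := Finset.univ.filter (fun i => k < i.val)

private theorem big_card (k N : ℕ) : (big k N).card = N := by
  have h : big k N = Finset.univ.map (Fin.natAddEmb (k + 1)) := by
    ext i
    simp only [big, Finset.mem_filter, Finset.mem_univ, true_and, Finset.mem_map]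
    constructor
    · intro h
      refine ⟨⟨i.val - (k + 1), by omega⟩, ?_⟩
      apply Fin.ext
      simp only [Fin.natAddEmb_apply, Fin.val_natAdd]
      omega
    · rintro ⟨j, rfl⟩
      simp only [Fin.natAddEmb_apply, Fin.val_natAdd]
      omega
  rw [h, Finset.card_map, Finset.card_univ, Fintype.card_fin]

private theorem uv_inj (m : ℕ) : Function.Injective (uv m) := by
  intro i j h
  have h1 : i.val * (3 * m + 2) + 3 * m + 1 = j.val * (3 * m + 2) + 3 * m + 1 := congrArg Fin.val h
  have h2 : i.val * (3 * m + 2) = j.val * (3 * m + 2) := by omega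
  exact Fin.ext (Nat.eq_of_mul_eq_mul_right (by omega) h2)

private theorem room_uv (m : ℕ) (i : Fin m) : room m (uv m i) = some i :=
  room_kuu m i _ (by simp [uv, kuu])

private theorem room_zv (m : ℕ) : room m (zv m) = none :=
  room_last m _ (by simp [zv])

/-- A dominating set `D'` which misses `uv b`, `b > k`, has a vertex of room `i` which is not of room `> k` for every `i ≤ k`. -/
private theorem miss (k N : ℕ) (D' : Finset (Fin (NN (k + 1 + N))))
    (hD' : IsDom (visGraph (polygon (biGraph k N))) D') (b : Fin (k + 1 + N)) (hb : k < b.val)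
    (hbD : uv (k + 1 + N) b ∉ D') (i : Fin (k + 1 + N)) (hi : i.val ≤ k) :
    ∃ x ∈ D', room (k + 1 + N) x = some i := by
  have hij : i < b := by
    show i.val < b.val
    omega
  have hadj : (biGraph k N).Adj i b := Or.inl ⟨hi, hb⟩
  have hs := adjFn_true (biGraph k N) hij hadj
  have hij' : i.val < b.val := hij
  have he : b.val - i.val - 1 < k + 1 + N := by omega
  set e := b.val - i.val - 1 with hedef
  have hk := kcl_lt (m := k + 1 + N) (i := i.val) (e := e) i.isLt he
  rcases hD' ⟨kcl (k + 1 + N) i e + 1, by omega⟩ with hd | ⟨l, hl, hadj'⟩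
  · exact ⟨_, hd, room_slot _ i e 1 he (by norm_num) _ rfl⟩
  · rcases tip_nbr (k + 1 + N) (by omega) (adjFn (biGraph k N)) i.isLt he hs l hadj' with h1 | h1 | h1 | h1
    · exact ⟨l, hl, room_slot _ i e 0 he (by norm_num) _ h1⟩
    · exact ⟨l, hl, room_slot _ i e 2 he (by norm_num) _ h1⟩
    · exact ⟨l, hl, room_kuu _ i l h1⟩
    · exfalso
      apply hbD
      have : l = uv (k + 1 + N) b := by
        apply Fin.ext
        rw [h1]
        have e1 : i.val + e + 1 = b.val := by omega
        rw [e1]
        simp [kuu, uv]
      rw [← this]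
      exact hl

/-- The main step: such a `D'` has at least `k + 1` elements outside `D ⊆ insert zv (uv '' big)`. -/
private theorem miss_card (k N : ℕ) (D D' : Finset (Fin (NN (k + 1 + N))))
    (hsub : D ⊆ forth (k + 1 + N) (big k N))
    (hD' : IsDom (visGraph (polygon (biGraph k N))) D') (b : Fin (k + 1 + N)) (hb : k < b.val)
    (hbD : uv (k + 1 + N) b ∉ D') (hk : (D \ D').card ≤ k) : D.card < D'.card := by
  classical
  choose x hx hr using fun i : Fin (k + 1) => miss k N D' hD' b hb hbD ⟨i.val, by omega⟩
    (by simp only; omega)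
  have hinj : Function.Injective x := by
    intro i j hij
    have h1 := hr i
    rw [hij, hr j] at h1
    have h2 := congrArg Fin.val (Option.some_injective _ h1)
    exact Fin.ext h2.symm
  have hsub' : Finset.univ.image x ⊆ D' \ D := by
    intro y hy
    obtain ⟨i, -, rfl⟩ := Finset.mem_image.1 hy
    refine Finset.mem_sdiff.2 ⟨hx i, ?_⟩
    intro hxD
    have h1 := hsub hxD
    rcases Finset.mem_insert.1 h1 with h2 | h2
    · have := hr i
      rw [h2, room_zv] at this
      exact absurd this (by simp)
    · obtain ⟨j, hj, h3⟩ := Finset.mem_image.1 h2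
      have h4 := hr i
      rw [← h3, room_uv] at h4
      have h5 := congrArg Fin.val (Option.some_injective _ h4)
      have h6 := (Finset.mem_filter.1 hj).2
      simp only at h5
      omega
  have h1 : k + 1 ≤ (D' \ D).card := by
    have := Finset.card_le_card hsub'
    rwa [Finset.card_image_of_injective _ hinj, Finset.card_univ, Fintype.card_fin] at this
  have h2 := Finset.card_sdiff_add_card_inter D D'
  have h3 := Finset.card_sdiff_add_card_inter D' D
  rw [Finset.inter_comm] at h3
  omega

/-- PIECE [VD-L] (160 lines). PROOF. `G = visGraph (polygon (biGraph k N))`, `U = {uv j | k < j}`, `D0 = forth` of the part `{k+1, …}` `= insert zz U` (dominating: `forth_dom`).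
`D := U` if `U` is dominating, otherwise `D := D0`. Let `D'` be dominating with `|D \ D'| ≤ k`, suppose `|D'| < |D|`. If all `uv j`, `k < j`, are in `D'`: then `U ⊆ D'`, so `|D'| ≥ N`; `|D| ≤ N + 1`, so `D = D0`, `|D'| = N`, `D' = U` is dominating, contradiction with the choice.
Otherwise fix `b > k` with `uv b ∉ D'`. For each `i ≤ k` the tip of the spike `(i, b - i - 1)` is dominated by a vertex `x i ∈ D'`, which is the tip, one of its two corners (`tip_nbr`), or `uv i` (not `uv b`):
`room (x i) = some i` (`room_slot`, `room_kuu`), so the `x i` are different and not in `D` (`room` of the elements of `D` is `none` or `some j`, `j > k`). So `|D' \ D| ≥ k + 1 > k ≥ |D \ D'|`, so `|D'| > |D|`, contradiction.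
`gam G ≤ k + 2`: `gam_eq` and the vertex cover `{0, …, k}`. `|D| ≥ N`. -/
theorem local_main (k N : ℕ) : ∃ D : Finset (Fin (NN (k + 1 + N))),
    LocalOpt (visGraph (polygon (biGraph k N))) k D ∧ N ≤ D.card ∧
      gam (visGraph (polygon (biGraph k N))) ≤ k + 2 := by
  classical
  have hm : 1 ≤ k + 1 + N := by omega
  -- the domination number
  have hgam : gam (visGraph (polygon (biGraph k N))) ≤ k + 2 := by
    rw [gam_eq hm]
    have h1 : tau (biGraph k N) ≤ k + 1 := by
      have hc : IsCov (biGraph k N) (Finset.univ.filter (fun i : Fin (k + 1 + N) => i.val ≤ k)) := by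
        intro i j h
        rcases h with h | h
        · exact Or.inl (Finset.mem_filter.2 ⟨Finset.mem_univ _, h.1⟩)
        · exact Or.inr (Finset.mem_filter.2 ⟨Finset.mem_univ _, h.1⟩)
      have h0 : tau (biGraph k N) ≤ (Finset.univ.filter (fun i : Fin (k + 1 + N) => i.val ≤ k)).card :=
        Nat.sInf_le ⟨_, hc, rfl⟩
      refine h0.trans ?_
      · have h2 : (Finset.univ.filter (fun i : Fin (k + 1 + N) => i.val ≤ k)) ⊆
            Finset.univ.map (Fin.castAddEmb N : Fin (k + 1) ↪ Fin (k + 1 + N)) := by
          intro i hi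
          have h3 := (Finset.mem_filter.1 hi).2
          rw [Finset.mem_map]
          exact ⟨⟨i.val, by omega⟩, Finset.mem_univ _, Fin.ext (by simp)⟩
        refine (Finset.card_le_card h2).trans ?_
        rw [Finset.card_map, Finset.card_univ, Fintype.card_fin]
    omega
  have hcov : IsCov (biGraph k N) (big k N) := by
    intro i j h
    rcases h with h | h
    · exact Or.inr (Finset.mem_filter.2 ⟨Finset.mem_univ _, h.2⟩)
    · exact Or.inl (Finset.mem_filter.2 ⟨Finset.mem_univ _, h.2⟩)
  have hD0 := forth_dom hm (biGraph k N) (big k N) hcov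
  set U : Finset (Fin (NN (k + 1 + N))) := (big k N).image (uv (k + 1 + N)) with hU
  have hUc : U.card = N := by
    rw [hU, Finset.card_image_of_injective _ (uv_inj _), big_card]
  have hD0e : forth (k + 1 + N) (big k N) = insert (zv (k + 1 + N)) U := rfl
  have hzU : zv (k + 1 + N) ∉ U := by
    intro h
    obtain ⟨j, -, h3⟩ := Finset.mem_image.1 h
    have h4 := room_uv (k + 1 + N) j
    rw [h3, room_zv] at h4
    exact absurd h4 (by simp)
  have hD0c : (forth (k + 1 + N) (big k N)).card = N + 1 := by
    rw [hD0e, Finset.card_insert_of_notMem hzU, hUc]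
  -- `D'` contains `U` or is large
  have key : ∀ D D' : Finset (Fin (NN (k + 1 + N))), D ⊆ forth (k + 1 + N) (big k N) →
      IsDom (visGraph (polygon (biGraph k N))) D' → (D \ D').card ≤ k → U ⊆ D' ∨ D.card < D'.card := by
    intro D D' h1 h2 h3
    by_cases hUD : U ⊆ D'
    · exact Or.inl hUD
    · right
      rw [Finset.not_subset] at hUD
      obtain ⟨y, hy, hyD⟩ := hUD
      obtain ⟨b, hb, rfl⟩ := Finset.mem_image.1 hy
      exact miss_card k N D D' h1 h2 b (Finset.mem_filter.1 hb).2 hyD h3
  by_cases hUdom : IsDom (visGraph (polygon (biGraph k N))) U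
  · refine ⟨U, ⟨hUdom, ?_⟩, hUc.ge, hgam⟩
    intro D' hD' hk
    rcases key U D' (by rw [hD0e]; exact Finset.subset_insert _ _) hD' hk with h | h
    · exact Finset.card_le_card h
    · exact h.le
  · refine ⟨forth (k + 1 + N) (big k N), ⟨hD0, ?_⟩, by omega, hgam⟩
    intro D' hD' hk
    rcases key _ D' (Finset.Subset.refl _) hD' hk with h | h
    · rw [hD0c]
      have h1 : U ≠ D' := by
        rintro rfl
        exact hUdom hD'
      have h2 := Finset.card_lt_card (h.ssubset_of_ne h1)
      omega
    · exact h.le

end VisDom
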