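import Pool.Agent.Lib_MP_d1a796.ConeA
import Pool.Agent.Lib_MP_d1a796.ConeB
import Pool.Agent.Lib_MP_d1a796.ConeC
import Pool.Agent.Lib_MP_d1a796.Edges

/-!
# No other vertex is in the cone of the tip of a spike
-/

set_option autoImplicit false

namespace VisDom

private theorem o_small (m : ℕ) : 1 / (8 * ((m : ℝ) + 2)) < 1 / 5 := by
  have hm : (0 : ℝ) ≤ m := Nat.cast_nonneg m
  apply one_div_lt_one_div_of_lt (by norm_num)
  linarith

private theorem o_bd {m k e' : ℕ} (hk : k < m) (he' : e' < m) (w : ℝ × ℝ)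
    (h2 : w.1 ≤ xo k e' + ep m) (h3 : 0 ≤ dep k w) : w.1 < k + 1 ∧ w.1 ≤ m ∧ w.2 ≤ (m : ℝ) ^ 2 := by
  have hx := xo_upper k he'
  have hk' : (k : ℝ) + 1 ≤ m := by exact_mod_cast hk
  have hk0 : (0 : ℝ) ≤ k := Nat.cast_nonneg k
  have h4 : w.1 < k + 1 := by linarith
  refine ⟨h4, by linarith, ?_⟩
  unfold dep W at h3
  nlinarith

private theorem o_slot (m : ℕ) {i e k e' : ℕ} (he : e < m) (he' : e' < m) (hk : k < m) (w : ℝ × ℝ)
    (h1 : zL k e' ≤ w.1) (h2 : w.1 ≤ xo k e' + ep m) (h3 : 0 ≤ dep k w) (h4 : dep k w ≤ 1 / 5)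
    (hs : k = i → 1 / (8 * ((m : ℝ) + 2)) < |dev i (i + e + 1) w|) (α β : ℝ) (hα : 0 ≤ α) (hβ : 0 ≤ β) :
    w - tp m true i e ≠ α • (cl m i e - tp m true i e) + β • (cr m i e - tp m true i e) := by
  obtain ⟨b1, b2, b3⟩ := o_bd hk he' w h2 h3
  apply not_cone m he w b3 _ α β hα hβ
  intro ht
  rw [tp_fst] at ht
  simp only [if_true] at ht
  have hz := zL_lower i e
  have hz' := zL_lower k e'
  have h5 : (i : ℝ) < (k : ℝ) + 1 := by linarith
  have h6 : i < k + 1 := by exact_mod_cast h5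
  rcases Nat.lt_or_ge i k with h7 | h7
  · have h8 := dev_far i (i + e + 1) k (by omega) h7 w (k + 1 - w.1) (by ring) (by linarith) (by linarith) h3 h4
    exact lt_of_lt_of_le (o_small m) h8
  · exact hs (by omega)

private theorem o_cl (m k e' : ℕ) : dep k (cl m k e') = 0 := by
  unfold dep cl; simp

private theorem o_cr (m k e' : ℕ) : dep k (cr m k e') = 0 := by
  unfold dep cr; simp

private theorem o_tp (m : ℕ) (b : Bool) {k e' : ℕ} (he' : e' < m) :
    zL k e' ≤ (tp m b k e').1 ∧ (tp m b k e').1 ≤ xo k e' + ep m := by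
  rw [tp_fst]
  have h1 := zL_lt k he'
  have h2 := ep_pos m
  cases b
  · simp only [Bool.false_eq_true, if_false]
    constructor <;> linarith
  · simp only [if_true]
    constructor <;> linarith

/-- PIECE [VD-O] (120 lines). PROOF. `ix_cases` for `l` and the `vert_…` lemmas; `t.1 = zL i e > i` (`tp_fst`, `zL_lower`).
Slot vertex of room `k`, slot `e'`: `not_cone` (its ordinate is `≤ W k (k+1) ≤ m ^ 2`); if `t.1 ≤ w.1` then `k ≥ i` (`w.1 < k + 1`: `xo_upper`, `tp_fst`); `k = i`: `e' ≠ e` and `dev_same`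
(the tip has `b = sl m A k e'`); `k > i`: `dev_far` (`a = k + 1 - w.1`: `1/(e'+3) ± ε` or `2/(2e'+5)`, `D = 0` or `hh ≤ 1/5`) and `1/(8(m+2)) < 1/5`.
`BB k`: `not_cone`, `k ≥ i`, `dev_BB`. `uu (k + 1)`: `not_cone`, `dev_uu`. `RR`: `not_cone_RR`. `zz`, `qq`, `aa`, `uu 0`: abscissa `≤ 0 < t.1`, contradiction with the first part of `cone_bound`. -/
theorem only_tip (m : ℕ) (A : ℕ → ℕ → Bool) {i e : ℕ} (hi : i < m) (he : e < m) (hb : sl m A i e = true)
    (l : ℕ) (hl : l < NN m)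
    (h1 : l ≠ i * (3 * m + 2) + 3 * e) (h2 : l ≠ i * (3 * m + 2) + 3 * e + 1)
    (h3 : l ≠ i * (3 * m + 2) + 3 * e + 2) (h4 : l ≠ i * (3 * m + 2) + 3 * m + 1)
    (h5 : l ≠ (i + e + 1) * (3 * m + 2) + 3 * m + 1) (α β : ℝ) (hα : 0 ≤ α) (hβ : 0 ≤ β) :
    vert m A l - tp m true i e ≠ α • (cl m i e - tp m true i e) + β • (cr m i e - tp m true i e) := by
  have hij : i + e + 1 < m := by
    unfold sl at hb
    simp only [Bool.and_eq_true, decide_eq_true_eq] at hb
    exact hb.1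
  have hmR : (0 : ℝ) ≤ m := Nat.cast_nonneg m
  have hε := ep_pos m
  have hz := zL_lower i e
  have hi0 : (0 : ℝ) ≤ i := Nat.cast_nonneg i
  rcases ix_cases m l hl with ⟨k, e', hk, he', rfl⟩ | ⟨k, e', hk, he', rfl⟩ | ⟨k, e', hk, he', rfl⟩ |
    ⟨k, hk, rfl⟩ | ⟨k, hk, rfl⟩ | rfl | rfl | rfl | rfl | rfl
  · rw [vert_cl m A hk he']
    have hzk := zL_lt k he'
    apply o_slot m he he' hk (cl m k e') _ _ _ _ _ α β hα hβ
    · show zL k e' ≤ xo k e' - ep m
      exact hzk.le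
    · show xo k e' - ep m ≤ xo k e' + ep m
      linarith
    · rw [o_cl]
    · rw [o_cl]; norm_num
    · rintro rfl
      have hne : e' ≠ e := by rintro rfl; exact h1 rfl
      exact (dev_same m he he' hne true).1
  · rw [vert_tp m A hk he']
    obtain ⟨q1, q2⟩ := o_tp m (sl m A k e') (k := k) he'
    apply o_slot m he he' hk (tp m (sl m A k e') k e') q1 q2 _ _ _ α β hα hβ
    · rw [dep_tp]; exact (hh_pos _ _ _).le
    · rw [dep_tp]; exact hh_le _ _ _
    · rintro rfl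
      have hne : e' ≠ e := by rintro rfl; exact h2 rfl
      exact (dev_same m he he' hne _).2.2
  · rw [vert_cr m A hk he']
    have hzk := zL_lt k he'
    apply o_slot m he he' hk (cr m k e') _ _ _ _ _ α β hα hβ
    · show zL k e' ≤ xo k e' + ep m
      linarith
    · show xo k e' + ep m ≤ xo k e' + ep m
      exact le_refl _
    · rw [o_cr]
    · rw [o_cr]; norm_num
    · rintro rfl
      have hne : e' ≠ e := by rintro rfl; exact h3 rfl
      exact (dev_same m he he' hne true).2.1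
  · rw [vert_BB m A hk]
    have hkR : (k : ℝ) + 1 ≤ m := by exact_mod_cast hk
    have hk0 : (0 : ℝ) ≤ k := Nat.cast_nonneg k
    apply not_cone m he (BB k) _ _ α β hα hβ
    · show ((k : ℝ) + 1) ^ 2 - 1 ≤ (m : ℝ) ^ 2
      nlinarith
    · intro ht
      rw [tp_fst] at ht
      simp only [if_true] at ht
      have ht' : zL i e ≤ (k : ℝ) + 1 := ht
      have h5' : (i : ℝ) < (k : ℝ) + 1 := by linarith
      have h6' : i < k + 1 := by exact_mod_cast h5'
      have h8 := dev_BB i (i + e + 1) k (by omega) (by omega)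
      have := o_small m
      linarith
  · rw [vert_uu m A hk]
    have hkR : (k : ℝ) + 1 ≤ m := by exact_mod_cast hk
    have hk0 : (0 : ℝ) ≤ k := Nat.cast_nonneg k
    have n1 : k ≠ i := by rintro rfl; exact h4 rfl
    have n2 : k ≠ i + e + 1 := by rintro rfl; exact h5 rfl
    apply not_cone m he (uu (k + 1)) _ _ α β hα hβ
    · show ((k + 1 : ℕ) : ℝ) ^ 2 ≤ (m : ℝ) ^ 2
      push_cast
      nlinarith
    · intro _
      have h8 := dev_uu i (i + e + 1) (k + 1) (by omega) (by omega)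
      have := o_small m
      linarith
  · rw [vert_RR]
    exact not_cone_RR m hij α β hα hβ
  · rw [vert_zz]
    intro hw
    have h8 := (cone_bound m he (zz m) α β hα hβ hw).1
    rw [tp_fst] at h8
    simp only [if_true] at h8
    have h9 : zL i e ≤ 0 := h8
    linarith
  · rw [vert_qq]
    intro hw
    have h8 := (cone_bound m he (qq m) α β hα hβ hw).1
    rw [tp_fst] at h8
    simp only [if_true] at h8
    have h9 : zL i e ≤ -1 := h8
    linarith
  · rw [vert_aa]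
    intro hw
    have h8 := (cone_bound m he (aa m) α β hα hβ hw).1
    rw [tp_fst] at h8
    simp only [if_true] at h8
    have h9 : zL i e ≤ 0 := h8
    linarith
  · rw [vert_u0]
    intro hw
    have h8 := (cone_bound m he (uu 0) α β hα hβ hw).1
    rw [tp_fst] at h8
    simp only [if_true] at h8
    have h9 : zL i e ≤ ((0 : ℕ) : ℝ) := h8
    push_cast at h9
    linarith

/-- (same piece) The cone of `qq m`: PROOF. `zz - qq = (1, -1)`, `aa - qq = (1, -2)`: a point of the cone has `-2 (w.1 + 1) ≤ w.2 - (Y + 1) ≤ -(w.1 + 1)`. Not `RR` (`m ≥ 1`), and the other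
vertices have `0 ≤ w.1 ≤ m`, `w.2 ≤ m ^ 2`. -/
theorem only_qq (m : ℕ) (hm : 1 ≤ m) (A : ℕ → ℕ → Bool) (l : ℕ) (hl : l < NN m)
    (h1 : l ≠ m * (3 * m + 2) + 1) (h2 : l ≠ m * (3 * m + 2) + 2) (h3 : l ≠ m * (3 * m + 2) + 3)
    (α β : ℝ) (hα : 0 ≤ α) (hβ : 0 ≤ β) :
    vert m A l - qq m ≠ α • (zz m - qq m) + β • (aa m - qq m) := by
  intro hw
  have hw1 : (vert m A l).1 + 1 = α + β := by
    have := congrArg Prod.fst hw
    simp only [Prod.fst_sub, Prod.fst_add, Prod.smul_fst, smul_eq_mul, qq, zz, aa] at this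
    linarith
  have hw2 : (vert m A l).2 = Yt m + 1 - α - 2 * β := by
    have := congrArg Prod.snd hw
    simp only [Prod.snd_sub, Prod.snd_add, Prod.smul_snd, smul_eq_mul, qq, zz, aa] at this
    linarith
  have hmR : (1 : ℝ) ≤ m := by exact_mod_cast hm
  have hY := Yt_big m
  have hε := ep_pos m
  have key : ∀ w : ℝ × ℝ, w.1 ≤ m → w.2 ≤ (m : ℝ) ^ 2 → vert m A l = w → False := by
    intro w a1 a2 a3
    rw [a3] at hw1 hw2
    nlinarith
  rcases ix_cases m l hl with ⟨k, e', hk, he', rfl⟩ | ⟨k, e', hk, he', rfl⟩ | ⟨k, e', hk, he', rfl⟩ |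
    ⟨k, hk, rfl⟩ | ⟨k, hk, rfl⟩ | rfl | rfl | rfl | rfl | rfl
  · obtain ⟨-, c1, c2⟩ := o_bd hk he' (cl m k e') (by show xo k e' - ep m ≤ xo k e' + ep m; linarith)
      (by rw [o_cl])
    exact key _ c1 c2 (vert_cl m A hk he')
  · obtain ⟨-, c1, c2⟩ := o_bd hk he' (tp m (sl m A k e') k e') (o_tp m _ he').2
      (by rw [dep_tp]; exact (hh_pos _ _ _).le)
    exact key _ c1 c2 (vert_tp m A hk he')
  · obtain ⟨-, c1, c2⟩ := o_bd hk he' (cr m k e') (le_refl _) (by rw [o_cr])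
    exact key _ c1 c2 (vert_cr m A hk he')
  · have hkR : (k : ℝ) + 1 ≤ m := by exact_mod_cast hk
    have hk0 : (0 : ℝ) ≤ k := Nat.cast_nonneg k
    apply key (BB k) _ _ (vert_BB m A hk)
    · show (k : ℝ) + 1 ≤ m
      exact hkR
    · show ((k : ℝ) + 1) ^ 2 - 1 ≤ (m : ℝ) ^ 2
      nlinarith
  · have hkR : (k : ℝ) + 1 ≤ m := by exact_mod_cast hk
    have hk0 : (0 : ℝ) ≤ k := Nat.cast_nonneg k
    apply key (uu (k + 1)) _ _ (vert_uu m A hk)
    · show ((k + 1 : ℕ) : ℝ) ≤ m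
      push_cast
      exact hkR
    · show ((k + 1 : ℕ) : ℝ) ^ 2 ≤ (m : ℝ) ^ 2
      push_cast
      nlinarith
  · rw [vert_RR] at hw1 hw2
    have e1 : (m : ℝ) + 1 = α + β := hw1
    have e2 : Yt m = Yt m + 1 - α - 2 * β := hw2
    linarith
  · exact h1 rfl
  · exact h2 rfl
  · exact h3 rfl
  · apply key (uu 0) _ _ (vert_u0 m A)
    · show ((0 : ℕ) : ℝ) ≤ m
      push_cast
      linarith
    · show ((0 : ℕ) : ℝ) ^ 2 ≤ (m : ℝ) ^ 2
      push_cast
      nlinarith

end VisDom
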