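import Pool.Agent.Lib_MP_d1a796.Defs

/-!
# Inequalities between the parameters
-/

set_option autoImplicit false

namespace VisDom

/-- Left end of the zone of slot `(i, e)` (the abscissa of the tip of a spike). -/
noncomputable def zL (i e : ℕ) : ℝ := i + 1 - 2 / (2 * (e : ℝ) + 5)

theorem ep_pos (m : ℕ) : 0 < ep m := by
  unfold ep; positivity

theorem ep_mul (m : ℕ) : ep m * (16 * ((m : ℝ) + 2) ^ 5) = 1 := by
  unfold ep
  have : (16 * ((m : ℝ) + 2) ^ 5) ≠ 0 := by positivity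
  field_simp

theorem ep_small (m : ℕ) : ep m ≤ 1 / 512 := by
  unfold ep
  apply one_div_le_one_div_of_le (by norm_num)
  have h : (2 : ℝ) ≤ (m : ℝ) + 2 := by
    have : (0 : ℝ) ≤ m := Nat.cast_nonneg m
    linarith
  calc (512 : ℝ) = 16 * 2 ^ 5 := by norm_num
    _ ≤ 16 * ((m : ℝ) + 2) ^ 5 := by gcongr

/-- `ε ≤ 1 / (8 L ^ 2)`-type bounds. -/
theorem ep_le_sq (m : ℕ) : ep m * (2 * ((m : ℝ) + 2) ^ 2) ≤ 1 / 8 := by
  have h0 := ep_mul m
  have h1 := ep_pos m
  have hm : (0 : ℝ) ≤ m := Nat.cast_nonneg m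
  have h2 : 16 * (2 * ((m : ℝ) + 2) ^ 2) ≤ 2 * (16 * ((m : ℝ) + 2) ^ 5) / 8 := by
    have h3 : (2 : ℝ) ≤ (m : ℝ) + 2 := by linarith
    have h4 : (2 : ℝ) ^ 3 ≤ ((m : ℝ) + 2) ^ 3 := by gcongr
    have h5 : ((m : ℝ) + 2) ^ 5 = ((m : ℝ) + 2) ^ 2 * ((m : ℝ) + 2) ^ 3 := by ring
    have h6 : 0 ≤ ((m : ℝ) + 2) ^ 2 := by positivity
    rw [h5]
    nlinarith
  nlinarith

theorem Yt_big (m : ℕ) : 2 * ((m : ℝ) + 2) ^ 2 + 10 ≤ Yt m := by
  unfold Yt
  have hm : (0 : ℝ) ≤ m := Nat.cast_nonneg m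
  nlinarith [sq_nonneg (m : ℝ), mul_nonneg hm hm, mul_nonneg hm (mul_nonneg hm hm)]

theorem hh_pos (m : ℕ) (b : Bool) (e : ℕ) : 0 < hh m b e := by
  unfold hh
  split_ifs
  · positivity
  · exact ep_pos m

theorem hh_le (m : ℕ) (b : Bool) (e : ℕ) : hh m b e ≤ 1 / 5 := by
  unfold hh
  split_ifs
  · apply one_div_le_one_div_of_le (by norm_num)
    have : (0 : ℝ) ≤ e := Nat.cast_nonneg e
    linarith
  · exact (ep_small m).trans (by norm_num)

theorem xo_lower (i e : ℕ) : (i : ℝ) + 2 / 3 ≤ xo i e := by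
  unfold xo
  have h : 1 / ((e : ℝ) + 3) ≤ 1 / 3 := by
    apply one_div_le_one_div_of_le (by norm_num)
    have : (0 : ℝ) ≤ e := Nat.cast_nonneg e
    linarith
  linarith

theorem zL_lower (i e : ℕ) : (i : ℝ) + 3 / 5 ≤ zL i e := by
  unfold zL
  have h : 2 / (2 * (e : ℝ) + 5) ≤ 2 / 5 := by
    apply div_le_div_of_nonneg_left (by norm_num) (by norm_num)
    have : (0 : ℝ) ≤ e := Nat.cast_nonneg e
    linarith
  linarith

/-- The gap on the right of the last opening. -/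
theorem xo_upper {m e : ℕ} (i : ℕ) (he : e < m) : xo i e + ep m < i + 1 := by
  unfold xo
  have h0 := ep_pos m
  have h1 := ep_le_sq m
  have hm : (0 : ℝ) ≤ m := Nat.cast_nonneg m
  have he' : (e : ℝ) + 1 ≤ m := by exact_mod_cast he
  have he0 : (0 : ℝ) ≤ e := Nat.cast_nonneg e
  have h2 : ep m < 1 / ((e : ℝ) + 3) := by
    rw [lt_div_iff₀ (by positivity)]
    nlinarith
  linarith

theorem zL_lt {m e : ℕ} (i : ℕ) (he : e < m) : zL i e < xo i e - ep m := by
  unfold zL xo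
  have h0 := ep_pos m
  have h1 := ep_le_sq m
  have hm : (0 : ℝ) ≤ m := Nat.cast_nonneg m
  have he' : (e : ℝ) + 1 ≤ m := by exact_mod_cast he
  have he0 : (0 : ℝ) ≤ e := Nat.cast_nonneg e
  have h2 : 2 / (2 * (e : ℝ) + 5) - 1 / ((e : ℝ) + 3) = 1 / ((2 * (e : ℝ) + 5) * ((e : ℝ) + 3)) := by
    field_simp
    ring
  have h3 : ep m < 1 / ((2 * (e : ℝ) + 5) * ((e : ℝ) + 3)) := by
    rw [lt_div_iff₀ (by positivity)]
    have h4 : (2 * (e : ℝ) + 5) * ((e : ℝ) + 3) ≤ 2 * ((m : ℝ) + 2) ^ 2 := by nlinarith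
    nlinarith
  linarith

/-- The zones of different slots of one room are disjoint. -/
theorem zone_lt {m e e' : ℕ} (i : ℕ) (hee : e < e') (he' : e' < m) : xo i e + ep m < zL i e' := by
  unfold zL xo
  have h0 := ep_pos m
  have h1 := ep_le_sq m
  have hm : (0 : ℝ) ≤ m := Nat.cast_nonneg m
  have h5 : (e' : ℝ) + 1 ≤ m := by exact_mod_cast he'
  have h6 : (e : ℝ) + 1 ≤ e' := by exact_mod_cast hee
  have he0 : (0 : ℝ) ≤ e := Nat.cast_nonneg e
  have h7 : 2 / (2 * (e' : ℝ) + 5) ≤ 2 / (2 * (e : ℝ) + 7) := by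
    apply div_le_div_of_nonneg_left (by norm_num) (by positivity)
    linarith
  have h2 : 1 / ((e : ℝ) + 3) - 2 / (2 * (e : ℝ) + 7) = 1 / ((2 * (e : ℝ) + 7) * ((e : ℝ) + 3)) := by
    field_simp
    ring
  have h3 : ep m < 1 / ((2 * (e : ℝ) + 7) * ((e : ℝ) + 3)) := by
    rw [lt_div_iff₀ (by positivity)]
    have h4 : (2 * (e : ℝ) + 7) * ((e : ℝ) + 3) ≤ 2 * ((m : ℝ) + 2) ^ 2 := by nlinarith
    nlinarith
  linarith

/-- The abscissa of the tip. -/
theorem tp_fst (m : ℕ) (b : Bool) (i e : ℕ) :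
    (tp m b i e).1 = if b then zL i e else xo i e := by
  unfold tp ka hh zL xo
  split_ifs
  · simp only
    field_simp
    ring
  · simp

theorem dep_tp (m : ℕ) (b : Bool) (i e : ℕ) : dep i (tp m b i e) = hh m b e := by
  unfold dep tp
  simp

/-- All points of the triangle of slot `(i, e)` have their abscissa in the zone of the slot. -/
theorem tri_zone {m : ℕ} {b : Bool} {i e : ℕ} (he : e < m) {p : ℝ × ℝ} (hp : p ∈ tri m b i e) :
    zL i e ≤ p.1 ∧ p.1 ≤ xo i e + ep m ∧ dep i p ≤ hh m b e := by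
  obtain ⟨h1, h2, h3⟩ := hp
  have hε := ep_pos m
  have hh0 := hh_pos m b e
  have hz := zL_lt i he
  set D := dep i p with hD
  have hDh : D ≤ hh m b e := by
    by_contra hc
    push Not at hc
    have : ep m * (hh m b e - D) < 0 := mul_neg_of_pos_of_neg hε (by linarith)
    linarith
  refine ⟨?_, ?_, hDh⟩
  · -- `x ≥ xo + κ D - ε (1 - D / h)`, and `xo + κ h ≥ zL`, `xo - ε ≥ zL`
    have hk : xo i e + ka b e * hh m b e ≥ zL i e := by
      have := tp_fst m b i e
      unfold tp at this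
      simp only at this
      rw [this]
      split_ifs
      · exact le_refl _
      · linarith
    have e1 : hh m b e * (p.1 - zL i e) =
        hh m b e * (p.1 - xo i e - ka b e * D) + D * (xo i e + ka b e * hh m b e - zL i e) +
          (hh m b e - D) * (xo i e - zL i e) := by ring
    have e2 : 0 ≤ D * (xo i e + ka b e * hh m b e - zL i e) := mul_nonneg h1 (by linarith)
    have e3 : (hh m b e - D) * ep m ≤ (hh m b e - D) * (xo i e - zL i e) :=
      mul_le_mul_of_nonneg_left (by linarith) (by linarith)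
    have e4 : 0 ≤ hh m b e * (p.1 - zL i e) := by
      rw [e1]; nlinarith
    have := nonneg_of_mul_nonneg_right e4 hh0
    linarith
  · have hk : ka b e ≤ 0 := by
      unfold ka
      split_ifs
      · have : 0 < 1 / ((e : ℝ) + 3) := by positivity
        linarith
      · exact le_refl _
    have e1 : hh m b e * (p.1 - xo i e - ka b e * D) ≤ ep m * hh m b e := by
      have : 0 ≤ ep m * D := by positivity
      nlinarith
    have e2 : p.1 - xo i e - ka b e * D ≤ ep m := by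
      rw [mul_comm (ep m)] at e1
      exact le_of_mul_le_mul_left e1 hh0
    nlinarith

end VisDom
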