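import Pool.Agent.Lib_MP_d1a796.Edges

/-!
# The coordinates are fractions of polynomial size
-/

set_option autoImplicit false

namespace VisDom

/-- `x` is a fraction `p / r` with `0 < r ≤ 16 (m + 2) ^ 6`, `|p| ≤ 400 (m + 2) ^ 9`. -/
def IsFrac (m : ℕ) (x : ℝ) : Prop :=
  ∃ (p : ℤ) (r : ℕ), 0 < r ∧ r ≤ 16 * (m + 2) ^ 6 ∧ |p| ≤ 400 * ((m : ℤ) + 2) ^ 9 ∧ x = p / r

private theorem frac_of (m : ℕ) {x : ℝ} {r : ℕ} {p : ℤ} (hr : 0 < r) (hr2 : r ≤ 16 * (m + 2) ^ 6)
    (hx : x * r = p) (hb : |x| ≤ 25 * ((m : ℝ) + 2) ^ 3) : IsFrac m x := by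
  refine ⟨p, r, hr, hr2, ?_, ?_⟩
  · have h1 : |(p : ℝ)| ≤ 400 * ((m : ℝ) + 2) ^ 9 := by
      have h2 : (r : ℝ) ≤ 16 * ((m : ℝ) + 2) ^ 6 := by exact_mod_cast hr2
      have h3 : (0 : ℝ) ≤ r := Nat.cast_nonneg r
      rw [← hx, abs_mul, abs_of_nonneg h3]
      calc |x| * r ≤ 25 * ((m : ℝ) + 2) ^ 3 * (16 * ((m : ℝ) + 2) ^ 6) := by gcongr
        _ = _ := by ring
    exact_mod_cast h1
  · rw [eq_div_iff (by exact_mod_cast hr.ne'), hx]

private theorem L_bounds (m : ℕ) : (2 : ℝ) ≤ (m : ℝ) + 2 ∧ ((m : ℝ) + 2) ≤ ((m : ℝ) + 2) ^ 3 ∧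
    ((m : ℝ) + 2) ^ 2 ≤ ((m : ℝ) + 2) ^ 3 ∧ (1 : ℝ) ≤ ((m : ℝ) + 2) ^ 3 := by
  have hm : (0 : ℝ) ≤ m := Nat.cast_nonneg m
  have h0 : (1 : ℝ) ≤ (m : ℝ) + 2 := by linarith
  refine ⟨by linarith, le_self_pow₀ h0 (by norm_num), pow_le_pow_right₀ h0 (by norm_num),
    one_le_pow₀ h0⟩

private theorem bd_x {m i : ℕ} (hi : i < m) {x : ℝ} (h1 : (i : ℝ) ≤ x) (h2 : x ≤ i + 1) :
    |x| ≤ 25 * ((m : ℝ) + 2) ^ 3 ∧ |W i x| ≤ 20 * ((m : ℝ) + 2) ^ 3 := by
  obtain ⟨a1, a2, a3, a4⟩ := L_bounds m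
  have hi' : (i : ℝ) + 1 ≤ m := by exact_mod_cast hi
  have hi0 : (0 : ℝ) ≤ i := Nat.cast_nonneg i
  constructor
  · rw [abs_le]
    constructor <;> linarith
  · have h3 : W i x = (i : ℝ) ^ 2 + 2 * i * (x - i) := by
      unfold W
      ring
    have h4 : 0 ≤ 2 * (i : ℝ) * (x - i) := mul_nonneg (by positivity) (by linarith)
    have h5 : 2 * (i : ℝ) * (x - i) ≤ 2 * i * 1 :=
      mul_le_mul_of_nonneg_left (by linarith) (by positivity)
    have h6 : (i : ℝ) ^ 2 + 2 * i ≤ ((m : ℝ) + 2) ^ 2 := by nlinarith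
    rw [h3, abs_le]
    constructor <;> nlinarith [sq_nonneg (i : ℝ)]

private theorem bd_int (m : ℕ) {n : ℤ} (h : |(n : ℝ)| ≤ 25 * ((m : ℝ) + 2) ^ 3) :
    IsFrac m (n : ℝ) := by
  refine frac_of m (r := 1) (p := n) one_pos ?_ (by simp) h
  have : 1 ≤ (m + 2) ^ 6 := Nat.one_le_pow _ _ (by omega)
  omega

private theorem r_big {m e : ℕ} (he : e < m) : 16 * (m + 2) ^ 5 * (e + 3) ≤ 16 * (m + 2) ^ 6 := by
  calc 16 * (m + 2) ^ 5 * (e + 3) ≤ 16 * (m + 2) ^ 5 * (m + 2) :=
        Nat.mul_le_mul_left _ (by omega)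
    _ = 16 * (m + 2) ^ 6 := by ring

private theorem r_small {m e : ℕ} (he : e < m) : 2 * e + 5 ≤ 16 * (m + 2) ^ 6 := by
  have h : (m + 2) ^ 1 ≤ (m + 2) ^ 6 := Nat.pow_le_pow_right (by omega) (by norm_num)
  rw [pow_one] at h
  omega

/-- `xo + c ε` and `W i (xo + c ε) - d ε` for integers `c`, `d`. -/
private theorem frac_xo {m i e : ℕ} (hi : i < m) (he : e < m) (c d : ℤ) (hc : |c| ≤ 1) (hd : |d| ≤ 1) :
    IsFrac m (xo i e + c * ep m) ∧ IsFrac m (W i (xo i e + c * ep m) - d * ep m) := by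
  have hu := xo_upper i he
  have hl := xo_lower i e
  have hp := ep_pos m
  have hs := ep_small m
  obtain ⟨a1, a2, a3, a4⟩ := L_bounds m
  have hc' : |(c : ℝ)| ≤ 1 := by exact_mod_cast hc
  have hd' : |(d : ℝ)| ≤ 1 := by exact_mod_cast hd
  have c1 := (abs_le.1 hc').1
  have c2 := (abs_le.1 hc').2
  have d1 := (abs_le.1 hd').1
  have d2 := (abs_le.1 hd').2
  have h1 : (i : ℝ) ≤ xo i e + c * ep m := by nlinarith
  have h2 : xo i e + c * ep m ≤ i + 1 := by nlinarith
  obtain ⟨b1, b2⟩ := bd_x hi h1 h2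
  have hr : 0 < 16 * (m + 2) ^ 5 * (e + 3) := by positivity
  have he0 : ((e : ℝ) + 3) ≠ 0 := by positivity
  have hL0 : ((m : ℝ) + 2) ≠ 0 := by positivity
  constructor
  · refine frac_of m (p := ((i : ℤ) + 1) * (16 * ((m : ℤ) + 2) ^ 5 * ((e : ℤ) + 3)) -
      16 * ((m : ℤ) + 2) ^ 5 + c * ((e : ℤ) + 3)) hr (r_big he) ?_ b1
    unfold xo ep
    push_cast
    field_simp
  · refine frac_of m (p := 2 * (i : ℤ) * (((i : ℤ) + 1) * (16 * ((m : ℤ) + 2) ^ 5 * ((e : ℤ) + 3)) -
      16 * ((m : ℤ) + 2) ^ 5 + c * ((e : ℤ) + 3)) - (i : ℤ) ^ 2 * (16 * ((m : ℤ) + 2) ^ 5 *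
      ((e : ℤ) + 3)) - d * ((e : ℤ) + 3)) hr (r_big he) ?_ ?_
    · unfold W xo ep
      push_cast
      field_simp
    · have b3 := (abs_le.1 b2).1
      have b4 := (abs_le.1 b2).2
      rw [abs_le]
      constructor <;> nlinarith

private theorem frac_zL {m i e : ℕ} (hi : i < m) (he : e < m) :
    IsFrac m (zL i e) ∧ IsFrac m (W i (zL i e) - 1 / (2 * (e : ℝ) + 5)) := by
  have hu := xo_upper i he
  have hz := zL_lt i he
  have hl := zL_lower i e
  have hp := ep_pos m
  obtain ⟨a1, a2, a3, a4⟩ := L_bounds m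
  obtain ⟨b1, b2⟩ := bd_x (x := zL i e) hi (by linarith) (by linarith)
  have he0 : (2 * (e : ℝ) + 5) ≠ 0 := by positivity
  constructor
  · refine frac_of m (r := 2 * e + 5) (p := ((i : ℤ) + 1) * (2 * (e : ℤ) + 5) - 2) (by omega)
      (r_small he) ?_ b1
    unfold zL
    push_cast
    field_simp
  · refine frac_of m (r := 2 * e + 5) (p := 2 * (i : ℤ) * (((i : ℤ) + 1) * (2 * (e : ℤ) + 5) - 2) -
      (i : ℤ) ^ 2 * (2 * (e : ℤ) + 5) - 1) (by omega) (r_small he) ?_ ?_
    · unfold W zL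
      push_cast
      field_simp
    · have h1 : 0 < 1 / (2 * (e : ℝ) + 5) := by positivity
      have h2 : 1 / (2 * (e : ℝ) + 5) ≤ 1 := by
        rw [div_le_one (by positivity)]
        have : (0 : ℝ) ≤ e := Nat.cast_nonneg e
        linarith
      have b3 := (abs_le.1 b2).1
      have b4 := (abs_le.1 b2).2
      rw [abs_le]
      constructor <;> linarith

private theorem frac_uu {m k : ℕ} (hk : k ≤ m) : IsFrac m (uu k).1 ∧ IsFrac m (uu k).2 := by
  obtain ⟨a1, a2, a3, a4⟩ := L_bounds m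
  have hk' : (k : ℝ) ≤ m := by exact_mod_cast hk
  have hk0 : (0 : ℝ) ≤ k := Nat.cast_nonneg k
  unfold uu
  constructor
  · have h := bd_int m (n := (k : ℤ)) (by
      push_cast
      rw [abs_le]
      constructor <;> linarith)
    simpa using h
  · have h := bd_int m (n := (k : ℤ) ^ 2) (by
      push_cast
      rw [abs_le]
      constructor <;> nlinarith)
    simpa using h

/-- PIECE [VD-Z] (120 lines). PROOF. `ix_cases` and the `vert_…` lemmas. It is good to prove first: `x = p / r` with an integer `p`, `1 ≤ r ≤ 16 (m+2)^6` and `|x| ≤ 25 (m+2)^3` imply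
`IsFrac m x` (`|p| = |x| r`). The coordinates of `cl`, `cr`, and of the tips of dents have `r = 16 (m + 2) ^ 5 (e + 3)`, `e + 3 ≤ m + 2`; the tips of the spikes (`zL i e`, `tp_fst`) have `r = 2 e + 5`;
all the others are integers. Absolute values: `≤ Yt m + 1 = 10 (m+2)^3 + 1`. -/
theorem vert_frac (m : ℕ) (A : ℕ → ℕ → Bool) (l : ℕ) (hl : l < NN m) :
    IsFrac m (vert m A l).1 ∧ IsFrac m (vert m A l).2 := by
  obtain ⟨a1, a2, a3, a4⟩ := L_bounds m
  have hm0 : (0 : ℝ) ≤ m := Nat.cast_nonneg m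
  rcases ix_cases m l hl with ⟨i, e, hi, he, rfl⟩ | ⟨i, e, hi, he, rfl⟩ | ⟨i, e, hi, he, rfl⟩ |
    ⟨i, hi, rfl⟩ | ⟨i, hi, rfl⟩ | rfl | rfl | rfl | rfl | rfl
  · rw [vert_cl m A hi he]
    obtain ⟨h1, h2⟩ := frac_xo hi he (-1) 0 (by norm_num) (by norm_num)
    unfold cl
    constructor
    · convert h1 using 1
      push_cast
      ring
    · convert h2 using 1
      push_cast
      rw [show xo i e + (-1) * ep m = xo i e - ep m by ring]
      ring
  · rw [vert_tp m A hi he]
    rw [tp_fst]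
    cases hb : sl m A i e with
    | true =>
      obtain ⟨h1, h2⟩ := frac_zL hi he
      constructor
      · simpa using h1
      · have h3 : (tp m true i e).2 = W i (zL i e) - 1 / (2 * (e : ℝ) + 5) := by
          have h4 := tp_fst m true i e
          have h5 : (tp m true i e).2 = W i (tp m true i e).1 - hh m true e := rfl
          rw [h5, h4]
          simp [hh]
        rw [h3]
        exact h2
    | false =>
      obtain ⟨h1, h2⟩ := frac_xo hi he 0 1 (by norm_num) (by norm_num)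
      constructor
      · simpa using h1
      · have h3 : (tp m false i e).2 = W i (xo i e) - ep m := by
          have h4 := tp_fst m false i e
          have h5 : (tp m false i e).2 = W i (tp m false i e).1 - hh m false e := rfl
          rw [h5, h4]
          simp [hh]
        rw [h3]
        simpa using h2
  · rw [vert_cr m A hi he]
    obtain ⟨h1, h2⟩ := frac_xo hi he 1 0 (by norm_num) (by norm_num)
    unfold cr
    constructor
    · convert h1 using 1
      push_cast
      ring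
    · convert h2 using 1
      push_cast
      rw [show xo i e + 1 * ep m = xo i e + ep m by ring]
      ring
  · rw [vert_BB m A hi]
    have hi' : (i : ℝ) + 1 ≤ m := by exact_mod_cast hi
    have hi0 : (0 : ℝ) ≤ i := Nat.cast_nonneg i
    unfold BB
    constructor
    · have h := bd_int m (n := (i : ℤ) + 1) (by
        push_cast
        rw [abs_le]
        constructor <;> linarith)
      simpa using h
    · have h := bd_int m (n := ((i : ℤ) + 1) ^ 2 - 1) (by
        push_cast
        rw [abs_le]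
        constructor <;> nlinarith)
      simpa using h
  · rw [vert_uu m A hi]
    exact frac_uu hi
  · rw [vert_RR]
    unfold RR Yt
    constructor
    · have h := bd_int m (n := (m : ℤ)) (by
        push_cast
        rw [abs_le]
        constructor <;> linarith)
      simpa using h
    · have h := bd_int m (n := 10 * ((m : ℤ) + 2) ^ 3) (by
        push_cast
        rw [abs_le]
        constructor <;> linarith)
      simpa using h
  · rw [vert_zz]
    unfold zz Yt
    constructor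
    · have h := bd_int m (n := 0) (by
        push_cast
        rw [abs_le]
        constructor <;> linarith)
      simpa using h
    · have h := bd_int m (n := 10 * ((m : ℤ) + 2) ^ 3) (by
        push_cast
        rw [abs_le]
        constructor <;> linarith)
      simpa using h
  · rw [vert_qq]
    unfold qq Yt
    constructor
    · have h := bd_int m (n := -1) (by
        push_cast
        rw [abs_le]
        constructor <;> linarith)
      simpa using h
    · have h := bd_int m (n := 10 * ((m : ℤ) + 2) ^ 3 + 1) (by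
        push_cast
        rw [abs_le]
        constructor <;> linarith)
      simpa using h
  · rw [vert_aa]
    unfold aa Yt
    constructor
    · have h := bd_int m (n := 0) (by
        push_cast
        rw [abs_le]
        constructor <;> linarith)
      simpa using h
    · have h := bd_int m (n := 10 * ((m : ℤ) + 2) ^ 3 - 1) (by
        push_cast
        rw [abs_le]
        constructor <;> linarith)
      simpa using h
  · rw [vert_u0]
    exact frac_uu (Nat.zero_le m)

end VisDom
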