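import Pool.Agent.Lib_MP_d1a796.TwoSlot

/-!
# Two sides which are not sides of slots
-/

set_option autoImplicit false

namespace VisDom

/-! ### Numerical facts -/

private theorem tr_dep {i : ℕ} {p : ℝ × ℝ} (h : dep i p = 0) : p.2 = 2 * i * p.1 - (i : ℝ) ^ 2 := by
  unfold dep W at h
  linarith

private theorem tr_wl0 (m i : ℕ) : (wl m i 0).1 = i := by
  simp [wl, uu]

private theorem tr_wlS (m i d : ℕ) (hd : d ≠ 0) : (wl m i d).1 = xo i (d - 1) + ep m := by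
  simp [wl, hd, cr]

private theorem tr_wrm (m i : ℕ) : (wr m i m).1 = i + 1 := by
  simp [wr, BB]

private theorem tr_wrS (m i d : ℕ) (hd : d ≠ m) : (wr m i d).1 = xo i d - ep m := by
  simp [wr, hd, cl]

private theorem tr_wl_ge (m i d : ℕ) : (i : ℝ) ≤ (wl m i d).1 := by
  by_cases hd : d = 0
  · subst hd
    rw [tr_wl0]
  · rw [tr_wlS m i d hd]
    have := xo_lower i (d - 1)
    have := ep_pos m
    linarith

private theorem tr_wl_gt (m i d : ℕ) (hd : d ≠ 0) : (i : ℝ) < (wl m i d).1 := by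
  rw [tr_wlS m i d hd]
  have := xo_lower i (d - 1)
  have := ep_pos m
  linarith

private theorem tr_wr_lt (m i d : ℕ) (hd : d < m) : (wr m i d).1 < i + 1 := by
  rw [tr_wrS m i d hd.ne]
  have := xo_upper i hd
  have := ep_pos m
  linarith

private theorem tr_wr_le (m i d : ℕ) (hd : d ≤ m) : (wr m i d).1 ≤ i + 1 := by
  rcases hd.eq_or_lt with h | h
  · subst h
    rw [tr_wrm]
  · exact (tr_wr_lt m i d h).le

private theorem tr_wr_lt_wl (m i d d' : ℕ) (h : d < d') (hd' : d' ≤ m) : (wr m i d).1 < (wl m i d').1 := by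
  have h1 : d < m := by omega
  rw [tr_wrS m i d h1.ne, tr_wlS m i d' (by omega)]
  have hε := ep_pos m
  rcases Nat.lt_or_ge d (d' - 1) with h2 | h2
  · have h3 : d' - 1 < m := by omega
    have := zone_lt i h2 h3
    have := zL_lt i h3
    linarith
  · have h3 : d' - 1 = d := by omega
    rw [h3]
    linarith

private theorem tr_Yt (m : ℕ) : (m : ℝ) ^ 2 + 10 ≤ Yt m := by
  have := Yt_big m
  have hm : (0 : ℝ) ≤ m := Nat.cast_nonneg m
  nlinarith

/-- Everything used about a point of a piece of a wall. -/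
private theorem tr_wa {m i d : ℕ} {A : ℕ → ℕ → Bool} (hE : (Ed.wa i d).Valid m) {p : ℝ × ℝ}
    (hp : (Ed.wa i d).Desc m A p) :
    p.2 = 2 * i * p.1 - (i : ℝ) ^ 2 ∧ (i : ℝ) ≤ p.1 ∧ p.1 ≤ i + 1 ∧ (i : ℝ) + 1 ≤ m ∧ p.2 ≤ (m : ℝ) ^ 2 - 1 ∧
      (p.1 = i → d = 0) ∧ (p.1 = i + 1 → d = m) := by
  obtain ⟨hi, hd⟩ := hE
  obtain ⟨h1, h2, h3⟩ := hp
  have e1 := tr_dep h1
  have e2 : (i : ℝ) ≤ p.1 := (tr_wl_ge m i d).trans h2
  have e3 : p.1 ≤ i + 1 := h3.trans (tr_wr_le m i d hd)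
  have e4 : (i : ℝ) + 1 ≤ m := by exact_mod_cast hi
  have e0 : (0 : ℝ) ≤ i := Nat.cast_nonneg i
  refine ⟨e1, e2, e3, e4, ?_, ?_, ?_⟩
  · have h4 : p.2 ≤ ((i : ℝ) + 1) ^ 2 - 1 := by
      rw [e1]
      nlinarith
    have h5 : ((i : ℝ) + 1) ^ 2 ≤ (m : ℝ) ^ 2 := by gcongr
    linarith
  · intro h4
    by_contra hd0
    have := tr_wl_gt m i d hd0
    linarith
  · intro h4
    by_contra hdm
    have := tr_wr_lt m i d (lt_of_le_of_ne hd hdm)
    linarith

private def TRel (m : ℕ) (A : ℕ → ℕ → Bool) (p : ℝ × ℝ) (E E' : Ed) : Prop :=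
  (p = E.dst m A ∧ p = E'.src m A) ∨ (p = E.src m A ∧ p = E'.dst m A)

private theorem TRel.symm {m : ℕ} {A : ℕ → ℕ → Bool} {p : ℝ × ℝ} {E E' : Ed} (h : TRel m A p E E') :
    TRel m A p E' E :=
  h.elim (fun h => Or.inr ⟨h.2, h.1⟩) (fun h => Or.inl ⟨h.2, h.1⟩)

private theorem tr_wa_wa_lt {m i d i' d' : ℕ} {A : ℕ → ℕ → Bool} (hE : (Ed.wa i d).Valid m)
    (hE' : (Ed.wa i' d').Valid m) (hlt : i < i') {p : ℝ × ℝ} (hp : (Ed.wa i d).Desc m A p)
    (hp' : (Ed.wa i' d').Desc m A p) : False := by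
  obtain ⟨a1, a2, a3, a4, a5, a6, a7⟩ := tr_wa hE hp
  obtain ⟨b1, b2, b3, b4, b5, b6, b7⟩ := tr_wa hE' hp'
  have h1 : (i : ℝ) + 1 ≤ i' := by exact_mod_cast hlt
  have h2 : (i' : ℝ) = i + 1 := by linarith
  have h3 : p.1 = i + 1 := by linarith
  rw [h3, h2] at b1
  rw [h3] at a1
  nlinarith

private theorem tr_wa_wa {m i d i' d' : ℕ} {A : ℕ → ℕ → Bool} (hE : (Ed.wa i d).Valid m)
    (hE' : (Ed.wa i' d').Valid m) (hne : Ed.wa i d ≠ Ed.wa i' d') {p : ℝ × ℝ} (hp : (Ed.wa i d).Desc m A p)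
    (hp' : (Ed.wa i' d').Desc m A p) : False := by
  rcases lt_trichotomy i i' with h | h | h
  · exact tr_wa_wa_lt hE hE' h hp hp'
  · subst h
    have hd : d ≠ d' := fun h => hne (by rw [h])
    rcases lt_or_gt_of_ne hd with h | h
    · have h1 := tr_wr_lt_wl m i d d' h hE'.2
      have h2 := hp.2.2
      have h3 := hp'.2.1
      linarith
    · have h1 := tr_wr_lt_wl m i d' d h hE.2
      have h2 := hp'.2.2
      have h3 := hp.2.1
      linarith
  · exact tr_wa_wa_lt hE' hE h hp' hp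

private theorem tr_wa_nd {m i d j : ℕ} {A : ℕ → ℕ → Bool} (hE : (Ed.wa i d).Valid m)
    (hE' : (Ed.nd j).Valid m) {p : ℝ × ℝ} (hp : (Ed.wa i d).Desc m A p)
    (hp' : (Ed.nd j).Desc m A p) : TRel m A p (Ed.wa i d) (Ed.nd j) := by
  obtain ⟨a1, a2, a3, a4, a5, a6, a7⟩ := tr_wa hE hp
  obtain ⟨b1, b2, b3⟩ := hp'
  have h1 : (j : ℝ) + 1 ≤ i + 1 := by linarith
  have h1' : j ≤ i := by
    have : (j : ℝ) ≤ i := by linarith
    exact_mod_cast this
  have h2 : i ≤ j + 1 := by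
    have : (i : ℝ) ≤ j + 1 := by linarith
    exact_mod_cast this
  rcases h1'.eq_or_lt with h | h
  · subst h
    have hd : d = m := a7 b1
    subst hd
    refine Or.inl ⟨?_, ?_⟩
    · refine Prod.ext ?_ ?_
      · change p.1 = (wr d j d).1
        rw [tr_wrm, b1]
      · change p.2 = (wr d j d).2
        have : wr d j d = BB j := by simp [wr]
        rw [this, a1, b1]
        change 2 * (j : ℝ) * (j + 1) - (j : ℝ) ^ 2 = ((j : ℝ) + 1) ^ 2 - 1
        ring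
    · refine Prod.ext ?_ ?_
      · change p.1 = (j : ℝ) + 1
        exact b1
      · change p.2 = ((j : ℝ) + 1) ^ 2 - 1
        rw [a1, b1]
        ring
  · have hi : i = j + 1 := by omega
    subst hi
    push_cast at a1 a2 a3 a6
    have hd : d = 0 := a6 b1
    subst hd
    refine Or.inr ⟨?_, ?_⟩
    · refine Prod.ext ?_ ?_
      · change p.1 = (wl m (j + 1) 0).1
        rw [tr_wl0, b1]
        push_cast
        ring
      · change p.2 = (wl m (j + 1) 0).2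
        have : wl m (j + 1) 0 = uu (j + 1) := by simp [wl]
        rw [this, a1, b1]
        change 2 * ((j : ℝ) + 1) * (j + 1) - ((j : ℝ) + 1) ^ 2 = ((j + 1 : ℕ) : ℝ) ^ 2
        push_cast
        ring
    · refine Prod.ext ?_ ?_
      · change p.1 = ((j + 1 : ℕ) : ℝ)
        rw [b1]
        push_cast
        ring
      · change p.2 = ((j + 1 : ℕ) : ℝ) ^ 2
        rw [a1, b1]
        push_cast
        ring

private theorem tr_wa_s0 {m i d : ℕ} {A : ℕ → ℕ → Bool} (hE : (Ed.wa i d).Valid m)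
    {p : ℝ × ℝ} (hp : (Ed.wa i d).Desc m A p)
    (hp' : (Ed.s0).Desc m A p) : TRel m A p (Ed.wa i d) Ed.s0 := by
  obtain ⟨a1, a2, a3, a4, a5, a6, a7⟩ := tr_wa hE hp
  obtain ⟨b1, b2, b3⟩ := hp'
  have hi : i = 0 := by
    have h1 : (i : ℝ) ≤ 0 := by linarith
    have h2 : i ≤ 0 := by exact_mod_cast h1
    omega
  subst hi
  have hd : d = 0 := a6 (by rw [b1]; simp)
  subst hd
  have h0 : p = (0, 0) := by
    refine Prod.ext b1 ?_
    rw [a1, b1]
    simp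
  refine Or.inr ⟨?_, ?_⟩
  · rw [h0]
    change (0, 0) = wl m 0 0
    simp [wl, uu]
  · rw [h0]
    change (0, 0) = uu 0
    simp [uu]

private theorem tr_wa_all {m i d : ℕ} (hm : 1 ≤ m) {A : ℕ → ℕ → Bool} (E' : Ed) (hE : (Ed.wa i d).Valid m) (hE' : E'.Valid m)
    (hne : Ed.wa i d ≠ E') (hs' : ¬ E'.isSlot) {p : ℝ × ℝ} (hp : (Ed.wa i d).Desc m A p) (hp' : E'.Desc m A p) :
    TRel m A p (Ed.wa i d) E' := by
  have hY := tr_Yt m
  obtain ⟨a1, a2, a3, a4, a5, a6, a7⟩ := tr_wa hE hp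
  have h0 : (0 : ℝ) ≤ i := Nat.cast_nonneg i
  cases E' with
  | sl i' e' => exact absurd trivial hs'
  | sr i' e' => exact absurd trivial hs'
  | wa i' d' => exact (tr_wa_wa hE hE' hne hp hp').elim
  | nd j => exact tr_wa_nd hE hE' hp hp'
  | sR =>
    obtain ⟨b1, b2, b3⟩ := hp'
    exfalso
    linarith
  | sz =>
    obtain ⟨b1, b2, b3⟩ := hp'
    exfalso
    linarith
  | sq =>
    obtain ⟨b1, b2, b3⟩ := hp'
    exfalso
    have hi : (i : ℝ) = 0 := by linarith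
    rw [hi] at a1
    linarith
  | sa =>
    obtain ⟨b1, b2, b3⟩ := hp'
    exfalso
    have hi : (i : ℝ) = 0 := by linarith
    rw [hi] at a1
    nlinarith
  | s0 => exact tr_wa_s0 hE hp hp'

private theorem tr_nd_all {m i : ℕ} {A : ℕ → ℕ → Bool} (E' : Ed) (hE : (Ed.nd i).Valid m) (hE' : E'.Valid m)
    (hne : Ed.nd i ≠ E') (hs' : ¬ E'.isSlot) (hw : ∀ i' d', E' ≠ Ed.wa i' d') {p : ℝ × ℝ} (hp : (Ed.nd i).Desc m A p)
    (hp' : E'.Desc m A p) : TRel m A p (Ed.nd i) E' := by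
  have hY := tr_Yt m
  have hi : (i : ℝ) + 1 ≤ m := by
    have : i + 1 ≤ m := hE
    exact_mod_cast this
  have h0 : (0 : ℝ) ≤ i := Nat.cast_nonneg i
  obtain ⟨a1, a2, a3⟩ := hp
  have a4 : p.2 ≤ (m : ℝ) ^ 2 := by
    have h5 : ((i : ℝ) + 1) ^ 2 ≤ (m : ℝ) ^ 2 := by gcongr
    linarith
  cases E' with
  | sl i' e' => exact absurd trivial hs'
  | sr i' e' => exact absurd trivial hs'
  | wa i' d' => exact absurd rfl (hw i' d')
  | nd j =>
    exfalso
    obtain ⟨b1, b2, b3⟩ := hp'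
    apply hne
    have h1 : (i : ℝ) = j := by linarith
    have h2 : i = j := by exact_mod_cast h1
    rw [h2]
  | sR =>
    obtain ⟨b1, b2, b3⟩ := hp'
    have h1 : (i : ℝ) + 1 = m := by linarith
    have h2 : i + 1 = m := by exact_mod_cast h1
    have h3 : p = uu m := by
      refine Prod.ext ?_ ?_
      · exact b1
      · exact le_antisymm a4 b2
    refine Or.inl ⟨?_, h3⟩
    change p = uu (i + 1)
    rw [h2]
    exact h3
  | sz =>
    obtain ⟨b1, b2, b3⟩ := hp'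
    exfalso
    linarith
  | sq =>
    obtain ⟨b1, b2, b3⟩ := hp'
    exfalso
    linarith
  | sa =>
    obtain ⟨b1, b2, b3⟩ := hp'
    exfalso
    linarith
  | s0 =>
    obtain ⟨b1, b2, b3⟩ := hp'
    exfalso
    linarith

private theorem tr_sR_sz {m : ℕ} {A : ℕ → ℕ → Bool} {p : ℝ × ℝ} (hp : Ed.sR.Desc m A p)
    (hp' : Ed.sz.Desc m A p) : TRel m A p Ed.sR Ed.sz := by
  obtain ⟨a1, a2, a3⟩ := hp
  obtain ⟨b1, b2, b3⟩ := hp'
  have h : p = RR m := Prod.ext a1 b1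
  exact Or.inl ⟨h, h⟩

private theorem tr_sz_sq {m : ℕ} {A : ℕ → ℕ → Bool} {p : ℝ × ℝ} (hp : Ed.sz.Desc m A p)
    (hp' : Ed.sq.Desc m A p) : TRel m A p Ed.sz Ed.sq := by
  obtain ⟨a1, a2, a3⟩ := hp
  obtain ⟨b1, b2, b3⟩ := hp'
  have h : p = zz m := Prod.ext (le_antisymm b3 a2) a1
  exact Or.inl ⟨h, h⟩

private theorem tr_sq_sa {m : ℕ} {A : ℕ → ℕ → Bool} {p : ℝ × ℝ} (hp : Ed.sq.Desc m A p)
    (hp' : Ed.sa.Desc m A p) : TRel m A p Ed.sq Ed.sa := by
  obtain ⟨a1, a2, a3⟩ := hp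
  obtain ⟨b1, b2, b3⟩ := hp'
  have h1 : p.1 = -1 := by linarith
  have h2 : p.2 = Yt m + 1 := by linarith
  have h : p = qq m := Prod.ext h1 h2
  exact Or.inl ⟨h, h⟩

private theorem tr_sa_s0 {m : ℕ} {A : ℕ → ℕ → Bool} {p : ℝ × ℝ} (hp : Ed.sa.Desc m A p)
    (hp' : Ed.s0.Desc m A p) : TRel m A p Ed.sa Ed.s0 := by
  obtain ⟨a1, a2, a3⟩ := hp
  obtain ⟨b1, b2, b3⟩ := hp'
  have h2 : p.2 = Yt m - 1 := by rw [a1, b1]; ring
  have h : p = aa m := Prod.ext b1 h2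
  exact Or.inl ⟨h, h⟩

/-- PIECE [VD-S2] (160 lines). PROOF. All cases of `E`, `E'` among `wa, nd, sR, sz, sq, sa, s0` (it may be good to do `wa, wa`, `wa, nd`,
… as separate private lemmas and to use the symmetry of the statement).
* `wa i d`, `wa i' d'`: if `i = i'`, `d < d'`: `(wr m i d).1 < (wl m i d').1` (`zone_lt`, `zL_lt`), impossible. If `i < i'`: `p.1 ≤ i + 1 ≤ i' ≤ p.1`, so
  `i' = i + 1 = p.1` and `p.2 = W i (i + 1) = (i + 1) ^ 2 - 1`, `p.2 = W (i + 1) (i + 1) = (i + 1) ^ 2`, impossible.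
* `wa i d`, `nd j`: `p.1 = j + 1`: `j = i` (then `p = BB i`, `d = m` because `(wr m i d).1 < i + 1` otherwise) or `j + 1 = i` (then `p.1 = i`, `d = 0`, `p = uu i`).
* `wa`, `sR`: `p.1 = m`, `i = m - 1`, `p.2 = m ^ 2 - 1`, impossible. `wa`, `sz`: `p.2 = Yt m` but `p.2 ≤ m ^ 2`. `wa`, `sq`/`sa`: `p.1 = 0`, `i = 0`, `p.2 = 0`
  but `p.2 ≥ Yt m - 1`. `wa`, `s0`: `p = (0, 0)`, `i = 0`, `d = 0`, `p = uu 0`.
* `nd i`, `nd i'`: `i = i'`. `nd i`, `sR`: `i + 1 = m`, `p.2 = m ^ 2`, `p = uu m`. `nd`, `sz`: `p.2 ≤ m ^ 2 < Yt m`. `nd`, `sq`/`sa`/`s0`: `p.1 ≥ 1`.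
* `sR`, `sz`: `p = RR m`. `sR`, `sq`/`sa`/`s0`: `p.1 = m ≥ 1`. `sz`, `sq`: `p = zz m`. `sz`, `sa`: `p.1 = -1/2`, impossible. `sz`, `s0`: impossible.
  `sq`, `sa`: `p = qq m`. `sq`, `s0`: impossible. `sa`, `s0`: `p = aa m`. -/
theorem two_rest (m : ℕ) (hm : 1 ≤ m) (A : ℕ → ℕ → Bool) (E E' : Ed) (hE : E.Valid m) (hE' : E'.Valid m)
    (hne : E ≠ E') (hs : ¬ E.isSlot) (hs' : ¬ E'.isSlot) (p : ℝ × ℝ) (hp : E.Desc m A p) (hp' : E'.Desc m A p) :
    (p = E.dst m A ∧ p = E'.src m A) ∨ (p = E.src m A ∧ p = E'.dst m A) := by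
  change TRel m A p E E'
  have hY := tr_Yt m
  have hm' : (1 : ℝ) ≤ m := by exact_mod_cast hm
  have hsq : (1 : ℝ) ≤ (m : ℝ) ^ 2 := by nlinarith
  by_cases h1 : ∃ i d, E = Ed.wa i d
  · obtain ⟨i, d, rfl⟩ := h1
    exact tr_wa_all hm E' hE hE' hne hs' hp hp'
  by_cases h1' : ∃ i d, E' = Ed.wa i d
  · obtain ⟨i, d, rfl⟩ := h1'
    exact (tr_wa_all hm E hE' hE hne.symm hs hp' hp).symm
  by_cases h2 : ∃ i, E = Ed.nd i
  · obtain ⟨i, rfl⟩ := h2
    exact tr_nd_all E' hE hE' hne hs' (fun i d h => h1' ⟨i, d, h⟩) hp hp'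
  by_cases h2' : ∃ i, E' = Ed.nd i
  · obtain ⟨i, rfl⟩ := h2'
    exact (tr_nd_all E hE' hE hne.symm hs (fun i d h => h1 ⟨i, d, h⟩) hp' hp).symm
  cases E with
  | sl i e => exact absurd trivial hs
  | sr i e => exact absurd trivial hs
  | wa i d => exact absurd ⟨i, d, rfl⟩ h1
  | nd i => exact absurd ⟨i, rfl⟩ h2
  | sR =>
    cases E' with
    | sl i e => exact absurd trivial hs'
    | sr i e => exact absurd trivial hs'
    | wa i d => exact absurd ⟨i, d, rfl⟩ h1'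
    | nd i => exact absurd ⟨i, rfl⟩ h2'
    | sR => exact absurd rfl hne
    | sz => exact tr_sR_sz hp hp'
    | sq => exact absurd hp'.2.2 (by have := hp.1; linarith)
    | sa => exact absurd hp'.2.2 (by have := hp.1; linarith)
    | s0 => exact absurd hp'.1 (by have := hp.1; linarith)
  | sz =>
    cases E' with
    | sl i e => exact absurd trivial hs'
    | sr i e => exact absurd trivial hs'
    | wa i d => exact absurd ⟨i, d, rfl⟩ h1'
    | nd i => exact absurd ⟨i, rfl⟩ h2'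
    | sR => exact (tr_sR_sz hp' hp).symm
    | sz => exact absurd rfl hne
    | sq => exact tr_sz_sq hp hp'
    | sa =>
      exfalso
      obtain ⟨a1, a2, a3⟩ := hp
      obtain ⟨b1, b2, b3⟩ := hp'
      linarith
    | s0 =>
      exfalso
      obtain ⟨a1, a2, a3⟩ := hp
      obtain ⟨b1, b2, b3⟩ := hp'
      linarith
  | sq =>
    cases E' with
    | sl i e => exact absurd trivial hs'
    | sr i e => exact absurd trivial hs'
    | wa i d => exact absurd ⟨i, d, rfl⟩ h1'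
    | nd i => exact absurd ⟨i, rfl⟩ h2'
    | sR =>
      exfalso
      obtain ⟨a1, a2, a3⟩ := hp
      obtain ⟨b1, b2, b3⟩ := hp'
      linarith
    | sz => exact (tr_sz_sq hp' hp).symm
    | sq => exact absurd rfl hne
    | sa => exact tr_sq_sa hp hp'
    | s0 =>
      exfalso
      obtain ⟨a1, a2, a3⟩ := hp
      obtain ⟨b1, b2, b3⟩ := hp'
      linarith
  | sa =>
    cases E' with
    | sl i e => exact absurd trivial hs'
    | sr i e => exact absurd trivial hs'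
    | wa i d => exact absurd ⟨i, d, rfl⟩ h1'
    | nd i => exact absurd ⟨i, rfl⟩ h2'
    | sR =>
      exfalso
      obtain ⟨a1, a2, a3⟩ := hp
      obtain ⟨b1, b2, b3⟩ := hp'
      linarith
    | sz =>
      exfalso
      obtain ⟨a1, a2, a3⟩ := hp
      obtain ⟨b1, b2, b3⟩ := hp'
      linarith
    | sq => exact (tr_sq_sa hp' hp).symm
    | sa => exact absurd rfl hne
    | s0 => exact tr_sa_s0 hp hp'
  | s0 =>
    cases E' with
    | sl i e => exact absurd trivial hs'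
    | sr i e => exact absurd trivial hs'
    | wa i d => exact absurd ⟨i, d, rfl⟩ h1'
    | nd i => exact absurd ⟨i, rfl⟩ h2'
    | sR =>
      exfalso
      obtain ⟨a1, a2, a3⟩ := hp
      obtain ⟨b1, b2, b3⟩ := hp'
      linarith
    | sz =>
      exfalso
      obtain ⟨a1, a2, a3⟩ := hp
      obtain ⟨b1, b2, b3⟩ := hp'
      linarith
    | sq =>
      exfalso
      obtain ⟨a1, a2, a3⟩ := hp
      obtain ⟨b1, b2, b3⟩ := hp'
      linarith
    | sa => exact (tr_sa_s0 hp' hp).symm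
    | s0 => exact absurd rfl hne

end VisDom
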