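import Pool.Agent.Lib_MP_d1a796.Desc

/-!
# A side of a slot against the other sides
-/

set_option autoImplicit false

namespace VisDom

def Ed.isSlot : Ed → Prop
  | .sl _ _ => True
  | .sr _ _ => True
  | _ => False

/-- A point of a side of slot `(i, e)` is in the triangle of the slot. -/
theorem tri_of_sl (m : ℕ) (A : ℕ → ℕ → Bool) {i e : ℕ} {p : ℝ × ℝ} (h : (Ed.sl i e).Desc m A p) :
    p ∈ tri m (sl m A i e) i e := by
  obtain ⟨h1, h2, h3⟩ := h
  have hε := ep_pos m
  have : 0 ≤ ep m * (hh m (sl m A i e) e - dep i p) := mul_nonneg hε.le (by linarith)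
  exact ⟨h1, by linarith, by linarith⟩

theorem tri_of_sr (m : ℕ) (A : ℕ → ℕ → Bool) {i e : ℕ} {p : ℝ × ℝ} (h : (Ed.sr i e).Desc m A p) :
    p ∈ tri m (sl m A i e) i e := by
  obtain ⟨h1, h2, h3⟩ := h
  have hε := ep_pos m
  have : 0 ≤ ep m * (hh m (sl m A i e) e - dep i p) := mul_nonneg hε.le (by linarith)
  exact ⟨h1, by linarith, by linarith⟩

/-- Consequences used below: `i < p.1 < i + 1` and the zone. -/
theorem slot_pos {m : ℕ} {b : Bool} {i e : ℕ} (he : e < m) {p : ℝ × ℝ} (hp : p ∈ tri m b i e) :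
    (i : ℝ) < p.1 ∧ p.1 < i + 1 ∧ zL i e ≤ p.1 ∧ p.1 ≤ xo i e + ep m := by
  obtain ⟨h1, h2, -⟩ := tri_zone he hp
  have := zL_lower i e
  have := xo_upper i he
  refine ⟨by linarith, by linarith, h1, h2⟩

private theorem eq_tp {m : ℕ} {b : Bool} {i e : ℕ} {p : ℝ × ℝ} (hD : dep i p = hh m b e)
    (hx : p.1 = xo i e + ka b e * hh m b e) : p = tp m b i e := by
  unfold tp
  refine Prod.ext hx ?_
  show p.2 = _
  rw [← hx]
  unfold dep at hD
  linarith

private theorem eq_cl {m i e : ℕ} {p : ℝ × ℝ} (hD : dep i p = 0) (hx : p.1 = xo i e - ep m) :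
    p = cl m i e := by
  unfold cl
  refine Prod.ext hx ?_
  show p.2 = _
  rw [← hx]
  unfold dep at hD
  linarith

private theorem eq_cr {m i e : ℕ} {p : ℝ × ℝ} (hD : dep i p = 0) (hx : p.1 = xo i e + ep m) :
    p = cr m i e := by
  unfold cr
  refine Prod.ext hx ?_
  show p.2 = _
  rw [← hx]
  unfold dep at hD
  linarith

private theorem wl_fst (m i d : ℕ) : (wl m i d).1 = if d = 0 then (i : ℝ) else xo i (d - 1) + ep m := by
  unfold wl
  split_ifs <;> rfl

private theorem wr_fst (m i d : ℕ) : (wr m i d).1 = if d = m then (i : ℝ) + 1 else xo i d - ep m := by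
  unfold wr
  split_ifs <;> rfl

private theorem wl_ge (m i d : ℕ) : (i : ℝ) ≤ (wl m i d).1 := by
  rw [wl_fst]
  split_ifs
  · exact le_refl _
  · have := xo_lower i (d - 1)
    have := ep_pos m
    linarith

private theorem wr_le {m d : ℕ} (i : ℕ) (hd : d ≤ m) : (wr m i d).1 ≤ (i : ℝ) + 1 := by
  rw [wr_fst]
  split_ifs with h
  · exact le_refl _
  · have := xo_upper i (lt_of_le_of_ne hd h)
    have := ep_pos m
    linarith

private theorem room_eq {i i' : ℕ} {x : ℝ} (h1 : (i : ℝ) < x) (h2 : x < i + 1) (h3 : (i' : ℝ) ≤ x)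
    (h4 : x ≤ i' + 1) : i' = i := by
  have h5 : (i' : ℝ) < ((i + 1 : ℕ) : ℝ) := by push_cast; linarith
  have h6 : (i : ℝ) < ((i' + 1 : ℕ) : ℝ) := by push_cast; linarith
  have h7 := Nat.cast_lt.1 h5
  have h8 := Nat.cast_lt.1 h6
  omega

private theorem slot_eq {m i e e' : ℕ} (he : e < m) (he' : e' < m) {x : ℝ} (h1 : zL i e ≤ x)
    (h2 : x ≤ xo i e + ep m) (h3 : zL i e' ≤ x) (h4 : x ≤ xo i e' + ep m) : e' = e := by
  rcases lt_trichotomy e' e with h | h | h
  · have := zone_lt i h he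
    linarith
  · exact h
  · have := zone_lt i h he'
    linarith

private theorem tip_of {h k x ε D : ℝ} (hε : 0 < ε) (hh0 : 0 < h) (e1 : h * (x - k * D) = -(ε * (h - D)))
    (e2 : h * (x - k * D) = ε * (h - D)) : D = h ∧ x = k * h := by
  have h1 : ε * (h - D) = 0 := by linarith
  have h2 : h - D = 0 := by
    rcases mul_eq_zero.1 h1 with h3 | h3
    · linarith
    · exact h3
  have h3 : D = h := by linarith
  refine ⟨h3, ?_⟩
  rw [h1] at e2
  rcases mul_eq_zero.1 e2 with h4 | h4
  · linarith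
  · rw [h3] at h4
    linarith

private theorem xo_mono {m i e e' : ℕ} (h : e < e') (he' : e' < m) : xo i e + ep m < xo i e' - ep m := by
  have h1 := zone_lt i h he'
  have h2 := zL_lt i he'
  linarith

/-- Piece of wall meeting the left corner. -/
private theorem wall_left {m i e d : ℕ} (he : e < m) (hd : d ≤ m) {x : ℝ} (hx : x = xo i e - ep m)
    (h1 : (wl m i d).1 ≤ x) (h2 : x ≤ (wr m i d).1) : d = e := by
  have hε := ep_pos m
  rw [wl_fst] at h1
  rw [wr_fst] at h2
  rcases lt_trichotomy d e with h | h | h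
  · rw [if_neg (by omega)] at h2
    have := xo_mono (i := i) h he
    linarith
  · exact h
  · rw [if_neg (by omega)] at h1
    rcases Nat.eq_or_lt_of_le (show e ≤ d - 1 by omega) with h3 | h3
    · rw [← h3] at h1
      linarith
    · have := xo_mono (i := i) h3 (show d - 1 < m by omega)
      linarith

/-- Piece of wall meeting the right corner. -/
private theorem wall_right {m i e d : ℕ} (he : e < m) (hd : d ≤ m) {x : ℝ} (hx : x = xo i e + ep m)
    (h1 : (wl m i d).1 ≤ x) (h2 : x ≤ (wr m i d).1) : d = e + 1 := by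
  have hε := ep_pos m
  rw [wl_fst] at h1
  rw [wr_fst] at h2
  rcases lt_trichotomy d (e + 1) with h | h | h
  · rw [if_neg (by omega)] at h2
    rcases Nat.eq_or_lt_of_le (show d ≤ e by omega) with h3 | h3
    · rw [h3] at h2
      linarith
    · have := xo_mono (i := i) h3 he
      linarith
  · exact h
  · rw [if_neg (by omega)] at h1
    have := xo_mono (i := i) (show e < d - 1 by omega) (show d - 1 < m by omega)
    linarith

/-- The sides which are not in a slot and not in a wall. -/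
private theorem no_other {m : ℕ} {A : ℕ → ℕ → Bool} {i : ℕ} (hi : i < m) {E' : Ed} {p : ℝ × ℝ}
    (h1 : (i : ℝ) < p.1) (h2 : p.1 < i + 1) (hD : 0 ≤ dep i p) (hp' : E'.Desc m A p)
    (hs : ¬ E'.isSlot) (hw : ∀ i' d, E' ≠ .wa i' d) : False := by
  have hi0 : (0 : ℝ) ≤ i := Nat.cast_nonneg i
  cases E' with
  | sl i' e' => exact hs trivial
  | sr i' e' => exact hs trivial
  | wa i' d => exact hw i' d rfl
  | nd i' =>
    have h3 := hp'.1
    have h5 : ((i : ℕ) : ℝ) < ((i' + 1 : ℕ) : ℝ) := by push_cast; linarith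
    have h6 : ((i' + 1 : ℕ) : ℝ) < ((i + 1 : ℕ) : ℝ) := by push_cast; linarith
    have h7 := Nat.cast_lt.1 h5
    have h8 := Nat.cast_lt.1 h6
    omega
  | sR =>
    have h3 := hp'.1
    have h6 : ((m : ℕ) : ℝ) < ((i + 1 : ℕ) : ℝ) := by push_cast; linarith
    have h8 := Nat.cast_lt.1 h6
    omega
  | sz =>
    have h3 := hp'.1
    unfold dep W at hD
    have h4 := Yt_big m
    have h5 : ((i + 1 : ℕ) : ℝ) ≤ (m : ℝ) := by exact_mod_cast hi
    push_cast at h5
    nlinarith
  | sq =>
    have h3 := hp'.2.2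
    linarith
  | sa =>
    have h3 := hp'.2.2
    linarith
  | s0 =>
    have h3 := hp'.1
    linarith

/-- PIECE [VD-S1] (140 lines). PROOF. `p` is in the triangle of a slot `(i, e)` (`tri_of_sl`, `tri_of_sr`), so `i < p.1 < i + 1` and
`zL i e ≤ p.1 ≤ xo i e + ε`. Cases for `E'`:
* a side of a slot `(i', e')`: `i' = i` (both `i < p.1 < i + 1`, `i' < p.1 < i' + 1`), `e' = e` (`zone_lt`); the sides are different,
  so one is `sl i e`, the other `sr i e`; the two equations give `ε (h - D) = 0`, `D = h`, `p.1 = xo + κ h`, so `p` is the tip.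
* `wa i' d`: `i' = i` (because `(wl m i' d).1 ≥ i'`, `(wr m i' d).1 ≤ i' + 1`) and `D = 0`; so `p.1 = xo i e - ε` (case `sl`), `p = cl m i e`,
  or `p.1 = xo i e + ε` (case `sr`), `p = cr m i e`. From `(wl m i d).1 ≤ p.1 ≤ (wr m i d).1` and the order
  `… < xo i (d-1) + ε < xo i d - ε < xo i d + ε < …` (`zone_lt`, `zL_lt`): `d = e` in the first case (`p = E.src = E'.dst`),
  `d = e + 1` in the second one (`p = E.dst = E'.src`).
* `nd`, `sR`, `s0`, `sq`, `sa`: `p.1` is an integer or `≤ 0`; `sz`: `p.2 = Yt m` but `p.2 ≤ W i p.1 ≤ (i + 1) ^ 2 ≤ m ^ 2 < Yt m`. -/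
theorem two_slot (m : ℕ) (hm : 1 ≤ m) (A : ℕ → ℕ → Bool) (E E' : Ed) (hE : E.Valid m) (hE' : E'.Valid m)
    (hne : E ≠ E') (hs : E.isSlot) (p : ℝ × ℝ) (hp : E.Desc m A p) (hp' : E'.Desc m A p) :
    (p = E.dst m A ∧ p = E'.src m A) ∨ (p = E.src m A ∧ p = E'.dst m A) := by
  have hε := ep_pos m
  cases E with
  | sl i e =>
    obtain ⟨hi, he⟩ := hE
    obtain ⟨q1, q2, q3, q4⟩ := slot_pos he (tri_of_sl m A hp)
    obtain ⟨hD0, hDh, heq⟩ := hp
    have hh0 := hh_pos m (VisDom.sl m A i e) e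
    cases E' with
    | sl i' e' =>
      obtain ⟨hi', he'⟩ := hE'
      obtain ⟨r1, r2, r3, r4⟩ := slot_pos he' (tri_of_sl m A hp')
      have h1 : i' = i := room_eq q1 q2 r1.le r2.le
      subst h1
      have h2 := slot_eq he he' q3 q4 r3 r4
      subst h2
      exact absurd rfl hne
    | sr i' e' =>
      obtain ⟨hi', he'⟩ := hE'
      obtain ⟨r1, r2, r3, r4⟩ := slot_pos he' (tri_of_sr m A hp')
      have h1 : i' = i := room_eq q1 q2 r1.le r2.le
      subst h1
      have h2 := slot_eq he he' q3 q4 r3 r4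
      subst h2
      obtain ⟨-, -, heq'⟩ := hp'
      obtain ⟨h3, h4⟩ := tip_of hε hh0 heq heq'
      have h5 := eq_tp h3 (by linarith)
      exact Or.inl ⟨h5, h5⟩
    | wa i' d =>
      obtain ⟨hi', hd⟩ := hE'
      obtain ⟨hD, hl, hr⟩ := hp'
      have h1 : i' = i := room_eq q1 q2 ((wl_ge m i' d).trans hl) (hr.trans (wr_le i' hd))
      subst h1
      rw [hD, mul_zero, sub_zero, sub_zero] at heq
      have h2 : p.1 = xo i' e - ep m := by
        have h3 : hh m (VisDom.sl m A i' e) e * (p.1 - xo i' e + ep m) = 0 := by linarith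
        rcases mul_eq_zero.1 h3 with h4 | h4
        · linarith
        · linarith
      have h3 := wall_left he hd h2 hl hr
      subst h3
      have h4 := eq_cl hD h2
      refine Or.inr ⟨h4, ?_⟩
      show p = wr m i' d
      unfold wr
      rw [if_neg (by omega)]
      exact h4
    | nd i' => exact (no_other hi q1 q2 hD0 hp' (fun h => h) (fun _ _ h => Ed.noConfusion h)).elim
    | sR => exact (no_other hi q1 q2 hD0 hp' (fun h => h) (fun _ _ h => Ed.noConfusion h)).elim
    | sz => exact (no_other hi q1 q2 hD0 hp' (fun h => h) (fun _ _ h => Ed.noConfusion h)).elim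
    | sq => exact (no_other hi q1 q2 hD0 hp' (fun h => h) (fun _ _ h => Ed.noConfusion h)).elim
    | sa => exact (no_other hi q1 q2 hD0 hp' (fun h => h) (fun _ _ h => Ed.noConfusion h)).elim
    | s0 => exact (no_other hi q1 q2 hD0 hp' (fun h => h) (fun _ _ h => Ed.noConfusion h)).elim
  | sr i e =>
    obtain ⟨hi, he⟩ := hE
    obtain ⟨q1, q2, q3, q4⟩ := slot_pos he (tri_of_sr m A hp)
    obtain ⟨hD0, hDh, heq⟩ := hp
    have hh0 := hh_pos m (VisDom.sl m A i e) e
    cases E' with
    | sl i' e' =>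
      obtain ⟨hi', he'⟩ := hE'
      obtain ⟨r1, r2, r3, r4⟩ := slot_pos he' (tri_of_sl m A hp')
      have h1 : i' = i := room_eq q1 q2 r1.le r2.le
      subst h1
      have h2 := slot_eq he he' q3 q4 r3 r4
      subst h2
      obtain ⟨-, -, heq'⟩ := hp'
      obtain ⟨h3, h4⟩ := tip_of hε hh0 heq' heq
      have h5 := eq_tp h3 (by linarith)
      exact Or.inr ⟨h5, h5⟩
    | sr i' e' =>
      obtain ⟨hi', he'⟩ := hE'
      obtain ⟨r1, r2, r3, r4⟩ := slot_pos he' (tri_of_sr m A hp')
      have h1 : i' = i := room_eq q1 q2 r1.le r2.le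
      subst h1
      have h2 := slot_eq he he' q3 q4 r3 r4
      subst h2
      exact absurd rfl hne
    | wa i' d =>
      obtain ⟨hi', hd⟩ := hE'
      obtain ⟨hD, hl, hr⟩ := hp'
      have h1 : i' = i := room_eq q1 q2 ((wl_ge m i' d).trans hl) (hr.trans (wr_le i' hd))
      subst h1
      rw [hD, mul_zero, sub_zero, sub_zero] at heq
      have h2 : p.1 = xo i' e + ep m := by
        have h3 : hh m (VisDom.sl m A i' e) e * (p.1 - xo i' e - ep m) = 0 := by linarith
        rcases mul_eq_zero.1 h3 with h4 | h4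
        · linarith
        · linarith
      have h3 := wall_right he hd h2 hl hr
      subst h3
      have h4 := eq_cr hD h2
      refine Or.inl ⟨h4, ?_⟩
      show p = wl m i' (e + 1)
      unfold wl
      rw [if_neg (by omega)]
      exact h4
    | nd i' => exact (no_other hi q1 q2 hD0 hp' (fun h => h) (fun _ _ h => Ed.noConfusion h)).elim
    | sR => exact (no_other hi q1 q2 hD0 hp' (fun h => h) (fun _ _ h => Ed.noConfusion h)).elim
    | sz => exact (no_other hi q1 q2 hD0 hp' (fun h => h) (fun _ _ h => Ed.noConfusion h)).elim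
    | sq => exact (no_other hi q1 q2 hD0 hp' (fun h => h) (fun _ _ h => Ed.noConfusion h)).elim
    | sa => exact (no_other hi q1 q2 hD0 hp' (fun h => h) (fun _ _ h => Ed.noConfusion h)).elim
    | s0 => exact (no_other hi q1 q2 hD0 hp' (fun h => h) (fun _ _ h => Ed.noConfusion h)).elim
  | wa i d => exact hs.elim
  | nd i => exact hs.elim
  | sR => exact hs.elim
  | sz => exact hs.elim
  | sq => exact hs.elim
  | sa => exact hs.elim
  | s0 => exact hs.elim

end VisDom
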